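import Pool.Agent.U156.OS.All

/-!
# No meromorphic continuation: both signs for all combinations
-/

set_option autoImplicit false

open Complex Filter Topology Finset

namespace Pool.Agent.U156.OS

lemma freq_upp {A : ℕ → ℝ} {ε : ℝ} (hε : 0 < ε) (h : ∀ C : ℝ, ∃ n : ℕ, C * Real.exp (ε * n) < A n) :
    ∃ᶠ n : ℕ in atTop, Real.exp (ε * n) < A n := by
  rw [frequently_atTop]
  intro N
  obtain ⟨C, hC1, hC⟩ : ∃ C : ℝ, 1 ≤ C ∧ ∀ n < N, A n ≤ C * Real.exp (ε * n) := by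
    refine ⟨1 + ∑ n ∈ range N, |A n|, ?_, fun n hn => ?_⟩
    · have : 0 ≤ ∑ n ∈ range N, |A n| := Finset.sum_nonneg fun _ _ => abs_nonneg _
      linarith
    · have h1 : |A n| ≤ ∑ n ∈ range N, |A n| :=
        Finset.single_le_sum (f := fun n => |A n|) (fun _ _ => abs_nonneg _) (Finset.mem_range.2 hn)
      have h2 : (1 : ℝ) ≤ Real.exp (ε * n) := Real.one_le_exp (by positivity)
      have h3 : 0 ≤ |A n| := abs_nonneg _
      calc A n ≤ |A n| := le_abs_self _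
        _ ≤ (1 + ∑ n ∈ range N, |A n|) * 1 := by linarith
        _ ≤ _ := mul_le_mul_of_nonneg_left h2 (by linarith)
  obtain ⟨n, hn⟩ := h C
  refine ⟨n, ?_, ?_⟩
  · by_contra hlt
    exact absurd (hC n (not_le.1 hlt)) (not_le.2 hn)
  · have h2 : (0 : ℝ) < Real.exp (ε * n) := Real.exp_pos _
    nlinarith

lemma conv_neg (p : Polynomial ℝ) (A : ℕ → ℝ) (n : ℕ) : conv (-p) A n = -conv p A n := by
  unfold conv
  rw [← Finset.sum_neg_distrib]
  refine Finset.sum_congr rfl fun q _ => ?_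
  rw [Polynomial.coeff_neg]
  ring

lemma not_merLow {A : ℕ → ℝ} (h : ¬ MerLow A) : ∃ δ : ℝ, 0 < δ ∧ ∀ p : Polynomial ℝ, p ≠ 0 →
    (∃ᶠ n : ℕ in atTop, Real.exp (δ * n) < conv p A n) ∧ ∃ᶠ n : ℕ in atTop, conv p A n < -Real.exp (δ * n) := by
  unfold MerLow at h
  push Not at h
  obtain ⟨ε, hε, h⟩ := h
  have key : ∀ p : Polynomial ℝ, p ≠ 0 → ∃ᶠ n : ℕ in atTop, Real.exp (ε * n) < conv p A n := by
    intro p hp
    refine freq_upp hε fun C => ?_
    obtain ⟨n, hn⟩ := h (-p) (neg_ne_zero.2 hp) C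
    rw [conv_neg] at hn
    exact ⟨n, by linarith⟩
  refine ⟨ε, hε, fun p hp => ⟨key p hp, ?_⟩⟩
  refine (key (-p) (neg_ne_zero.2 hp)).mono fun n hn => ?_
  rw [conv_neg] at hn
  linarith

end Pool.Agent.U156.OS
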