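import Pool.Agent.U156.OS.Ent

/-!
# Both signs, superexponential scale
-/

set_option autoImplicit false

open Complex Filter Topology Finset

namespace Pool.Agent.U156.OS

lemma freq_gen {A : ℕ → ℝ} {r : ℝ} (hr : 0 < r) (h : ∀ C : ℝ, ∃ n : ℕ, C * r ^ n < A n) :
    ∃ᶠ n : ℕ in atTop, r ^ n < A n := by
  rw [frequently_atTop]
  intro N
  obtain ⟨C, hC1, hC⟩ : ∃ C : ℝ, 1 ≤ C ∧ ∀ n < N, A n ≤ C * r ^ n := by
    refine ⟨1 + ∑ n ∈ range N, |A n| / r ^ n, ?_, fun n hn => ?_⟩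
    · have : 0 ≤ ∑ n ∈ range N, |A n| / r ^ n := Finset.sum_nonneg fun n _ => by positivity
      linarith
    · have h1 : |A n| / r ^ n ≤ ∑ n ∈ range N, |A n| / r ^ n :=
        Finset.single_le_sum (f := fun n => |A n| / r ^ n) (fun n _ => by positivity) (Finset.mem_range.2 hn)
      have h2 : 0 < r ^ n := by positivity
      have h3 : |A n| = |A n| / r ^ n * r ^ n := by
        rw [div_mul_cancel₀ _ h2.ne']
      calc A n ≤ |A n| := le_abs_self _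
        _ = |A n| / r ^ n * r ^ n := h3
        _ ≤ (1 + ∑ n ∈ range N, |A n| / r ^ n) * r ^ n := mul_le_mul_of_nonneg_right (by linarith) h2.le
  obtain ⟨n, hn⟩ := h C
  refine ⟨n, ?_, ?_⟩
  · by_contra hlt
    exact absurd (hC n (not_le.1 hlt)) (not_le.2 hn)
  · have h2 : (0 : ℝ) < r ^ n := by positivity
    nlinarith

lemma not_sUpp {A : ℕ → ℝ} (h : ¬ SUpp A) : ∃ r : ℝ, 0 < r ∧ ∃ᶠ n : ℕ in atTop, r ^ n < A n := by
  unfold SUpp at h
  push Not at h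
  obtain ⟨ε, hε, h⟩ := h
  exact ⟨ε, hε, freq_gen hε h⟩

lemma not_sLow {A : ℕ → ℝ} (h : ¬ SLow A) : ∃ r : ℝ, 0 < r ∧ ∃ᶠ n : ℕ in atTop, A n < -r ^ n := by
  have h1 : ¬ SUpp fun n => -A n := by
    intro h2
    apply h
    intro ε hε
    obtain ⟨C, hC⟩ := h2 ε hε
    exact ⟨C, fun n => by have := hC n; linarith⟩
  obtain ⟨δ, hδ, h2⟩ := not_sUpp h1
  exact ⟨δ, hδ, h2.mono fun n hn => by linarith⟩

lemma sLow_of_nonneg {B : ℕ → ℝ} (h : ∃ n₀ : ℕ, ∀ n, n₀ ≤ n → 0 ≤ B n) : SLow B := by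
  obtain ⟨n₀, h⟩ := h
  intro ε hε
  refine ⟨∑ n ∈ range n₀, |B n| / ε ^ n, fun n => ?_⟩
  have h2 : 0 < ε ^ n := by positivity
  have h0 : 0 ≤ ∑ n ∈ range n₀, |B n| / ε ^ n := Finset.sum_nonneg fun n _ => by positivity
  by_cases hn : n₀ ≤ n
  · have := h n hn
    have h3 : 0 ≤ (∑ n ∈ range n₀, |B n| / ε ^ n) * ε ^ n := by positivity
    linarith
  · have h1 : |B n| / ε ^ n ≤ ∑ n ∈ range n₀, |B n| / ε ^ n :=
      Finset.single_le_sum (f := fun n => |B n| / ε ^ n) (fun n _ => by positivity) (Finset.mem_range.2 (not_le.1 hn))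
    have h3 : |B n| = |B n| / ε ^ n * ε ^ n := by
      rw [div_mul_cancel₀ _ h2.ne']
    have h4 : |B n| ≤ (∑ n ∈ range n₀, |B n| / ε ^ n) * ε ^ n := by
      rw [h3]
      exact mul_le_mul_of_nonneg_right h1 h2.le
    have := neg_abs_le (B n)
    linarith

end Pool.Agent.U156.OS
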