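import Pool.Agent.U156.OS.FEMer
import Pool.Agent.U156.OS.EntBoth

/-!
# Functional equations with complex coefficients
-/

set_option autoImplicit false

open Complex Filter Topology Finset

namespace Pool.Agent.U156.OS

/-- entire extension with `G (2 m - s) = conj (G (conj s))` -/
def CEnt (Λ : ℂ → ℂ) (m h : ℝ) : Prop :=
  ∃ G : ℂ → ℂ, Differentiable ℂ G ∧ (∀ s : ℂ, m + h < s.re → G s = Λ s) ∧
    ∀ s : ℂ, G (2 * m - s) = (starRingEnd ℂ) (G ((starRingEnd ℂ) s))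

/-- meromorphic extension with `G (2 m - s) = conj (G (conj s))` -/
def CMEnt (Λ : ℂ → ℂ) (m h : ℝ) : Prop :=
  ∃ G : ℂ → ℂ, MeromorphicOn G Set.univ ∧ (∀ s : ℂ, m + h < s.re → G s = Λ s) ∧
    ∀ s : ℂ, G (2 * m - s) = (starRingEnd ℂ) (G ((starRingEnd ℂ) s))

section
variable {Λ : ℂ → ℂ} {m h : ℝ}

lemma cj_fR (f : ℂ → ℂ) : cj (fR f) = fR f := by
  funext s
  unfold cj
  rw [fR_conj, Complex.conj_conj]

lemma cj_fI (f : ℂ → ℂ) : cj (fI f) = fI f := by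
  funext s
  unfold cj
  rw [fI_conj, Complex.conj_conj]

lemma fR_of_cj {f : ℂ → ℂ} (h : cj f = f) : fR f = f := by
  funext s
  unfold fR
  rw [h]
  ring

lemma cj_FE {G : ℂ → ℂ} (hFE : ∀ s : ℂ, G (2 * m - s) = cj G s) (s : ℂ) : cj G (2 * m - s) = G s := by
  have h1 : (starRingEnd ℂ) (2 * (m : ℂ) - s) = 2 * m - (starRingEnd ℂ) s := by
    rw [map_sub, map_mul, Complex.conj_ofReal, Complex.conj_ofNat]
  unfold cj
  rw [h1, hFE]
  unfold cj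
  rw [Complex.conj_conj, Complex.conj_conj]

/-- symmetrization keeps the functional equation with a sign -/
lemma fR_FE {G : ℂ → ℂ} {δ : ℕ} (hFE : ∀ s : ℂ, G (2 * m - s) = (-1) ^ δ * G s) (s : ℂ) :
    fR G (2 * m - s) = (-1) ^ δ * fR G s := by
  have h1 : (starRingEnd ℂ) (2 * (m : ℂ) - s) = 2 * m - (starRingEnd ℂ) s := by
    rw [map_sub, map_mul, Complex.conj_ofReal, Complex.conj_ofNat]
  unfold fR cj
  rw [h1, hFE, hFE, map_mul, map_pow, map_neg, map_one]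
  ring

lemma fR_meromorphic {G : ℂ → ℂ} (hG : MeromorphicOn G Set.univ) : MeromorphicOn (fR G) Set.univ := fun s _ =>
  ((hG s (Set.mem_univ _)).add (cj_merAt (hG _ (Set.mem_univ _)))).div (MeromorphicAt.const 2 s)

lemma fI_meromorphic {G : ℂ → ℂ} (hG : MeromorphicOn G Set.univ) : MeromorphicOn (fI G) Set.univ := fun s _ =>
  ((hG s (Set.mem_univ _)).sub (cj_merAt (hG _ (Set.mem_univ _)))).div (MeromorphicAt.const (2 * I) s)

lemma cj_entire {G : ℂ → ℂ} (hG : Differentiable ℂ G) : Differentiable ℂ (cj G) := fun _ => cj_diffAt (hG _)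

lemma fR_entire {G : ℂ → ℂ} (hG : Differentiable ℂ G) : Differentiable ℂ (fR G) := (hG.add (cj_entire hG)).div_const 2

lemma fI_entire {G : ℂ → ℂ} (hG : Differentiable ℂ G) : Differentiable ℂ (fI G) := (hG.sub (cj_entire hG)).div_const _

lemma fR_eqOn {f g : ℂ → ℂ} {e : ℝ} (h : ∀ s : ℂ, e < s.re → g s = f s) : ∀ s : ℂ, e < s.re → fR g s = fR f s := by
  intro s hs
  unfold fR
  rw [h s hs, cj_congr h s hs]

lemma fI_eqOn {f g : ℂ → ℂ} {e : ℝ} (h : ∀ s : ℂ, e < s.re → g s = f s) : ∀ s : ℂ, e < s.re → fI g s = fI f s := by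
  intro s hs
  unfold fI
  rw [h s hs, cj_congr h s hs]

/-- the algebra of the splitting -/
lemma split_FE {G : ℂ → ℂ} (hFE : ∀ s : ℂ, G (2 * m - s) = cj G s) :
    (∀ s, fR G (2 * m - s) = (-1) ^ 0 * fR G s) ∧ ∀ s, fI G (2 * m - s) = (-1) ^ 1 * fI G s := by
  constructor
  · intro s
    unfold fR
    rw [hFE, cj_FE hFE]
    ring
  · intro s
    unfold fI
    rw [hFE, cj_FE hFE]
    ring

lemma join_FE {G H : ℂ → ℂ} (h1 : ∀ s, G (2 * m - s) = (-1) ^ 0 * G s) (h2 : ∀ s, H (2 * m - s) = (-1) ^ 1 * H s) (s : ℂ) :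
    fR G (2 * m - s) + I * fR H (2 * m - s) = (starRingEnd ℂ) (fR G ((starRingEnd ℂ) s) + I * fR H ((starRingEnd ℂ) s)) := by
  rw [fR_FE h1, fR_FE h2, fR_conj, fR_conj, map_add, map_mul, Complex.conj_conj, Complex.conj_conj, Complex.conj_I]
  ring

theorem cent_iff : CEnt Λ m h ↔ Ent (fR Λ) m h 0 ∧ Ent (fI Λ) m h 1 := by
  constructor
  · rintro ⟨G, hG, hGΛ, hFE⟩
    obtain ⟨h1, h2⟩ := split_FE (m := m) (G := G) hFE
    exact ⟨⟨fR G, fR_entire hG, fR_eqOn hGΛ, h1⟩, ⟨fI G, fI_entire hG, fI_eqOn hGΛ, h2⟩⟩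
  · rintro ⟨⟨G, hG, hGΛ, h1⟩, ⟨H, hH, hHΛ, h2⟩⟩
    refine ⟨fun s => fR G s + I * fR H s, (fR_entire hG).add ((fR_entire hH).const_mul I), fun s hs => ?_, fun s => ?_⟩
    · simp only
      rw [fR_eqOn hGΛ s hs, fR_eqOn hHΛ s hs, fR_of_cj (cj_fR Λ), fR_of_cj (cj_fI Λ), ← fR_add_fI]
    · exact join_FE h1 h2 s

theorem cment_iff : CMEnt Λ m h ↔ MEnt (fR Λ) m h 0 ∧ MEnt (fI Λ) m h 1 := by
  constructor
  · rintro ⟨G, hG, hGΛ, hFE⟩
    obtain ⟨h1, h2⟩ := split_FE (m := m) (G := G) hFE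
    exact ⟨⟨fR G, fR_meromorphic hG, fR_eqOn hGΛ, h1⟩, ⟨fI G, fI_meromorphic hG, fI_eqOn hGΛ, h2⟩⟩
  · rintro ⟨⟨G, hG, hGΛ, h1⟩, ⟨H, hH, hHΛ, h2⟩⟩
    refine ⟨fun s => fR G s + I * fR H s, fun s hs => ?_, fun s hs => ?_, fun s => ?_⟩
    · exact (fR_meromorphic hG s hs).add ((MeromorphicAt.const I s).mul (fR_meromorphic hH s hs))
    · simp only
      rw [fR_eqOn hGΛ s hs, fR_eqOn hHΛ s hs, fR_of_cj (cj_fR Λ), fR_of_cj (cj_fI Λ), ← fR_add_fI]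
    · exact join_FE h1 h2 s

/-! ### Real-variable derivatives -/

lemma iter_analytic {F : ℂ → ℂ} {e : ℝ} (hF : DifferentiableOn ℂ F (HP e)) (n : ℕ) :
    AnalyticOnNhd ℂ (iteratedDeriv n F) (HP e) := by
  induction n with
  | zero =>
    rw [iteratedDeriv_zero]
    exact hF.analyticOnNhd (HP_open e)
  | succ n ih =>
    rw [iteratedDeriv_succ]
    exact ih.deriv

lemma real_iter {F : ℂ → ℂ} {e : ℝ} (hF : DifferentiableOn ℂ F (HP e)) (n : ℕ) :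
    ∀ x : ℝ, e < x → iteratedDeriv n (fun x : ℝ => (F x).re) x = (iteratedDeriv n F x).re := by
  induction n with
  | zero =>
    intro x _
    rw [iteratedDeriv_zero, iteratedDeriv_zero]
  | succ n ih =>
    intro x hx
    rw [iteratedDeriv_succ, iteratedDeriv_succ]
    have h1 : iteratedDeriv n (fun x : ℝ => (F x).re) =ᶠ[𝓝 x] fun y : ℝ => (iteratedDeriv n F (y : ℂ)).re := by
      filter_upwards [lt_mem_nhds hx] with y hy
      exact ih y hy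
    rw [h1.deriv_eq]
    have h2 : AnalyticAt ℂ (iteratedDeriv n F) (x : ℂ) := iter_analytic hF n _ (by
      show e < (x : ℂ).re
      simpa using hx)
    exact (h2.differentiableAt.hasDerivAt.real_of_complex).deriv

lemma sq_real {u : ℝ} (hu : 0 < u) : sq (u : ℂ) = ((Real.sqrt u : ℝ) : ℂ) := by
  have h3 : (u : ℂ) = ((Real.sqrt u : ℝ) : ℂ) ^ 2 := by
    exact_mod_cast (Real.sq_sqrt hu.le).symm
  have h4 : sq (((Real.sqrt u : ℝ) : ℂ) ^ 2) = ((Real.sqrt u : ℝ) : ℂ) :=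
    sq_of_sq (by rw [Complex.ofReal_re]; exact Real.sqrt_pos.2 hu)
  rw [← h3] at h4
  exact h4

lemma fR_real (f : ℂ → ℂ) (x : ℝ) : fR f x = ((f x).re : ℂ) := by
  unfold fR cj
  rw [Complex.conj_ofReal, Complex.re_eq_add_conj]

lemma fI_real (f : ℂ → ℂ) (x : ℝ) : fI f x = ((f x).im : ℂ) := by
  unfold fI cj
  rw [Complex.conj_ofReal, Complex.im_eq_sub_conj]

lemma BB_real {Λ : ℂ → ℂ} (hh : 0 ≤ h) (hΛ : DifferentiableOn ℂ Λ (HP (m + h))) {δ : ℕ} {u₀ : ℝ} (hu : h ^ 2 < u₀)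
    {φ : ℝ → ℝ} (hφ : ∀ u : ℝ, h ^ 2 < u → Ph Λ m δ u = φ u) (n : ℕ) :
    BB Λ m δ u₀ n = iteratedDeriv n φ u₀ / n.factorial := by
  have h1 := real_iter (Ph_diff hh hΛ δ) n u₀ hu
  have h2 : (fun x : ℝ => (Ph Λ m δ x).re) =ᶠ[𝓝 u₀] φ := by
    filter_upwards [lt_mem_nhds hu] with y hy
    rw [hφ y hy, Complex.ofReal_re]
  rw [h2.iteratedDeriv_eq] at h1
  unfold BB tc
  have : ((n.factorial : ℂ))⁻¹ = (((n.factorial : ℝ))⁻¹ : ℝ) := by push_cast; rfl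
  rw [this, Complex.re_ofReal_mul, ← h1, inv_mul_eq_div]

lemma BB_fR {Λ : ℂ → ℂ} (hh : 0 ≤ h) (hΛ : DifferentiableOn ℂ Λ (HP (m + h))) {u₀ : ℝ} (hu : h ^ 2 < u₀) (n : ℕ) :
    BB (fR Λ) m 0 u₀ n = iteratedDeriv n (fun u : ℝ => (Λ ((m + Real.sqrt u : ℝ) : ℂ)).re) u₀ / n.factorial := by
  refine BB_real hh (fR_diffOn hΛ) hu (fun u hu' => ?_) n
  have hu0 : 0 < u := lt_of_le_of_lt (sq_nonneg h) hu'
  unfold Ph
  rw [pow_zero, div_one, sq_real hu0, ← Complex.ofReal_add, fR_real]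

lemma BB_fI {Λ : ℂ → ℂ} (hh : 0 ≤ h) (hΛ : DifferentiableOn ℂ Λ (HP (m + h))) {u₀ : ℝ} (hu : h ^ 2 < u₀) (n : ℕ) :
    BB (fI Λ) m 1 u₀ n =
      iteratedDeriv n (fun u : ℝ => (Λ ((m + Real.sqrt u : ℝ) : ℂ)).im / Real.sqrt u) u₀ / n.factorial := by
  refine BB_real hh (fI_diffOn hΛ) hu (fun u hu' => ?_) n
  have hu0 : 0 < u := lt_of_le_of_lt (sq_nonneg h) hu'
  unfold Ph
  rw [pow_one, sq_real hu0, ← Complex.ofReal_add, fI_real]
  push_cast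
  rfl

/-- **Complex coefficients, functional equation** -/
theorem fe_core (hh : 0 ≤ h) (hΛ : DifferentiableOn ℂ Λ (HP (m + h))) {u₀ : ℝ} (hu : h ^ 2 < u₀) :
    (CEnt Λ m h ↔ (SLow (BB (fR Λ) m 0 u₀) ∨ SUpp (BB (fR Λ) m 0 u₀)) ∧
      (SLow (BB (fI Λ) m 1 u₀) ∨ SUpp (BB (fI Λ) m 1 u₀))) ∧
    (CMEnt Λ m h ↔ SMerLow (BB (fR Λ) m 0 u₀) ∧ SMerLow (BB (fI Λ) m 1 u₀)) := by
  obtain ⟨h1, h2, -⟩ := ent_core hh (fR_diffOn hΛ) (fun s _ => fR_conj Λ s) (δ := 0) (by norm_num) hu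
  obtain ⟨h3, h4, -⟩ := ent_core hh (fI_diffOn hΛ) (fun s _ => fI_conj Λ s) (δ := 1) (by norm_num) hu
  constructor
  · rw [cent_iff]
    constructor
    · rintro ⟨h, h'⟩
      exact ⟨Or.inl (h1.1 h), Or.inl (h3.1 h')⟩
    · rintro ⟨h, h'⟩
      exact ⟨h.elim h1.2 h2.2, h'.elim h3.2 h4.2⟩
  · rw [cment_iff]
    exact and_congr
      ⟨ment_low hh (fR_diffOn hΛ) (fun s _ => fR_conj Λ s) (by norm_num) hu, low_ment hh (fR_diffOn hΛ) (fun s _ => fR_conj Λ s) hu⟩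
      ⟨ment_low hh (fI_diffOn hΛ) (fun s _ => fI_conj Λ s) (by norm_num) hu, low_ment hh (fI_diffOn hΛ) (fun s _ => fI_conj Λ s) hu⟩

end

end Pool.Agent.U156.OS
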