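import Pool.Agent.U156.OS.Half

/-!
# From half-planes to the plane; both signs
-/

set_option autoImplicit false

open Complex Filter Topology Finset

namespace Pool.Agent.U156.OS

section
variable {e : ℝ}

/-- gluing of the extensions to half-planes -/
lemma glue_all {f : ℂ → ℂ} (hf : DifferentiableOn ℂ f (HP e)) {c : ℕ → ℝ} (hce : ∀ k, c k < e)
    (hc : ∀ x : ℝ, ∃ k, c k < x) {g : ℕ → ℂ → ℂ} (hg : ∀ k, MeromorphicOn (g k) (HP (c k)))
    (hgf : ∀ k, ∀ s : ℂ, e < s.re → g k s = f s) :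
    ∃ G : ℂ → ℂ, (∀ s : ℂ, e < s.re → G s = f s) ∧
      ∀ k, ∀ s ∈ HP (c k), MeromorphicNFAt G s ∧ G =ᶠ[𝓝[≠] s] g k := by
  have haE : ((e + 1 : ℝ) : ℂ) ∈ HP e := show e < ((e + 1 : ℝ) : ℂ).re by simp
  have hnear : ∀ s ∈ HP e, ∀ k, g k =ᶠ[𝓝 s] f := by
    intro s hs k
    filter_upwards [(HP_open e).mem_nhds hs] with z hz
    exact hgf k z hz
  obtain ⟨G, hG⟩ := mer_glue (D := fun k => HP (c k)) (a := ((e + 1 : ℝ) : ℂ)) (g := g) (F := f)
    (fun k => HP_open _) (fun k => HP_pre _) (fun k => lt_trans (hce k) haE)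
    (Or.inr (Or.inr fun i j => by
      rcases le_total (c i) (c j) with h1 | h1
      · exact Or.inr fun s hs => lt_of_le_of_lt h1 hs
      · exact Or.inl fun s hs => lt_of_le_of_lt h1 hs))
    hg (fun k => (hnear _ haE k).filter_mono nhdsWithin_le_nhds)
  refine ⟨G, fun s hs => ?_, hG⟩
  obtain ⟨k, hk⟩ := hc s.re
  obtain ⟨h1, h2⟩ := hG k s hk
  have h3 : G =ᶠ[𝓝[≠] s] f := h2.trans ((hnear s hs k).filter_mono nhdsWithin_le_nhds)
  have h4 : AnalyticAt ℂ f s := hf.analyticOnNhd (HP_open e) s hs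
  exact ((MeromorphicNFAt.eventuallyEq_nhdsNE_iff_eventuallyEq_nhds h1 h4.meromorphicNFAt).1 h3).eq_of_nhds

theorem mer_all {f : ℂ → ℂ} (hf : DifferentiableOn ℂ f (HP e)) {c : ℕ → ℝ} (hce : ∀ k, c k < e)
    (hc : ∀ x : ℝ, ∃ k, c k < x) :
    (∃ g : ℂ → ℂ, MeromorphicOn g Set.univ ∧ ∀ s : ℂ, e < s.re → g s = f s) ↔ ∀ k, MerH f e (c k) := by
  constructor
  · rintro ⟨g, hg, h⟩ k
    exact ⟨g, fun s _ => hg s (Set.mem_univ _), h⟩
  · intro h
    choose g hg hgf using h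
    obtain ⟨G, h1, h2⟩ := glue_all hf hce hc hg hgf
    refine ⟨G, fun s _ => ?_, h1⟩
    obtain ⟨k, hk⟩ := hc s.re
    exact (h2 k s hk).1.meromorphicAt

theorem hol_all {f : ℂ → ℂ} (hf : DifferentiableOn ℂ f (HP e)) {c : ℕ → ℝ} (hce : ∀ k, c k < e)
    (hc : ∀ x : ℝ, ∃ k, c k < x) :
    (∃ g : ℂ → ℂ, Differentiable ℂ g ∧ ∀ s : ℂ, e < s.re → g s = f s) ↔ ∀ k, HolH f e (c k) := by
  constructor
  · rintro ⟨g, hg, h⟩ k
    exact ⟨g, hg.differentiableOn, h⟩
  · intro h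
    choose g hg hgf using h
    have han : ∀ k, ∀ s ∈ HP (c k), AnalyticAt ℂ (g k) s := fun k => (hg k).analyticOnNhd (HP_open _)
    obtain ⟨G, h1, h2⟩ := glue_all hf hce hc (fun k s hs => (han k s hs).meromorphicAt) hgf
    refine ⟨G, fun s => ?_, h1⟩
    obtain ⟨k, hk⟩ := hc s.re
    obtain ⟨h3, h4⟩ := h2 k s hk
    have h5 := (MeromorphicNFAt.eventuallyEq_nhdsNE_iff_eventuallyEq_nhds h3 (han k s hk).meromorphicNFAt).1 h4
    exact h5.differentiableAt_iff.2 (han k s hk).differentiableAt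

/-! ### Exponentially large values of both signs -/

lemma not_upp {A : ℕ → ℝ} (h : ¬ Upp A) : ∃ δ : ℝ, 0 < δ ∧ ∃ᶠ n : ℕ in atTop, Real.exp (δ * n) < A n := by
  unfold Upp at h
  push Not at h
  obtain ⟨ε, hε, h⟩ := h
  refine ⟨ε, hε, ?_⟩
  rw [frequently_atTop]
  intro N
  -- a constant which works for the first `N` terms
  obtain ⟨C, hC1, hC⟩ : ∃ C : ℝ, 1 ≤ C ∧ ∀ n < N, A n ≤ C * Real.exp (ε * n) := by
    refine ⟨1 + ∑ n ∈ range N, |A n|, ?_, fun n hn => ?_⟩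
    · have : 0 ≤ ∑ n ∈ range N, |A n| := Finset.sum_nonneg fun _ _ => abs_nonneg _
      linarith
    · have h1 : |A n| ≤ ∑ n ∈ range N, |A n| :=
        Finset.single_le_sum (f := fun n => |A n|) (fun _ _ => abs_nonneg _) (Finset.mem_range.2 hn)
      have h2 : (1 : ℝ) ≤ Real.exp (ε * n) := Real.one_le_exp (by positivity)
      have h3 : 0 ≤ |A n| := abs_nonneg _
      calc A n ≤ |A n| := le_abs_self _
        _ ≤ (1 + ∑ n ∈ range N, |A n|) * 1 := by linarith
        _ ≤ _ := mul_le_mul_of_nonneg_left h2 (by linarith)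
  obtain ⟨n, hn⟩ := h C
  refine ⟨n, ?_, ?_⟩
  · by_contra hlt
    exact absurd (hC n (not_le.1 hlt)) (not_le.2 hn)
  · have h2 : (0 : ℝ) < Real.exp (ε * n) := Real.exp_pos _
    nlinarith

lemma not_low {A : ℕ → ℝ} (h : ¬ Low A) : ∃ δ : ℝ, 0 < δ ∧ ∃ᶠ n : ℕ in atTop, A n < -Real.exp (δ * n) := by
  have h1 : ¬ Upp fun n => -A n := by
    intro h2
    apply h
    intro ε hε
    obtain ⟨C, hC⟩ := h2 ε hε
    exact ⟨C, fun n => by have := hC n; linarith⟩
  obtain ⟨δ, hδ, h2⟩ := not_upp h1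
  exact ⟨δ, hδ, h2.mono fun n hn => by linarith⟩

end

/-! ### Dirichlet series -/

/-- the Taylor coefficients of `∑ x_i exp (- l_i s)` -/
lemma tc_dir {ι : Type*} {x l : ι → ℝ} (hl : ∀ i, 0 ≤ l i) {f : ℂ → ℂ} {e a : ℝ}
    (hs : ∀ σ : ℝ, e < σ → Summable fun i => |x i| * Real.exp (-(σ * l i)))
    (hf : ∀ s : ℂ, e < s.re → HasSum (fun i => (x i : ℂ) * Complex.exp (-(s * l i))) (f s))
    (hd : DifferentiableOn ℂ f (HP e)) (hea : e < a) (k : ℕ) :
    HasSum (fun i => x i * Real.exp (-(a * l i)) * ((-(l i)) ^ k / k.factorial)) (tc f a k).re := by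
  -- the double family at `w`
  have hfam : ∀ w : ℂ, ‖w‖ < a - e → Summable fun q : ι × ℕ =>
      ((x q.1 : ℂ) * Complex.exp (-(a * l q.1))) * ((-(w * l q.1)) ^ q.2 / (q.2.factorial : ℂ)) := by
    intro w hw
    refine Summable.of_norm ?_
    rw [summable_prod_of_nonneg (fun q => norm_nonneg _)]
    have hrow : ∀ i, HasSum (fun k : ℕ => ‖((x i : ℂ) * Complex.exp (-(a * l i))) * ((-(w * l i)) ^ k / (k.factorial : ℂ))‖)
        (|x i| * Real.exp (-((a - ‖w‖) * l i))) := by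
      intro i
      have h1 : HasSum (fun k : ℕ => (‖w‖ * l i) ^ k / (k.factorial : ℝ)) (Real.exp (‖w‖ * l i)) := by
        rw [Real.exp_eq_exp_ℝ]
        exact NormedSpace.expSeries_div_hasSum_exp (𝔸 := ℝ) (‖w‖ * l i)
      have h2 := h1.mul_left (|x i| * Real.exp (-(a * l i)))
      have e1 : |x i| * Real.exp (-(a * l i)) * Real.exp (‖w‖ * l i) = |x i| * Real.exp (-((a - ‖w‖) * l i)) := by
        rw [mul_assoc, ← Real.exp_add]
        congr 2
        ring
      rw [e1] at h2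
      refine h2.congr_fun ?_ |> fun h => h
      intro k
      have e2 : ((x i : ℂ) * Complex.exp (-(a * l i))) = ((x i * Real.exp (-(a * l i)) : ℝ) : ℂ) := by
        push_cast
        rfl
      rw [e2, norm_mul, Complex.norm_real, Real.norm_eq_abs, abs_mul, abs_of_pos (Real.exp_pos _), norm_div, norm_pow,
        norm_neg, norm_mul, Complex.norm_real, Real.norm_eq_abs, abs_of_nonneg (hl i), Complex.norm_natCast]
    refine ⟨fun i => (hrow i).summable, ?_⟩
    refine (hs (a - ‖w‖) (by linarith)).congr fun i => ?_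
    rw [(hrow i).tsum_eq]
  have hexp : ∀ (w : ℂ) (i : ι), HasSum (fun k : ℕ => ((x i : ℂ) * Complex.exp (-(a * l i))) *
      ((-(w * l i)) ^ k / (k.factorial : ℂ))) ((x i : ℂ) * Complex.exp (-((a + w) * l i))) := by
    intro w i
    have h1 : HasSum (fun k : ℕ => (-(w * l i)) ^ k / (k.factorial : ℂ)) (Complex.exp (-(w * l i))) := by
      rw [Complex.exp_eq_exp_ℂ]
      exact NormedSpace.expSeries_div_hasSum_exp (𝔸 := ℂ) (-(w * l i))
    have h2 := h1.mul_left ((x i : ℂ) * Complex.exp (-(a * l i)))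
    have e1 : (x i : ℂ) * Complex.exp (-(a * l i)) * Complex.exp (-(w * l i)) =
        (x i : ℂ) * Complex.exp (-((a + w) * l i)) := by
      rw [mul_assoc, ← Complex.exp_add]
      congr 2
      ring
    rwa [e1] at h2
  -- the columns
  obtain ⟨w0, hw00, hw0⟩ : ∃ w0 : ℝ, 0 < w0 ∧ w0 < a - e := ⟨(a - e) / 2, by linarith, by linarith⟩
  have hcol : ∀ k : ℕ, Summable fun i => ((x i : ℂ) * Complex.exp (-(a * l i))) * ((-(l i : ℂ)) ^ k / (k.factorial : ℂ)) := by
    intro k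
    have h1 := (hfam (w0 : ℂ) (by rwa [Complex.norm_real, Real.norm_eq_abs, abs_of_pos hw00])).prod_symm.prod_factor k
    have hne : (w0 : ℂ) ^ k ≠ 0 := pow_ne_zero _ (by exact_mod_cast hw00.ne')
    refine (h1.mul_left ((w0 : ℂ) ^ k)⁻¹).congr fun i => ?_
    simp only [Prod.swap_prod_mk]
    have e1 : (-((w0 : ℂ) * l i)) ^ k = (w0 : ℂ) ^ k * (-(l i : ℂ)) ^ k := by
      rw [← mul_pow]
      congr 1
      ring
    rw [e1]
    field_simp
  have hev : ∀ᶠ w in 𝓝 (0 : ℂ), ‖w‖ < a - e := by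
    filter_upwards [Metric.ball_mem_nhds (0 : ℂ) (sub_pos.2 hea)] with z hz
    simpa using hz
  have hkey : tc f a = fun k => ∑' i, ((x i : ℂ) * Complex.exp (-(a * l i))) * ((-(l i : ℂ)) ^ k / (k.factorial : ℂ)) := by
    refine coeff_unique (H := fun w => f ((a : ℂ) + w)) ?_ ?_
    · filter_upwards [hev] with w hw
      exact tc_hasSum (hd.mono ball_sub) hw
    · filter_upwards [hev] with w hw
      have h1 := hfam w hw
      have h2 : ∑' q : ι × ℕ, ((x q.1 : ℂ) * Complex.exp (-(a * l q.1))) * ((-(w * l q.1)) ^ q.2 / (q.2.factorial : ℂ)) =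
          f ((a : ℂ) + w) := by
        have h3 := h1.hasSum.prod_fiberwise (fun i => hexp w i)
        have h4 := hf ((a : ℂ) + w) (ball_sub (e := e) (a := a) (by simpa [Metric.mem_ball, dist_eq_norm] using hw))
        exact h3.unique h4
      have h5 := h1.prod_symm.hasSum
      have h6 : ∑' q : ℕ × ι, ((x q.swap.1 : ℂ) * Complex.exp (-(a * l q.swap.1))) *
          ((-(w * l q.swap.1)) ^ q.swap.2 / (q.swap.2.factorial : ℂ)) = f ((a : ℂ) + w) := by
        rw [← h2]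
        exact (Equiv.prodComm ℕ ι).tsum_eq (fun q : ι × ℕ => ((x q.1 : ℂ) * Complex.exp (-(a * l q.1))) *
          ((-(w * l q.1)) ^ q.2 / (q.2.factorial : ℂ)))
      rw [h6] at h5
      refine h5.prod_fiberwise fun k => ?_
      have h7 := (hcol k).hasSum.mul_right (w ^ k)
      refine h7.congr_fun ?_ |> fun h => h
      intro i
      simp only [Prod.swap_prod_mk]
      have e1 : (-(w * l i)) ^ k = w ^ k * (-(l i : ℂ)) ^ k := by
        rw [← mul_pow]
        congr 1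
        ring
      rw [e1]
      ring
  have h8 := Complex.hasSum_re (hcol k).hasSum
  rw [congrFun hkey k]
  refine h8.congr_fun ?_ |> fun h => h
  intro i
  have e3 : ((x i : ℂ) * Complex.exp (-(a * l i))) * ((-(l i : ℂ)) ^ k / (k.factorial : ℂ)) =
      ((x i * Real.exp (-(a * l i)) * ((-(l i)) ^ k / k.factorial) : ℝ) : ℂ) := by
    push_cast
    rfl
  rw [e3, Complex.ofReal_re]

end Pool.Agent.U156.OS
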