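import Pool.Agent.U156.OS.MerBoth

/-!
# Complex coefficients: real and imaginary parts
-/

set_option autoImplicit false

open Complex Filter Topology Finset

namespace Pool.Agent.U156.OS

/-- `conj (f (conj s))` -/
noncomputable def cj (f : ℂ → ℂ) (s : ℂ) : ℂ := (starRingEnd ℂ) (f ((starRingEnd ℂ) s))

/-- the real part (with respect to the real structure) -/
noncomputable def fR (f : ℂ → ℂ) (s : ℂ) : ℂ := (f s + cj f s) / 2

/-- the imaginary part -/
noncomputable def fI (f : ℂ → ℂ) (s : ℂ) : ℂ := (f s - cj f s) / (2 * I)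

lemma cj_cj (f : ℂ → ℂ) : cj (cj f) = f := by
  funext s
  unfold cj
  rw [Complex.conj_conj, Complex.conj_conj]

lemma fR_add_fI (f : ℂ → ℂ) (s : ℂ) : f s = fR f s + I * fI f s := by
  unfold fR fI
  have : (2 * I : ℂ) ≠ 0 := by simp
  field_simp
  ring

lemma cj_diffAt {f : ℂ → ℂ} {s : ℂ} (h : DifferentiableAt ℂ f ((starRingEnd ℂ) s)) : DifferentiableAt ℂ (cj f) s := by
  have := h.conj_conj
  rwa [Complex.conj_conj] at this

lemma cj_anAt {f : ℂ → ℂ} {s : ℂ} (h : AnalyticAt ℂ f ((starRingEnd ℂ) s)) : AnalyticAt ℂ (cj f) s := by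
  rw [Complex.analyticAt_iff_eventually_differentiableAt] at h ⊢
  have h1 : Tendsto (starRingEnd ℂ) (𝓝 s) (𝓝 ((starRingEnd ℂ) s)) := Complex.continuous_conj.tendsto s
  filter_upwards [h1.eventually h] with z hz
  exact cj_diffAt hz

lemma cj_merAt {f : ℂ → ℂ} {s : ℂ} (h : MeromorphicAt f ((starRingEnd ℂ) s)) : MeromorphicAt (cj f) s := by
  obtain ⟨n, hn⟩ := h
  refine ⟨n, ?_⟩
  refine (cj_anAt hn).congr (Eventually.of_forall fun z => ?_)
  unfold cj
  simp only [smul_eq_mul, map_mul, map_pow, map_sub, Complex.conj_conj]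

lemma conj_HP {c : ℝ} {s : ℂ} (h : s ∈ HP c) : (starRingEnd ℂ) s ∈ HP c := by
  show c < ((starRingEnd ℂ) s).re
  rw [Complex.conj_re]
  exact h

lemma cj_diffOn {f : ℂ → ℂ} {c : ℝ} (h : DifferentiableOn ℂ f (HP c)) : DifferentiableOn ℂ (cj f) (HP c) :=
  fun _ hs => (cj_diffAt (h.differentiableAt ((HP_open c).mem_nhds (conj_HP hs)))).differentiableWithinAt

lemma cj_merOn {f : ℂ → ℂ} {c : ℝ} (h : MeromorphicOn f (HP c)) : MeromorphicOn (cj f) (HP c) :=
  fun _ hs => cj_merAt (h _ (conj_HP hs))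

lemma cj_congr {f g : ℂ → ℂ} {e : ℝ} (h : ∀ s : ℂ, e < s.re → g s = f s) : ∀ s : ℂ, e < s.re → cj g s = cj f s := by
  intro s hs
  unfold cj
  rw [h _ (by simpa using hs)]

lemma fR_diffOn {f : ℂ → ℂ} {c : ℝ} (h : DifferentiableOn ℂ f (HP c)) : DifferentiableOn ℂ (fR f) (HP c) :=
  (h.add (cj_diffOn h)).div_const 2

lemma fI_diffOn {f : ℂ → ℂ} {c : ℝ} (h : DifferentiableOn ℂ f (HP c)) : DifferentiableOn ℂ (fI f) (HP c) :=
  (h.sub (cj_diffOn h)).div_const _

lemma fR_conj (f : ℂ → ℂ) (s : ℂ) : fR f ((starRingEnd ℂ) s) = (starRingEnd ℂ) (fR f s) := by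
  unfold fR cj
  rw [map_div₀, map_add, Complex.conj_conj, Complex.conj_conj, Complex.conj_ofNat, add_comm]

lemma fI_conj (f : ℂ → ℂ) (s : ℂ) : fI f ((starRingEnd ℂ) s) = (starRingEnd ℂ) (fI f s) := by
  unfold fI cj
  rw [map_div₀, map_sub, map_mul, Complex.conj_conj, Complex.conj_conj, Complex.conj_ofNat, Complex.conj_I]
  have : (2 * I : ℂ) ≠ 0 := by simp
  have h2 : (2 * -I : ℂ) ≠ 0 := by simp
  field_simp
  ring

/-! ### Splitting of the extension -/

lemma hol_split {f : ℂ → ℂ} {e c : ℝ} : HolH f e c ↔ HolH (fR f) e c ∧ HolH (fI f) e c := by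
  constructor
  · rintro ⟨g, hg, h⟩
    have h' := cj_congr h
    refine ⟨⟨fR g, fR_diffOn hg, fun s hs => ?_⟩, ⟨fI g, fI_diffOn hg, fun s hs => ?_⟩⟩
    · unfold fR
      rw [h s hs, h' s hs]
    · unfold fI
      rw [h s hs, h' s hs]
  · rintro ⟨⟨g, hg, h⟩, ⟨g', hg', h'⟩⟩
    refine ⟨fun s => g s + I * g' s, hg.add ((differentiableOn_const _).mul hg'), fun s hs => ?_⟩
    simp only
    rw [h s hs, h' s hs, ← fR_add_fI]

lemma mer_split {f : ℂ → ℂ} {e c : ℝ} : MerH f e c ↔ MerH (fR f) e c ∧ MerH (fI f) e c := by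
  constructor
  · rintro ⟨g, hg, h⟩
    have h' := cj_congr h
    refine ⟨⟨fR g, fun s hs => ?_, fun s hs => ?_⟩, ⟨fI g, fun s hs => ?_, fun s hs => ?_⟩⟩
    · exact ((hg s hs).add (cj_merOn hg s hs)).div (MeromorphicAt.const 2 s)
    · unfold fR
      rw [h s hs, h' s hs]
    · exact ((hg s hs).sub (cj_merOn hg s hs)).div (MeromorphicAt.const (2 * I) s)
    · unfold fI
      rw [h s hs, h' s hs]
  · rintro ⟨⟨g, hg, h⟩, ⟨g', hg', h'⟩⟩
    refine ⟨fun s => g s + I * g' s, fun s hs => (hg s hs).add ((MeromorphicAt.const I s).mul (hg' s hs)), fun s hs => ?_⟩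
    simp only
    rw [h s hs, h' s hs, ← fR_add_fI]

/-! ### The Taylor coefficients -/

section
variable {f : ℂ → ℂ} {e a c : ℝ}

lemma cj_taylor (hf : DifferentiableOn ℂ f (HP e)) {w : ℂ} (hw : ‖w‖ < a - e) :
    HasSum (fun k => (starRingEnd ℂ) (tc f a k) * w ^ k) (cj f (a + w)) := by
  have h1 := tc_hasSum (hf.mono (ball_sub (e := e) (a := a))) (w := (starRingEnd ℂ) w) (by rwa [RCLike.norm_conj])
  have h2 := Complex.hasSum_conj'.2 h1
  unfold cj
  rw [map_add, Complex.conj_ofReal]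
  refine h2.congr_fun ?_ |> fun h => h
  intro k
  rw [map_mul, map_pow, Complex.conj_conj]

lemma tc_fR (hf : DifferentiableOn ℂ f (HP e)) (hea : e < a) (k : ℕ) : tc (fR f) a k = ((tc f a k).re : ℂ) := by
  have h1 : tc (fR f) a = fun k => ((tc f a k).re : ℂ) := by
    refine coeff_unique (H := fun w => fR f ((a : ℂ) + w)) ?_ ?_
    · filter_upwards [Metric.ball_mem_nhds (0 : ℂ) (sub_pos.2 hea)] with w hw
      exact tc_hasSum ((fR_diffOn hf).mono (ball_sub (e := e) (a := a))) (by simpa using hw)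
    · filter_upwards [Metric.ball_mem_nhds (0 : ℂ) (sub_pos.2 hea)] with w hw
      have hw' : ‖w‖ < a - e := by simpa using hw
      have h2 := ((tc_hasSum (hf.mono (ball_sub (e := e) (a := a))) hw').add (cj_taylor hf hw')).div_const 2
      refine h2.congr_fun ?_ |> fun h => h
      intro k
      rw [Complex.re_eq_add_conj]
      ring
  exact congrFun h1 k

lemma tc_fI (hf : DifferentiableOn ℂ f (HP e)) (hea : e < a) (k : ℕ) : tc (fI f) a k = ((tc f a k).im : ℂ) := by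
  have h1 : tc (fI f) a = fun k => ((tc f a k).im : ℂ) := by
    refine coeff_unique (H := fun w => fI f ((a : ℂ) + w)) ?_ ?_
    · filter_upwards [Metric.ball_mem_nhds (0 : ℂ) (sub_pos.2 hea)] with w hw
      exact tc_hasSum ((fI_diffOn hf).mono (ball_sub (e := e) (a := a))) (by simpa using hw)
    · filter_upwards [Metric.ball_mem_nhds (0 : ℂ) (sub_pos.2 hea)] with w hw
      have hw' : ‖w‖ < a - e := by simpa using hw
      have h2 := ((tc_hasSum (hf.mono (ball_sub (e := e) (a := a))) hw').sub (cj_taylor hf hw')).div_const (2 * I)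
      refine h2.congr_fun ?_ |> fun h => h
      intro k
      rw [Complex.im_eq_sub_conj]
      ring
  exact congrFun h1 k

/-- the real parts of the numbers `A_n` -/
noncomputable def Are (f : ℂ → ℂ) (a c : ℝ) (n : ℕ) : ℝ := compR (fun k => (tc f a k).re) (2 * (a - c)) n

/-- the imaginary parts -/
noncomputable def Aim (f : ℂ → ℂ) (a c : ℝ) (n : ℕ) : ℝ := compR (fun k => (tc f a k).im) (2 * (a - c)) n

lemma AR_fR (hf : DifferentiableOn ℂ f (HP e)) (hea : e < a) : AR (fR f) a c = Are f a c := by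
  funext n
  unfold AR Are
  congr 1
  funext k
  rw [tc_fR hf hea, Complex.ofReal_re]

lemma AR_fI (hf : DifferentiableOn ℂ f (HP e)) (hea : e < a) : AR (fI f) a c = Aim f a c := by
  funext n
  unfold AR Aim
  congr 1
  funext k
  rw [tc_fI hf hea, Complex.ofReal_re]

theorem hol_cplx (hf : DifferentiableOn ℂ f (HP e)) (hce : c < e) (hea : e < a) :
    (HolH f e c ↔ (Low (Are f a c) ∨ Upp (Are f a c)) ∧ (Low (Aim f a c) ∨ Upp (Aim f a c))) ∧
    (HolH f e c ↔ Bdd (Are f a c) ∧ Bdd (Aim f a c)) := by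
  obtain ⟨h1, h2, h3⟩ := hol_half (fR_diffOn hf) hce hea fun s _ => fR_conj f s
  obtain ⟨h4, h5, h6⟩ := hol_half (fI_diffOn hf) hce hea fun s _ => fI_conj f s
  rw [AR_fR hf hea] at h1 h2 h3
  rw [AR_fI hf hea] at h4 h5 h6
  constructor
  · rw [hol_split]
    constructor
    · rintro ⟨h, h'⟩
      exact ⟨Or.inl (h1.1 h), Or.inl (h4.1 h')⟩
    · rintro ⟨h, h'⟩
      exact ⟨h.elim h1.2 h2.2, h'.elim h4.2 h5.2⟩
  · rw [hol_split, h3, h6]

theorem mer_cplx (hf : DifferentiableOn ℂ f (HP e)) (hce : c < e) (hea : e < a) :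
    (MerH f e c ↔ MerLow (Are f a c) ∧ MerLow (Aim f a c)) ∧ (MerH f e c ↔ MerBdd (Are f a c) ∧ MerBdd (Aim f a c)) := by
  obtain ⟨h1, h2⟩ := mer_half (fR_diffOn hf) hce hea fun s _ => fR_conj f s
  obtain ⟨h3, h4⟩ := mer_half (fI_diffOn hf) hce hea fun s _ => fI_conj f s
  rw [AR_fR hf hea] at h1 h2
  rw [AR_fI hf hea] at h3 h4
  constructor
  · rw [mer_split, h1, h3]
  · rw [mer_split, h2, h4]

end

end Pool.Agent.U156.OS
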