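import Pool.Agent.U156.OS.Pring2

/-!
# Criteria on the unit disc: holomorphic continuation
-/

set_option autoImplicit false

open Complex Filter Topology Finset

namespace Pool.Agent.U156.OS

/-- `A n ≥ - exp (o(n))` -/
def Low (A : ℕ → ℝ) : Prop := ∀ ε : ℝ, 0 < ε → ∃ C : ℝ, ∀ n : ℕ, -(C * Real.exp (ε * n)) ≤ A n

/-- `A n ≤ exp (o(n))` -/
def Upp (A : ℕ → ℝ) : Prop := ∀ ε : ℝ, 0 < ε → ∃ C : ℝ, ∀ n : ℕ, A n ≤ C * Real.exp (ε * n)

/-- `|A n| ≤ exp (o(n))` -/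
def Bdd (A : ℕ → ℝ) : Prop := ∀ ε : ℝ, 0 < ε → ∃ C : ℝ, ∀ n : ℕ, |A n| ≤ C * Real.exp (ε * n)

lemma exp_nat (ε : ℝ) (n : ℕ) : Real.exp (ε * n) = Real.exp ε ^ n := by
  rw [← Real.exp_nat_mul, mul_comm]

/-- the coefficients of a function holomorphic in a disc -/
lemma coef_summable {A : ℕ → ℂ} {G : ℂ → ℂ} {R : ℝ} (hG : DifferentiableOn ℂ G (Metric.ball 0 R))
    (h0 : ∀ᶠ z in 𝓝 (0 : ℂ), HasSum (fun n => A n * z ^ n) (G z)) {r : ℝ} (hr0 : 0 ≤ r) (hr : r < R) :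
    Summable fun n => ‖A n‖ * r ^ n := by
  have hT : ∀ y : ℂ, ‖y‖ < R → HasSum (fun k => (((k.factorial : ℂ))⁻¹ * iteratedDeriv k G 0) * y ^ k) (G y) := by
    intro y hy
    have h1 := Complex.hasSum_taylorSeries_on_ball hG (z := y) (by simpa [Metric.mem_ball] using hy)
    refine h1.congr_fun ?_ |> fun h => h
    intro k
    simp only [smul_eq_mul, sub_zero]
    ring
  have hA : A = fun k => ((k.factorial : ℂ))⁻¹ * iteratedDeriv k G 0 := by
    refine coeff_unique h0 ?_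
    filter_upwards [Metric.ball_mem_nhds (0 : ℂ) (hr0.trans_lt hr)] with y hy
    exact hT y (by simpa using hy)
  have h2 := (hT (r : ℂ) (by rw [Complex.norm_real, Real.norm_eq_abs, abs_of_nonneg hr0]; exact hr)).summable.norm
  rw [hA]
  refine h2.congr fun n => ?_
  rw [norm_mul, norm_pow, Complex.norm_real, Real.norm_eq_abs, abs_of_nonneg hr0]

/-- the sum of a power series is holomorphic -/
lemma sum_diff {A : ℕ → ℂ} {r : ℝ} (h : Summable fun n => ‖A n‖ * r ^ n) :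
    DifferentiableOn ℂ (fun z : ℂ => ∑' n, A n * z ^ n) (Metric.ball 0 r) := by
  refine differentiableOn_tsum_of_summable_norm h ?_ Metric.isOpen_ball ?_
  · intro i
    exact (differentiableOn_const _).mul (differentiableOn_pow i)
  · intro i w hw
    rw [Metric.mem_ball, dist_zero_right] at hw
    rw [norm_mul, norm_pow]
    exact mul_le_mul_of_nonneg_left (pow_le_pow_left₀ (norm_nonneg _) hw.le i) (norm_nonneg _)

lemma sum_hasSum {A : ℕ → ℂ} {r : ℝ} (h : Summable fun n => ‖A n‖ * r ^ n) {z : ℂ} (hz : ‖z‖ ≤ r) :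
    HasSum (fun n => A n * z ^ n) (∑' n, A n * z ^ n) := by
  refine (Summable.of_norm ?_).hasSum
  refine Summable.of_nonneg_of_le (fun n => norm_nonneg _) (fun n => ?_) h
  rw [norm_mul, norm_pow]
  exact mul_le_mul_of_nonneg_left (pow_le_pow_left₀ (norm_nonneg _) hz n) (norm_nonneg _)

lemma Bdd.summable {A : ℕ → ℝ} (h : Bdd A) {r : ℝ} (hr0 : 0 ≤ r) (hr : r < 1) :
    Summable fun n => ‖(A n : ℂ)‖ * r ^ n := by
  rcases hr0.eq_or_lt with h0 | h0
  · refine summable_of_ne_finset_zero (s := {0}) fun n hn => ?_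
    rw [← h0, zero_pow (by simpa using hn), mul_zero]
  · obtain ⟨ε, hε, hε2⟩ : ∃ ε : ℝ, 0 < ε ∧ Real.exp ε * r < 1 := by
      refine ⟨-Real.log r / 2, ?_, ?_⟩
      · have := Real.log_neg h0 hr
        linarith
      · nth_rewrite 2 [← Real.exp_log h0]
        rw [← Real.exp_add, Real.exp_lt_one_iff]
        have := Real.log_neg h0 hr
        linarith
    obtain ⟨C, hC⟩ := h ε hε
    have h1 : Summable fun n : ℕ => C * (Real.exp ε * r) ^ n :=
      (summable_geometric_of_lt_one (by positivity) hε2).mul_left C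
    refine Summable.of_nonneg_of_le (fun n => by positivity) (fun n => ?_) h1
    rw [Complex.norm_real, Real.norm_eq_abs, mul_pow, ← exp_nat, ← mul_assoc]
    exact mul_le_mul_of_nonneg_right (hC n) (by positivity)

lemma bdd_of_summable {A : ℕ → ℝ} (h : ∀ ε : ℝ, 0 < ε → Summable fun n => |A n| * Real.exp (-ε) ^ n) : Bdd A := by
  intro ε hε
  refine ⟨∑' n, |A n| * Real.exp (-ε) ^ n, fun n => ?_⟩
  have h1 := (h ε hε).le_tsum n (fun m _ => by positivity)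
  have h2 : Real.exp (-ε) ^ n * Real.exp (ε * n) = 1 := by
    rw [exp_nat, ← mul_pow, ← Real.exp_add]
    simp
  calc |A n| = (|A n| * Real.exp (-ε) ^ n) * Real.exp (ε * n) := by rw [mul_assoc, h2, mul_one]
    _ ≤ _ := mul_le_mul_of_nonneg_right h1 (by positivity)

/-- one-sided implies two-sided -/
theorem Low.bdd {A : ℕ → ℝ} {F : ℂ → ℂ}
    (hF : ∀ x ∈ Set.Ico (0 : ℝ) 1, AnalyticAt ℂ F (x : ℂ))
    (h0 : ∀ᶠ z in 𝓝 (0 : ℂ), HasSum (fun n => (A n : ℂ) * z ^ n) (F z)) (h : Low A) : Bdd A := by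
  refine bdd_of_summable fun ε hε => ?_
  obtain ⟨C, hC⟩ := h (ε / 2) (by positivity)
  refine one_sided (δ := ε / 2) (by linarith) (fun x hx => hF x ⟨hx.1, hx.2.trans_le ?_⟩) h0 hC
  rw [Real.exp_le_one_iff]
  linarith

theorem Upp.bdd {A : ℕ → ℝ} {F : ℂ → ℂ}
    (hF : ∀ x ∈ Set.Ico (0 : ℝ) 1, AnalyticAt ℂ F (x : ℂ))
    (h0 : ∀ᶠ z in 𝓝 (0 : ℂ), HasSum (fun n => (A n : ℂ) * z ^ n) (F z)) (h : Upp A) : Bdd A := by
  have h1 : Bdd fun n => -A n := by
    refine Low.bdd (F := fun z => -F z) (fun x hx => (hF x hx).neg) ?_ ?_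
    · filter_upwards [h0] with z hz
      refine hz.neg.congr_fun ?_ |> fun h => h
      intro n
      push_cast
      ring
    · intro ε hε
      obtain ⟨C, hC⟩ := h ε hε
      exact ⟨C, fun n => by have := hC n; linarith⟩
  intro ε hε
  obtain ⟨C, hC⟩ := h1 ε hε
  exact ⟨C, fun n => by have := hC n; rwa [abs_neg] at this⟩

lemma Bdd.low {A : ℕ → ℝ} (h : Bdd A) : Low A := by
  intro ε hε
  obtain ⟨C, hC⟩ := h ε hε
  exact ⟨C, fun n => (abs_le.1 (hC n)).1⟩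

lemma Bdd.upp {A : ℕ → ℝ} (h : Bdd A) : Upp A := by
  intro ε hε
  obtain ⟨C, hC⟩ := h ε hε
  exact ⟨C, fun n => (abs_le.1 (hC n)).2⟩

/-- `F` extends from a neighbourhood of `0` to a holomorphic function on the unit disc -/
def HolExt (F : ℂ → ℂ) : Prop := ∃ G : ℂ → ℂ, DifferentiableOn ℂ G (Metric.ball 0 1) ∧ G =ᶠ[𝓝 0] F

theorem Bdd.holExt {A : ℕ → ℝ} {F : ℂ → ℂ}
    (h0 : ∀ᶠ z in 𝓝 (0 : ℂ), HasSum (fun n => (A n : ℂ) * z ^ n) (F z)) (h : Bdd A) : HolExt F := by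
  refine ⟨fun z => ∑' n, (A n : ℂ) * z ^ n, ?_, ?_⟩
  · intro z hz
    rw [Metric.mem_ball, dist_zero_right] at hz
    obtain ⟨r, hr1, hr2⟩ := exists_between hz
    have h1 := sum_diff (h.summable ((norm_nonneg z).trans hr1.le) hr2)
    exact (h1.differentiableAt (Metric.isOpen_ball.mem_nhds (by simpa using hr1))).differentiableWithinAt
  · filter_upwards [h0] with z hz
    exact hz.tsum_eq

theorem HolExt.bdd {A : ℕ → ℝ} {F : ℂ → ℂ}
    (h0 : ∀ᶠ z in 𝓝 (0 : ℂ), HasSum (fun n => (A n : ℂ) * z ^ n) (F z)) (h : HolExt F) : Bdd A := by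
  obtain ⟨G, hG, hGF⟩ := h
  refine bdd_of_summable fun ε hε => ?_
  have h1 : ∀ᶠ z in 𝓝 (0 : ℂ), HasSum (fun n => (A n : ℂ) * z ^ n) (G z) := by
    filter_upwards [h0, hGF] with z hz hz2
    rw [hz2]
    exact hz
  have h2 := coef_summable hG h1 (r := Real.exp (-ε)) (Real.exp_pos _).le
    (by rw [Real.exp_lt_one_iff]; linarith)
  refine h2.congr fun n => ?_
  rw [Complex.norm_real, Real.norm_eq_abs]

end Pool.Agent.U156.OS
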