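import Pool.Agent.U156.OS.Ent
import Pool.Agent.TH345.ET.X
import Pool.Agent.TH339.MP.U3

/-!
# The `L`-function of an elliptic curve over a number field in the half-plane `Re s > 3/2`
-/

set_option autoImplicit false

open Complex Filter Topology Finset NumberField IsDedekindDomain

namespace Pool.Agent.U156.OS

section
variable {K : Type} [Field K] [NumberField K]

open Pool.Agent.TH339.MP Pool.Agent.TH345.ET

/-- the Euler product -/
noncomputable def LE (W : HeightOneSpectrum (𝓞 K) → WeierstrassCurve (𝓞 K)) (s : ℂ) : ℂ := ∏' v, elf W v s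

lemma LE_hasProd (W : HeightOneSpectrum (𝓞 K) → WeierstrassCurve (𝓞 K)) :
    ∃ b : PP → ℂ, (∀ x, ‖b x‖ ≤ ((Module.finrank ℚ K : ℝ) * 2) / (x.2 + 1 : ℕ)) ∧
      ∀ s : ℂ, 3 / 2 < s.re → HasProd (fun v => elf W v s) (LE W s) ∧
        LE W s = hE W (s - 1 / 2) * Complex.exp (Pool.Agent.TH339.MP.FF b (s - 1 / 2)) := by
  obtain ⟨b, hb, hprod⟩ := elf_hasProd' W
  refine ⟨b, hb, fun s hs => ?_⟩
  have h1 : 1 < (s - 1 / 2).re := by
    have : (s - 1 / 2).re = s.re - 1 / 2 := by simp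
    rw [this]
    linarith
  have h2 := hprod _ h1
  rw [sub_add_cancel] at h2
  have h3 : LE W s = hE W (s - 1 / 2) * Complex.exp (Pool.Agent.TH339.MP.FF b (s - 1 / 2)) := h2.tprod_eq
  exact ⟨by rw [h3]; exact h2, h3⟩

lemma LE_diff (W : HeightOneSpectrum (𝓞 K) → WeierstrassCurve (𝓞 K)) :
    DifferentiableOn ℂ (LE W) (HP (3 / 2)) := by
  obtain ⟨b, hb, h⟩ := LE_hasProd W
  have h1 : DifferentiableOn ℂ (fun s => hE W (s - 1 / 2) * Complex.exp (Pool.Agent.TH339.MP.FF b (s - 1 / 2))) (HP (3 / 2)) := by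
    intro s hs
    have hs' : 3 / 2 < s.re := hs
    have hre : (s - 1 / 2).re = s.re - 1 / 2 := by simp
    have h2 : AnalyticAt ℂ (hE W) (s - 1 / 2) := by
      unfold hE
      refine Finset.analyticAt_fun_prod _ fun v _ => ?_
      refine AnalyticAt.fun_comp (g := elf W v) (f := fun s : ℂ => s + 1 / 2) ?_
        (analyticAt_id.add analyticAt_const)
      rw [sub_add_cancel]
      exact elf_analytic W v hs'.le
    have h3 : DifferentiableAt ℂ (Pool.Agent.TH339.MP.FF b) (s - 1 / 2) := by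
      refine (differentiableOn_FF hb).differentiableAt ?_
      refine (isOpen_lt continuous_const Complex.continuous_re).mem_nhds ?_
      show 1 < (s - 1 / 2).re
      rw [hre]
      linarith
    have h4 : DifferentiableAt ℂ (fun s : ℂ => s - 1 / 2) s := by fun_prop
    have h5 : DifferentiableAt ℂ (fun s : ℂ => hE W (s - 1 / 2)) s :=
      DifferentiableAt.fun_comp' s h2.differentiableAt h4
    have h6 : DifferentiableAt ℂ (fun s : ℂ => Pool.Agent.TH339.MP.FF b (s - 1 / 2)) s :=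
      DifferentiableAt.fun_comp' s h3 h4
    exact (h5.mul h6.cexp).differentiableWithinAt
  exact h1.congr fun s hs => (h s hs).2

lemma cpow_conj (q : ℕ) (w : ℂ) : (q : ℂ) ^ ((starRingEnd ℂ) w) = (starRingEnd ℂ) ((q : ℂ) ^ w) := by
  have h1 := Complex.conj_cpow (q : ℂ) w (by
    rw [Complex.natCast_arg]
    exact Real.pi_pos.ne)
  rw [Complex.conj_natCast] at h1
  rw [h1, Complex.conj_conj] 

lemma elf_conj (W : HeightOneSpectrum (𝓞 K) → WeierstrassCurve (𝓞 K)) (v : HeightOneSpectrum (𝓞 K)) (s : ℂ) :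
    elf W v ((starRingEnd ℂ) s) = (starRingEnd ℂ) (elf W v s) := by
  unfold elf lfac
  rw [map_inv₀, map_add, map_sub, map_one, map_mul, map_mul, Complex.conj_ofReal, ← cpow_conj, ← cpow_conj, map_neg,
    map_mul]
  have h2 : (starRingEnd ℂ) (-2) = -2 := by
    rw [map_neg, Complex.conj_ofNat]
  rw [h2]
  congr 3
  split_ifs
  · simp
  · simp

lemma LE_conj (W : HeightOneSpectrum (𝓞 K) → WeierstrassCurve (𝓞 K)) (s : ℂ) (hs : 3 / 2 < s.re) :
    LE W ((starRingEnd ℂ) s) = (starRingEnd ℂ) (LE W s) := by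
  obtain ⟨b, hb, h⟩ := LE_hasProd W
  have h1 := (h s hs).1.map (starRingEnd ℂ) Complex.continuous_conj
  have h2 := (h ((starRingEnd ℂ) s) (by simpa using hs)).1
  refine h2.unique (h1.congr_fun ?_ |> fun h => h)
  intro v
  exact elf_conj W v s

open Classical in
/-- positivity on the real line -/
lemma LE_pos (W : HeightOneSpectrum (𝓞 K) → WeierstrassCurve (𝓞 K)) (x : ℝ) (hx : 3 / 2 < x) :
    ∃ y : ℝ, 0 < y ∧ LE W x = y := by
  obtain ⟨b, hb, h⟩ := LE_hasProd W
  obtain ⟨h1, h2⟩ := h (x : ℂ) (by simpa using hx)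
  -- the factors are positive
  have hfac : ∀ v, ∃ y : ℝ, 0 < y ∧ elf W v x = y := by
    intro v
    have hq : 2 ≤ nm v := two_le_nm v
    have hq0 : (0 : ℝ) < nm v := by exact_mod_cast (by omega : 0 < nm v)
    have hq1 : (1 : ℝ) < nm v := by exact_mod_cast (by omega : 1 < nm v)
    have ha := av_triv W v
    obtain ⟨e, he0, he⟩ : ∃ e : ℝ, 0 ≤ e ∧ (if (W v).Δ ∈ v.asIdeal then (0 : ℂ) else (nm v : ℂ)) = e := by
      split_ifs
      · exact ⟨0, le_rfl, by simp⟩
      · exact ⟨nm v, by positivity, by simp⟩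
    refine ⟨(1 - av W v * (nm v : ℝ) ^ (-x) + e * (nm v : ℝ) ^ (-2 * x))⁻¹, ?_, ?_⟩
    · rw [inv_pos]
      have h3 : av W v * (nm v : ℝ) ^ (-x) < 1 := by
        calc av W v * (nm v : ℝ) ^ (-x) ≤ (nm v : ℝ) * (nm v : ℝ) ^ (-x) :=
              mul_le_mul_of_nonneg_right ((le_abs_self _).trans ha) (by positivity)
          _ = (nm v : ℝ) ^ (1 - x) := by
              rw [sub_eq_add_neg, Real.rpow_add hq0, Real.rpow_one]
          _ < 1 := Real.rpow_lt_one_of_one_lt_of_neg hq1 (by linarith)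
      have h4 : 0 ≤ e * (nm v : ℝ) ^ (-2 * x) := by positivity
      linarith
    · unfold elf lfac
      rw [he]
      push_cast
      rw [Complex.ofReal_cpow hq0.le, Complex.ofReal_cpow hq0.le]
      push_cast
      rfl
  choose y hy0 hy using hfac
  have h3 : HasProd (fun v => (y v : ℂ)) (LE W x) := by
    refine h1.congr_fun ?_ |> fun h => h
    intro v
    exact (hy v).symm
  have him : (LE W x).im = 0 ∧ 0 ≤ (LE W x).re := by
    -- limit of positive reals
    have hcl : IsClosed {z : ℂ | z.im = 0 ∧ 0 ≤ z.re} :=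
      (isClosed_eq Complex.continuous_im continuous_const).inter (isClosed_le continuous_const Complex.continuous_re)
    refine hcl.mem_of_tendsto h3 (Eventually.of_forall fun S => ?_)
    have e1 : ∏ v ∈ S, (y v : ℂ) = ((∏ v ∈ S, y v : ℝ) : ℂ) := by push_cast; rfl
    show (∏ v ∈ S, (y v : ℂ)).im = 0 ∧ 0 ≤ (∏ v ∈ S, (y v : ℂ)).re
    rw [e1, Complex.ofReal_im, Complex.ofReal_re]
    exact ⟨rfl, Finset.prod_nonneg fun v _ => (hy0 v).le⟩
  have hne : LE W x ≠ 0 := by
    rw [h2]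
    refine mul_ne_zero ?_ (Complex.exp_ne_zero _)
    unfold hE
    rw [Finset.prod_ne_zero_iff]
    intro v _
    rw [sub_add_cancel, hy v]
    exact_mod_cast (hy0 v).ne'
  refine ⟨(LE W x).re, ?_, ?_⟩
  · refine lt_of_le_of_ne him.2 fun h0 => hne ?_
    exact Complex.ext h0.symm him.1
  · exact Complex.ext (by simp) (by simp [him.1])

end

end Pool.Agent.U156.OS
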