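import Pool.Agent.U156.OS.EK

/-!
# Preparations for the hand-ins on elliptic curves
-/

set_option autoImplicit false

open Complex Filter Topology Finset NumberField IsDedekindDomain

namespace Pool.Agent.U156.OS

/-- the Laguerre weights -/
noncomputable def lag (n : ℕ) (x : ℝ) : ℝ :=
  if n = 0 then 1 else ∑ k ∈ range n, ((n - 1).choose k : ℝ) * ((-x) ^ (k + 1) / (k + 1).factorial)

lemma lag_eq (n : ℕ) (l β : ℝ) : compR (fun k => (-l) ^ k / k.factorial) β n = lag n (β * l) := by
  unfold compR lag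
  split_ifs
  · simp
  · refine Finset.sum_congr rfl fun k _ => ?_
    have : (-(β * l)) ^ (k + 1) = β ^ (k + 1) * (-l) ^ (k + 1) := by
      rw [← mul_pow]
      congr 1
      ring
    rw [this]
    ring

lemma compR_smul (y : ℝ) (c : ℕ → ℝ) (β : ℝ) (n : ℕ) : compR (fun k => y * c k) β n = y * compR c β n := by
  unfold compR
  split_ifs
  · rfl
  · rw [Finset.mul_sum]
    refine Finset.sum_congr rfl fun k _ => ?_
    ring

/-- the formula for the coefficients of a Dirichlet series -/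
theorem AR_dir {f : ℂ → ℂ} {e a : ℝ} (hd : DifferentiableOn ℂ f (HP e)) (hea : e < a) {x : ℕ → ℝ}
    (hx : ∀ s : ℂ, e < s.re → LSeriesHasSum (fun n => (x n : ℂ)) s (f s)) (c : ℝ) (n : ℕ) :
    HasSum (fun N : ℕ => x (N + 1) * ((N : ℝ) + 1) ^ (-a) * lag n (2 * (a - c) * Real.log ((N : ℝ) + 1))) (AR f a c n) := by
  have hpos : ∀ N : ℕ, (0 : ℝ) < (N : ℝ) + 1 := fun N => by positivity
  have hterm : ∀ (s : ℂ) (N : ℕ), LSeries.term (fun n => (x n : ℂ)) s (N + 1) =
      (x (N + 1) : ℂ) * Complex.exp (-(s * Real.log ((N : ℝ) + 1))) := by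
    intro s N
    rw [LSeries.term_of_ne_zero (Nat.succ_ne_zero N), div_eq_mul_inv, ← Complex.cpow_neg,
      Complex.cpow_def_of_ne_zero (by exact_mod_cast Nat.succ_ne_zero N)]
    congr 2
    have h1 : Complex.log ((N + 1 : ℕ) : ℂ) = ((Real.log ((N : ℝ) + 1) : ℝ) : ℂ) := by
      rw [Complex.ofReal_log (hpos N).le]
      push_cast
      rfl
    rw [h1]
    ring
  have hsum : ∀ s : ℂ, e < s.re → HasSum (fun N : ℕ => (x (N + 1) : ℂ) * Complex.exp (-(s * Real.log ((N : ℝ) + 1)))) (f s) := by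
    intro s hs
    have h1 := hx s hs
    unfold LSeriesHasSum at h1
    have h2 := (hasSum_nat_add_iff' 1).2 h1
    rw [Finset.sum_range_one, LSeries.term_zero, sub_zero] at h2
    refine h2.congr_fun ?_ |> fun h => h
    intro N
    rw [hterm]
  have hs : ∀ σ : ℝ, e < σ → Summable fun N : ℕ => |x (N + 1)| * Real.exp (-(σ * Real.log ((N : ℝ) + 1))) := by
    intro σ hσ
    have h1 := (hsum (σ : ℂ) (by simpa using hσ)).summable.norm
    refine h1.congr fun N => ?_
    rw [norm_mul, Complex.norm_real, Real.norm_eq_abs, Complex.norm_exp]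
    congr 2
    rw [Complex.neg_re, ← Complex.ofReal_mul, Complex.ofReal_re]
  have h3 := compR_hasSum_param (fun k => tc_dir (x := fun N : ℕ => x (N + 1)) (l := fun N : ℕ => Real.log ((N : ℝ) + 1))
    (fun N => Real.log_nonneg (by linarith [(Nat.cast_nonneg N : (0 : ℝ) ≤ N)])) hs hsum hd hea k) (2 * (a - c)) n
  refine h3.congr_fun ?_ |> fun h => h
  intro N
  rw [compR_smul, lag_eq]
  congr 2
  rw [Real.rpow_def_of_pos (hpos N)]
  congr 1
  ring

end Pool.Agent.U156.OS
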