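import Pool.Agent.U156.OS.All

/-!
# Entire functions with a functional equation: the coordinate `u = (s - m)^2`
-/

set_option autoImplicit false

open Complex Filter Topology Finset

namespace Pool.Agent.U156.OS

/-- `B n ≥ - C ε^n` for each `ε > 0` -/
def SLow (B : ℕ → ℝ) : Prop := ∀ ε : ℝ, 0 < ε → ∃ C : ℝ, ∀ n : ℕ, -(C * ε ^ n) ≤ B n

/-- `B n ≤ C ε^n` for each `ε > 0` -/
def SUpp (B : ℕ → ℝ) : Prop := ∀ ε : ℝ, 0 < ε → ∃ C : ℝ, ∀ n : ℕ, B n ≤ C * ε ^ n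

/-- `|B n| ≤ C ε^n` for each `ε > 0` -/
def SBdd (B : ℕ → ℝ) : Prop := ∀ ε : ℝ, 0 < ε → ∃ C : ℝ, ∀ n : ℕ, |B n| ≤ C * ε ^ n

/-- all power moments converge -/
lemma SLow.summable {B : ℕ → ℝ} {F : ℂ → ℂ} (hF : ∀ x : ℝ, 0 ≤ x → AnalyticAt ℂ F (x : ℂ))
    (h0 : ∀ᶠ z in 𝓝 (0 : ℂ), HasSum (fun n => (B n : ℂ) * z ^ n) (F z)) (h : SLow B) {R : ℝ} (hR : 0 < R) :
    Summable fun n => |B n| * R ^ n := by
  obtain ⟨C, hC⟩ := h (1 / (2 * R)) (by positivity)
  have h1 := one_sided (A := B) (F := F) (δ := Real.log (1 / (2 * R))) (ε := -Real.log R) (C := C) ?_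
    (fun x hx => hF x hx.1) h0 ?_
  · rw [neg_neg, Real.exp_log hR] at h1
    exact h1
  · rw [one_div, Real.log_inv, Real.log_mul (by norm_num) hR.ne']
    have := Real.log_pos (show (1 : ℝ) < 2 by norm_num)
    linarith
  · intro n
    rw [exp_nat, Real.exp_log (by positivity)]
    exact hC n

lemma sbdd_of_summable {B : ℕ → ℝ} (h : ∀ R : ℝ, 0 < R → Summable fun n => |B n| * R ^ n) : SBdd B := by
  intro ε hε
  refine ⟨∑' n, |B n| * (1 / ε) ^ n, fun n => ?_⟩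
  have h1 := (h (1 / ε) (by positivity)).le_tsum n (fun m _ => by positivity)
  have h2 : (1 / ε) ^ n * ε ^ n = 1 := by
    rw [← mul_pow, one_div, inv_mul_cancel₀ hε.ne', one_pow]
  calc |B n| = (|B n| * (1 / ε) ^ n) * ε ^ n := by rw [mul_assoc, h2, mul_one]
    _ ≤ _ := mul_le_mul_of_nonneg_right h1 (by positivity)

lemma SBdd.low {B : ℕ → ℝ} (h : SBdd B) : SLow B := by
  intro ε hε
  obtain ⟨C, hC⟩ := h ε hε
  exact ⟨C, fun n => (abs_le.1 (hC n)).1⟩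

lemma SBdd.upp {B : ℕ → ℝ} (h : SBdd B) : SUpp B := by
  intro ε hε
  obtain ⟨C, hC⟩ := h ε hε
  exact ⟨C, fun n => (abs_le.1 (hC n)).2⟩

/-- an entire sum -/
lemma ent_sum {A : ℕ → ℂ} (h : ∀ R : ℝ, 0 < R → Summable fun n => ‖A n‖ * R ^ n) :
    Differentiable ℂ (fun z : ℂ => ∑' n, A n * z ^ n) := by
  intro z
  have h1 := sum_diff (h (‖z‖ + 1) (by positivity))
  exact h1.differentiableAt (Metric.isOpen_ball.mem_nhds (by simp))

/-! ### Even and odd entire functions -/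

lemma even_odd {T : ℂ → ℂ} (hT : Differentiable ℂ T) {δ : ℕ} (hδ : δ ≤ 1)
    (hs : ∀ t, T (-t) = (-1) ^ δ * T t) :
    ∃ Ψ : ℂ → ℂ, Differentiable ℂ Ψ ∧ ∀ t, T t = t ^ δ * Ψ (t ^ 2) := by
  have hsum : ∀ t : ℂ, HasSum (fun k => tc T 0 k * t ^ k) (T t) := by
    intro t
    have := tc_hasSum (f := T) (a := 0) (R := ‖t‖ + 1) hT.differentiableOn (w := t) (by linarith)
    rwa [zero_add] at this
  obtain ⟨c, hc⟩ : ∃ c : ℕ → ℂ, c = tc T 0 := ⟨_, rfl⟩
  rw [← hc] at hsum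
  have hpar : (fun k => c k * (-1) ^ k) = fun k => (-1) ^ δ * c k := by
    refine coeff_unique (H := fun t => T (-t)) (Eventually.of_forall fun t => ?_) (Eventually.of_forall fun t => ?_)
    · refine (hsum (-t)).congr_fun ?_ |> fun h => h
      intro k
      rw [neg_pow t k]
      ring
    · rw [hs t]
      refine ((hsum t).mul_left ((-1) ^ δ)).congr_fun ?_ |> fun h => h
      intro k
      ring
  have hzero : ∀ k, k % 2 ≠ δ → c k = 0 := by
    intro k hk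
    have h1 := congrFun hpar k
    have hcase : δ = 0 ∨ δ = 1 := by omega
    rcases hcase with h | h
    · rw [h] at h1 hk
      have hodd : Odd k := Nat.odd_iff.2 (by omega)
      rw [hodd.neg_one_pow, pow_zero, one_mul] at h1
      linear_combination (-1 / 2 : ℂ) * h1
    · rw [h] at h1 hk
      have heven : Even k := Nat.even_iff.2 (by omega)
      rw [heven.neg_one_pow, pow_one] at h1
      linear_combination (1 / 2 : ℂ) * h1
  have hinj : Function.Injective fun j : ℕ => 2 * j + δ := fun i j h => by simpa using h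
  have hsum2 : ∀ t : ℂ, HasSum (fun j => c (2 * j + δ) * t ^ (2 * j + δ)) (T t) := by
    intro t
    refine (hinj.hasSum_iff (f := fun k => c k * t ^ k) ?_).2 (hsum t)
    intro k hk
    rw [hzero k, zero_mul]
    intro h
    apply hk
    refine ⟨k / 2, ?_⟩
    simp only
    omega
  have hR : ∀ R : ℝ, 0 < R → Summable fun j => ‖c (2 * j + δ)‖ * R ^ j := by
    intro R hR
    have h1 := (hsum2 ((R + 1 : ℝ) : ℂ)).summable.norm
    refine Summable.of_nonneg_of_le (fun j => by positivity) (fun j => ?_) h1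
    rw [norm_mul, norm_pow, Complex.norm_real, Real.norm_eq_abs, abs_of_pos (by positivity)]
    refine mul_le_mul_of_nonneg_left ?_ (norm_nonneg _)
    calc R ^ j ≤ (R + 1) ^ j := pow_le_pow_left₀ hR.le (by linarith) j
      _ ≤ (R + 1) ^ (2 * j + δ) := pow_le_pow_right₀ (by linarith) (by omega)
  refine ⟨fun u => ∑' j, c (2 * j + δ) * u ^ j, ent_sum hR, fun t => ?_⟩
  rw [← tsum_mul_left, ← (hsum2 t).tsum_eq]
  refine tsum_congr fun j => ?_
  rw [← pow_mul, pow_add]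
  ring

/-! ### The square root -/

/-- the principal square root -/
noncomputable def sq (u : ℂ) : ℂ := u ^ (1 / 2 : ℂ)

lemma sq_sq (u : ℂ) : sq u ^ 2 = u := by
  unfold sq
  rw [← Complex.cpow_nat_mul]
  norm_num

lemma sq_re_nonneg (u : ℂ) : 0 ≤ (sq u).re := by
  unfold sq
  by_cases hu : u = 0
  · rw [hu, Complex.zero_cpow (by norm_num)]
    simp
  · rw [Complex.cpow_def_of_ne_zero hu, Complex.exp_re]
    refine mul_nonneg (Real.exp_pos _).le (Real.cos_nonneg_of_mem_Icc ?_)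
    have h1 : (Complex.log u * (1 / 2 : ℂ)).im = Complex.arg u / 2 := by
      have : (1 / 2 : ℂ) = ((1 / 2 : ℝ) : ℂ) := by push_cast; rfl
      rw [this, Complex.im_mul_ofReal, Complex.log_im]
      ring
    rw [h1]
    have h2 := Complex.neg_pi_lt_arg u
    have h3 := Complex.arg_le_pi u
    constructor
    · linarith
    · linarith

lemma sq_re {h : ℝ} (hh : 0 ≤ h) {u : ℂ} (hu : h ^ 2 < u.re) : h < (sq u).re := by
  have h1 := congrArg Complex.re (sq_sq u)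
  rw [pow_two, Complex.mul_re] at h1
  have h2 := sq_re_nonneg u
  nlinarith [sq_nonneg (sq u).im]

lemma sq_of_sq {t : ℂ} (ht : 0 < t.re) : sq (t ^ 2) = t := by
  have h1 : (sq (t ^ 2) - t) * (sq (t ^ 2) + t) = 0 := by
    have := sq_sq (t ^ 2)
    linear_combination this
  rcases mul_eq_zero.1 h1 with h | h
  · exact sub_eq_zero.1 h
  · exfalso
    have h2 := congrArg Complex.re h
    rw [Complex.add_re, Complex.zero_re] at h2
    have := sq_re_nonneg (t ^ 2)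
    linarith

lemma sq_analytic {u : ℂ} (hu : 0 < u.re) : AnalyticAt ℂ sq u := by
  unfold sq
  exact analyticAt_id.cpow analyticAt_const (Or.inl hu)

lemma sq_conj {u : ℂ} (hu : 0 < u.re) : sq ((starRingEnd ℂ) u) = (starRingEnd ℂ) (sq u) := by
  have h0 : 0 < (sq u).re := by
    have := sq_re (h := 0) le_rfl (u := u) (by simpa using hu)
    exact this
  have h1 : (starRingEnd ℂ) u = ((starRingEnd ℂ) (sq u)) ^ 2 := by
    rw [← map_pow, sq_sq]
  rw [h1, sq_of_sq]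
  simpa using h0

/-- `Λ (m + √u) / √u^δ` -/
noncomputable def Ph (Λ : ℂ → ℂ) (m : ℝ) (δ : ℕ) (u : ℂ) : ℂ := Λ (m + sq u) / sq u ^ δ

section
variable {Λ : ℂ → ℂ} {m h : ℝ}

lemma Ph_diff (hh : 0 ≤ h) (hΛ : DifferentiableOn ℂ Λ (HP (m + h))) (δ : ℕ) :
    DifferentiableOn ℂ (Ph Λ m δ) (HP (h ^ 2)) := by
  intro u hu
  have hu1 : h ^ 2 < u.re := hu
  have hu0 : 0 < u.re := lt_of_le_of_lt (sq_nonneg h) hu1
  have h1 : h < (sq u).re := sq_re hh hu1
  have h2 : (m : ℂ) + sq u ∈ HP (m + h) := by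
    show m + h < ((m : ℂ) + sq u).re
    rw [Complex.add_re, Complex.ofReal_re]
    linarith
  have h3 : AnalyticAt ℂ (fun u => Λ (m + sq u)) u :=
    AnalyticAt.fun_comp (g := Λ) (f := fun u => (m : ℂ) + sq u) (hΛ.analyticOnNhd (HP_open _) _ h2)
      (analyticAt_const.add (sq_analytic hu0))
  have h4 : sq u ^ δ ≠ 0 := by
    refine pow_ne_zero _ fun h0 => ?_
    rw [h0] at h1
    simp at h1
    linarith
  exact ((h3.div ((sq_analytic hu0).pow δ) h4).differentiableAt).differentiableWithinAt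

lemma Ph_conj (hh : 0 ≤ h) (hreal : ∀ s : ℂ, m + h < s.re → Λ ((starRingEnd ℂ) s) = (starRingEnd ℂ) (Λ s)) (δ : ℕ) :
    ∀ u : ℂ, h ^ 2 < u.re → Ph Λ m δ ((starRingEnd ℂ) u) = (starRingEnd ℂ) (Ph Λ m δ u) := by
  intro u hu
  have hu0 : 0 < u.re := lt_of_le_of_lt (sq_nonneg h) hu
  have h1 : h < (sq u).re := sq_re hh hu
  unfold Ph
  rw [sq_conj hu0, map_div₀, map_pow]
  congr 1
  rw [← hreal]
  · rw [map_add, Complex.conj_ofReal]
  · rw [Complex.add_re, Complex.ofReal_re]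
    linarith

/-- the coefficients -/
noncomputable def BB (Λ : ℂ → ℂ) (m : ℝ) (δ : ℕ) (u₀ : ℝ) (n : ℕ) : ℝ := (tc (Ph Λ m δ) u₀ n).re

lemma BB_hasSum (hh : 0 ≤ h) (hΛ : DifferentiableOn ℂ Λ (HP (m + h)))
    (hreal : ∀ s : ℂ, m + h < s.re → Λ ((starRingEnd ℂ) s) = (starRingEnd ℂ) (Λ s)) (δ : ℕ) {u₀ : ℝ}
    (hu : h ^ 2 < u₀) {z : ℂ} (hz : ‖z‖ < u₀ - h ^ 2) :
    HasSum (fun n => (BB Λ m δ u₀ n : ℂ) * z ^ n) (Ph Λ m δ (u₀ + z)) := by
  have h1 := tc_hasSum (f := Ph Λ m δ) (a := u₀) (R := u₀ - h ^ 2)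
    ((Ph_diff hh hΛ δ).mono (ball_sub (e := h ^ 2) (a := u₀))) hz
  refine h1.congr_fun ?_ |> fun h => h
  intro n
  unfold BB
  rw [tc_real (Ph_diff hh hΛ δ) hu (Ph_conj hh hreal δ) n]

/-- `Λ` has an entire extension with the functional equation `Λ (2 m - s) = (-1)^δ Λ s` -/
def Ent (Λ : ℂ → ℂ) (m h : ℝ) (δ : ℕ) : Prop :=
  ∃ G : ℂ → ℂ, Differentiable ℂ G ∧ (∀ s : ℂ, m + h < s.re → G s = Λ s) ∧
    ∀ s : ℂ, G (2 * m - s) = (-1) ^ δ * G s

lemma near_sum (hh : 0 ≤ h) (hΛ : DifferentiableOn ℂ Λ (HP (m + h)))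
    (hreal : ∀ s : ℂ, m + h < s.re → Λ ((starRingEnd ℂ) s) = (starRingEnd ℂ) (Λ s)) (δ : ℕ) {u₀ : ℝ}
    (hu : h ^ 2 < u₀) :
    ∀ᶠ z in 𝓝 (0 : ℂ), HasSum (fun n => (BB Λ m δ u₀ n : ℂ) * z ^ n) (Ph Λ m δ (u₀ + z)) := by
  filter_upwards [Metric.ball_mem_nhds (0 : ℂ) (sub_pos.2 hu)] with z hz
  exact BB_hasSum hh hΛ hreal δ hu (by simpa using hz)

/-- from summability to the entire extension -/
lemma ent_of_summable (hh : 0 ≤ h) (hΛ : DifferentiableOn ℂ Λ (HP (m + h)))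
    (hreal : ∀ s : ℂ, m + h < s.re → Λ ((starRingEnd ℂ) s) = (starRingEnd ℂ) (Λ s)) (δ : ℕ) {u₀ : ℝ}
    (hu : h ^ 2 < u₀) (hs : ∀ R : ℝ, 0 < R → Summable fun n => |BB Λ m δ u₀ n| * R ^ n) : Ent Λ m h δ := by
  obtain ⟨P, hP⟩ : ∃ P : ℂ → ℂ, P = fun z => ∑' n, (BB Λ m δ u₀ n : ℂ) * z ^ n := ⟨_, rfl⟩
  have hPd : Differentiable ℂ P := by
    rw [hP]
    refine ent_sum fun R hR => (hs R hR).congr fun n => ?_
    rw [Complex.norm_real, Real.norm_eq_abs]
  have hu0 : 0 < u₀ := lt_of_le_of_lt (sq_nonneg h) hu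
  refine ⟨fun s => (s - m) ^ δ * P ((s - m) ^ 2 - u₀), by fun_prop, ?_, ?_⟩
  · intro s hs'
    have hd : Differentiable ℂ fun s : ℂ => (s - m) ^ δ * P ((s - m) ^ 2 - u₀) := by fun_prop
    obtain ⟨t0, ht0⟩ : ∃ t0 : ℝ, t0 = Real.sqrt u₀ := ⟨_, rfl⟩
    have ht00 : h < t0 := by
      rw [ht0]
      exact (Real.lt_sqrt hh).2 hu
    have haE : ((m + t0 : ℝ) : ℂ) ∈ HP (m + h) := by
      show m + h < ((m + t0 : ℝ) : ℂ).re
      rw [Complex.ofReal_re]
      linarith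
    refine AnalyticOnNhd.eqOn_of_preconnected_of_eventuallyEq (f := fun s : ℂ => (s - m) ^ δ * P ((s - m) ^ 2 - u₀))
      (g := Λ) (U := HP (m + h)) (fun s _ => hd.analyticAt s) (hΛ.analyticOnNhd (HP_open _)) (HP_pre _) haE ?_ hs'
    have hcont : Tendsto (fun s : ℂ => (s - m) ^ 2 - u₀) (𝓝 ((m + t0 : ℝ) : ℂ)) (𝓝 0) := by
      have h1 : Continuous fun s : ℂ => (s - m) ^ 2 - u₀ := by fun_prop
      have h2 := h1.tendsto ((m + t0 : ℝ) : ℂ)
      have h3 : (((m + t0 : ℝ) : ℂ) - m) ^ 2 - u₀ = 0 := by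
        have h4 : (t0 : ℂ) ^ 2 = (u₀ : ℂ) := by
          rw [ht0]
          exact_mod_cast Real.sq_sqrt hu0.le
        push_cast
        rw [add_sub_cancel_left, h4, sub_self]
      rwa [h3] at h2
    filter_upwards [hcont.eventually (near_sum hh hΛ hreal δ hu), (HP_open _).mem_nhds haE] with s h1 h2
    have h3 : 0 < (s - m).re := by
      have h4 : m + h < s.re := h2
      rw [Complex.sub_re, Complex.ofReal_re]
      linarith
    have h5 : sq ((u₀ : ℂ) + ((s - m) ^ 2 - u₀)) = s - m := by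
      rw [add_sub_cancel, sq_of_sq h3]
    have h6 : P ((s - m) ^ 2 - u₀) = Λ s / (s - m) ^ δ := by
      rw [hP]
      simp only
      rw [h1.tsum_eq]
      unfold Ph
      rw [h5, add_sub_cancel]
    have h7 : (s - m) ^ δ ≠ 0 := by
      refine pow_ne_zero _ fun h0 => ?_
      rw [h0] at h3
      simp at h3
    rw [h6, mul_div_cancel₀ _ h7]
  · intro s
    simp only
    have e1 : (2 * (m : ℂ) - s - m) = -(s - m) := by ring
    rw [e1, neg_sq, neg_pow]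
    ring

/-- from the entire extension to summability -/
lemma summable_of_ent (hh : 0 ≤ h) (hΛ : DifferentiableOn ℂ Λ (HP (m + h)))
    (hreal : ∀ s : ℂ, m + h < s.re → Λ ((starRingEnd ℂ) s) = (starRingEnd ℂ) (Λ s)) {δ : ℕ} (hδ : δ ≤ 1) {u₀ : ℝ}
    (hu : h ^ 2 < u₀) (hE : Ent Λ m h δ) : ∀ R : ℝ, 0 < R → Summable fun n => |BB Λ m δ u₀ n| * R ^ n := by
  obtain ⟨G, hG, hGΛ, hFE⟩ := hE
  obtain ⟨Ψ, hΨ, hΨT⟩ := even_odd (T := fun t => G (m + t)) (by fun_prop) hδ (fun t => by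
    have := hFE (m + t)
    have e1 : 2 * (m : ℂ) - (m + t) = m + -t := by ring
    rwa [e1] at this)
  intro R hR
  have h1 : ∀ᶠ z in 𝓝 (0 : ℂ), HasSum (fun n => (BB Λ m δ u₀ n : ℂ) * z ^ n) (Ψ (u₀ + z)) := by
    have hre : ∀ᶠ z in 𝓝 (0 : ℂ), h ^ 2 < ((u₀ : ℂ) + z).re := by
      have hc : Continuous fun z : ℂ => ((u₀ : ℂ) + z).re := by fun_prop
      have h2 := hc.tendsto 0
      rw [add_zero, Complex.ofReal_re] at h2
      exact h2.eventually_const_lt hu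
    filter_upwards [near_sum hh hΛ hreal δ hu, hre] with z hz hz2
    have h3 : h < (sq ((u₀ : ℂ) + z)).re := sq_re hh hz2
    have h4 : Ph Λ m δ (u₀ + z) = Ψ (u₀ + z) := by
      unfold Ph
      rw [← hGΛ _ (by rw [Complex.add_re, Complex.ofReal_re]; linarith)]
      have h5 := hΨT (sq ((u₀ : ℂ) + z))
      rw [h5, sq_sq, mul_div_cancel_left₀]
      refine pow_ne_zero _ fun h0 => ?_
      rw [h0] at h3
      simp at h3
      linarith
    rwa [h4] at hz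
  have h2 := coef_summable (G := fun z => Ψ (u₀ + z)) (R := R + 1)
    (Differentiable.differentiableOn (by fun_prop)) h1 hR.le (by linarith)
  refine h2.congr fun n => ?_
  rw [Complex.norm_real, Real.norm_eq_abs]

/-- **Entire continuation with functional equation** -/
theorem ent_core (hh : 0 ≤ h) (hΛ : DifferentiableOn ℂ Λ (HP (m + h)))
    (hreal : ∀ s : ℂ, m + h < s.re → Λ ((starRingEnd ℂ) s) = (starRingEnd ℂ) (Λ s)) {δ : ℕ} (hδ : δ ≤ 1) {u₀ : ℝ}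
    (hu : h ^ 2 < u₀) :
    (Ent Λ m h δ ↔ SLow (BB Λ m δ u₀)) ∧ (Ent Λ m h δ ↔ SUpp (BB Λ m δ u₀)) ∧
      (Ent Λ m h δ ↔ SBdd (BB Λ m δ u₀)) := by
  have hF : ∀ x : ℝ, 0 ≤ x → AnalyticAt ℂ (fun z => Ph Λ m δ (u₀ + z)) (x : ℂ) := by
    intro x hx
    have h1 : (u₀ : ℂ) + x ∈ HP (h ^ 2) := by
      show h ^ 2 < ((u₀ : ℂ) + x).re
      rw [Complex.add_re, Complex.ofReal_re, Complex.ofReal_re]
      linarith
    exact AnalyticAt.fun_comp (g := Ph Λ m δ) (f := fun z => (u₀ : ℂ) + z)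
      ((Ph_diff hh hΛ δ).analyticOnNhd (HP_open _) _ h1) (analyticAt_const.add analyticAt_id)
  have h0 := near_sum hh hΛ hreal δ hu
  have h1 : Ent Λ m h δ → SBdd (BB Λ m δ u₀) :=
    fun hE => sbdd_of_summable (summable_of_ent hh hΛ hreal hδ hu hE)
  have h2 : SLow (BB Λ m δ u₀) → Ent Λ m h δ :=
    fun hL => ent_of_summable hh hΛ hreal δ hu fun R hR => hL.summable hF h0 hR
  have h3 : SUpp (BB Λ m δ u₀) → Ent Λ m h δ := by
    intro hU
    refine ent_of_summable hh hΛ hreal δ hu fun R hR => ?_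
    have h4 : SLow fun n => -BB Λ m δ u₀ n := by
      intro ε hε
      obtain ⟨C, hC⟩ := hU ε hε
      exact ⟨C, fun n => by have := hC n; linarith⟩
    have h5 := h4.summable (F := fun z => -Ph Λ m δ (u₀ + z)) (fun x hx => (hF x hx).neg) (by
      filter_upwards [h0] with z hz
      refine hz.neg.congr_fun ?_ |> fun h => h
      intro n
      push_cast
      ring) hR
    refine h5.congr fun n => ?_
    rw [abs_neg]
  exact ⟨⟨fun hE => (h1 hE).low, h2⟩, ⟨fun hE => (h1 hE).upp, h3⟩, ⟨h1, fun hB => h2 hB.low⟩⟩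

end

end Pool.Agent.U156.OS
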