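import Pool.Agent.U156.OS.Cplx

/-!
# Euler products over the prime numbers
-/

set_option autoImplicit false

open Complex Filter Topology Finset

namespace Pool.Agent.U156.OS

section
variable {D : ℕ} {B : ℝ}

/-- the factor at `p` -/
noncomputable def eden (α : Nat.Primes → Fin D → ℂ) (p : Nat.Primes) (s : ℂ) : ℂ :=
  ∏ j, (1 - α p j * ((p : ℕ) : ℂ) ^ (-s))

/-- the Euler product -/
noncomputable def EP (α : Nat.Primes → Fin D → ℂ) (s : ℂ) : ℂ := ∏' p : Nat.Primes, (eden α p s)⁻¹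

lemma prime_ne (p : Nat.Primes) : ((p : ℕ) : ℂ) ≠ 0 := by exact_mod_cast p.2.ne_zero

lemma term_norm {α : Nat.Primes → Fin D → ℂ} (hα : ∀ p j, ‖α p j‖ ≤ ((p : ℕ) : ℝ) ^ B) (p : Nat.Primes) (j : Fin D)
    (s : ℂ) : ‖α p j * ((p : ℕ) : ℂ) ^ (-s)‖ ≤ ((p : ℕ) : ℝ) ^ (B - s.re) := by
  have hp : (0 : ℝ) < ((p : ℕ) : ℝ) := by exact_mod_cast p.2.pos
  rw [norm_mul, Complex.norm_natCast_cpow_of_pos p.2.pos, Complex.neg_re, sub_eq_add_neg, Real.rpow_add hp]
  exact mul_le_mul_of_nonneg_right (hα p j) (by positivity)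

lemma eden_sub {α : Nat.Primes → Fin D → ℂ} (hα : ∀ p j, ‖α p j‖ ≤ ((p : ℕ) : ℝ) ^ B) {σ : ℝ} (hσ : B < σ)
    (p : Nat.Primes) {s : ℂ} (hs : σ ≤ s.re) :
    ‖eden α p s - 1‖ ≤ D * Real.exp D * ((p : ℕ) : ℝ) ^ (B - σ) := by
  have hp1 : (1 : ℝ) < ((p : ℕ) : ℝ) := by exact_mod_cast p.2.one_lt
  have hp : (0 : ℝ) < ((p : ℕ) : ℝ) := by linarith
  obtain ⟨x, hx⟩ : ∃ x : ℝ, x = ((p : ℕ) : ℝ) ^ (B - σ) := ⟨_, rfl⟩
  have hx0 : 0 < x := by rw [hx]; positivity
  have hx1 : x ≤ 1 := by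
    rw [hx]
    exact (Real.rpow_lt_one_of_one_lt_of_neg hp1 (by linarith)).le
  have hterm : ∀ j, ‖-(α p j * ((p : ℕ) : ℂ) ^ (-s))‖ ≤ x := by
    intro j
    rw [norm_neg, hx]
    refine (term_norm hα p j s).trans ?_
    exact Real.rpow_le_rpow_of_exponent_le hp1.le (by linarith)
  have h1 := Finset.norm_prod_one_add_sub_one_le (Finset.univ : Finset (Fin D)) (fun j => -(α p j * ((p : ℕ) : ℂ) ^ (-s)))
  have h2 : ∑ j : Fin D, ‖-(α p j * ((p : ℕ) : ℂ) ^ (-s))‖ ≤ D * x := by
    calc ∑ j : Fin D, ‖-(α p j * ((p : ℕ) : ℂ) ^ (-s))‖ ≤ ∑ j : Fin D, x := Finset.sum_le_sum fun j _ => hterm j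
      _ = D * x := by simp
  have h3 : eden α p s = ∏ j, (1 + -(α p j * ((p : ℕ) : ℂ) ^ (-s))) := by
    unfold eden
    refine Finset.prod_congr rfl fun j _ => ?_
    ring
  rw [h3, ← hx]
  refine h1.trans ?_
  have h4 : Real.exp (∑ j : Fin D, ‖-(α p j * ((p : ℕ) : ℂ) ^ (-s))‖) - 1 ≤ Real.exp (D * x) - 1 := by
    have := Real.exp_le_exp.2 h2
    linarith
  refine h4.trans ?_
  -- `exp y - 1 ≤ y exp y`
  have h5 : Real.exp (D * x) - 1 ≤ (D * x) * Real.exp (D * x) := by
    have h6 := Real.add_one_le_exp (-(D * x))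
    have h7 := Real.exp_pos (D * x)
    have h8 : Real.exp (D * x) * Real.exp (-(D * x)) = 1 := by rw [← Real.exp_add]; simp
    nlinarith
  refine h5.trans ?_
  have h9 : Real.exp (D * x) ≤ Real.exp D := by
    rw [Real.exp_le_exp]
    have : (0 : ℝ) ≤ D := Nat.cast_nonneg D
    nlinarith
  calc (D * x) * Real.exp (D * x) ≤ (D * x) * Real.exp D := mul_le_mul_of_nonneg_left h9 (by positivity)
    _ = D * Real.exp D * x := by ring

lemma eden_ne {α : Nat.Primes → Fin D → ℂ} (hα : ∀ p j, ‖α p j‖ ≤ ((p : ℕ) : ℝ) ^ B) (p : Nat.Primes) {s : ℂ}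
    (hs : B < s.re) : eden α p s ≠ 0 := by
  have hp1 : (1 : ℝ) < ((p : ℕ) : ℝ) := by exact_mod_cast p.2.one_lt
  unfold eden
  rw [Finset.prod_ne_zero_iff]
  intro j _ h0
  have h1 := term_norm hα p j s
  have h2 : α p j * ((p : ℕ) : ℂ) ^ (-s) = 1 := (sub_eq_zero.1 h0).symm
  rw [h2, norm_one] at h1
  have := Real.rpow_lt_one_of_one_lt_of_neg hp1 (show B - s.re < 0 by linarith)
  linarith

lemma eden_diff (α : Nat.Primes → Fin D → ℂ) (p : Nat.Primes) : Differentiable ℂ (eden α p) := by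
  unfold eden
  refine Differentiable.fun_finsetProd fun j _ => ?_
  exact (differentiable_const _).sub ((differentiable_id.neg.const_cpow (Or.inl (prime_ne p))).const_mul _)

lemma primes_summable {σ : ℝ} (hσ : B + 1 < σ) (C : ℝ) :
    Summable fun p : Nat.Primes => C * ((p : ℕ) : ℝ) ^ (B - σ) := by
  refine Summable.mul_left C ?_
  exact (Nat.Primes.summable_rpow).2 (by linarith)

lemma EP_facts {α : Nat.Primes → Fin D → ℂ} (hα : ∀ p j, ‖α p j‖ ≤ ((p : ℕ) : ℝ) ^ B) :
    DifferentiableOn ℂ (EP α) (HP (B + 1)) ∧ ∀ s ∈ HP (B + 1), HasProd (fun p => (eden α p s)⁻¹) (EP α s) ∧ EP α s ≠ 0 := by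
  have hone : ∀ p s, eden α p s = 1 + (eden α p s - 1) := fun p s => by ring
  have hsum : ∀ s ∈ HP (B + 1), Summable fun p => ‖eden α p s - 1‖ := by
    intro s hs
    have hs' : B + 1 < s.re := hs
    exact Summable.of_nonneg_of_le (fun p => norm_nonneg _) (fun p => eden_sub hα (by linarith) p le_rfl)
      (primes_summable hs' (D * Real.exp D))
  -- pointwise
  have hpt : ∀ s ∈ HP (B + 1), HasProd (fun p => eden α p s) (∏' p, eden α p s) ∧ ∏' p, eden α p s ≠ 0 := by
    intro s hs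
    have hs' : B + 1 < s.re := hs
    have h1 : Multipliable fun p => eden α p s := by
      have := multipliable_one_add_of_summable (hsum s hs)
      refine this.congr fun p => ?_
      rw [← hone]
    refine ⟨h1.hasProd, ?_⟩
    have h2 := tprod_one_add_ne_zero_of_summable (f := fun p => eden α p s - 1) (fun p => by
      rw [← hone]
      exact eden_ne hα p (by linarith)) (hsum s hs)
    have h3 : ∏' p, eden α p s = ∏' p, (1 + (eden α p s - 1)) := tprod_congr fun p => hone p s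
    rw [h3]
    exact h2
  have hinv : ∀ s ∈ HP (B + 1), HasProd (fun p => (eden α p s)⁻¹) (∏' p, eden α p s)⁻¹ := by
    intro s hs
    obtain ⟨h1, h2⟩ := hpt s hs
    have h3 := Tendsto.inv₀ h1 h2
    refine h3.congr fun S => ?_
    rw [Finset.prod_inv_distrib]
  have hEP : ∀ s ∈ HP (B + 1), EP α s = (∏' p, eden α p s)⁻¹ := fun s hs => (hinv s hs).tprod_eq
  -- differentiability of the product
  have hM : DifferentiableOn ℂ (fun s => ∏' p, eden α p s) (HP (B + 1)) := by
    intro s hs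
    have hs' : B + 1 < s.re := hs
    obtain ⟨σ, hσ1, hσ2⟩ := exists_between hs'
    have h1 := (primes_summable hσ1 (D * Real.exp D)).hasProdLocallyUniformlyOn_one_add (K := HP σ)
      (f := fun p s => eden α p s - 1) (HP_open σ)
      (Eventually.of_forall fun p s hs => eden_sub hα (by linarith) p (le_of_lt hs))
      (fun p => ((eden_diff α p).sub (differentiable_const _)).continuous.continuousOn)
    have h2 := h1.differentiableOn (Eventually.of_forall fun S => by
      have : Differentiable ℂ fun s => ∏ p ∈ S, (1 + (eden α p s - 1)) :=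
        Differentiable.fun_finsetProd fun p _ => (differentiable_const _).add ((eden_diff α p).sub (differentiable_const _))
      simpa [Finset.prod_fn] using this.differentiableOn) (HP_open σ)
    have h3 : (fun s => ∏' p, eden α p s) = fun s => ∏' p, (1 + (eden α p s - 1)) := by
      funext s
      exact tprod_congr fun p => hone p s
    rw [h3]
    exact (h2.differentiableAt ((HP_open σ).mem_nhds hσ2)).differentiableWithinAt
  refine ⟨?_, fun s hs => ?_⟩
  · exact (hM.inv fun s hs => (hpt s hs).2).congr fun s hs => hEP s hs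
  · rw [hEP s hs]
    exact ⟨hinv s hs, inv_ne_zero (hpt s hs).2⟩

end

end Pool.Agent.U156.OS
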