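import Pool.Agent.U156.OS.Ent
import Pool.Agent.U156.OS.Cplx

/-!
# Meromorphic functions with a functional equation
-/

set_option autoImplicit false

open Complex Filter Topology Finset

namespace Pool.Agent.U156.OS

/-- one-sided combinations on the superexponential scale -/
def SMerLow (B : ℕ → ℝ) : Prop :=
  ∀ ε : ℝ, 0 < ε → ∃ p : Polynomial ℝ, p ≠ 0 ∧ ∃ C : ℝ, ∀ n : ℕ, -(C * ε ^ n) ≤ conv p B n

lemma one_eps {B : ℕ → ℝ} {F : ℂ → ℂ} (hF : ∀ x : ℝ, 0 ≤ x → AnalyticAt ℂ F (x : ℂ))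
    (h0 : ∀ᶠ z in 𝓝 (0 : ℂ), HasSum (fun n => (B n : ℂ) * z ^ n) (F z)) {ε R C : ℝ} (hε : 0 < ε) (hR : 0 < R)
    (hεR : ε * R < 1) (h : ∀ n : ℕ, -(C * ε ^ n) ≤ B n) : Summable fun n => |B n| * R ^ n := by
  have h1 := one_sided (A := B) (F := F) (δ := Real.log ε) (ε := -Real.log R) (C := C) ?_
    (fun x hx => hF x hx.1) h0 ?_
  · rw [neg_neg, Real.exp_log hR] at h1
    exact h1
  · have h2 := Real.log_neg (mul_pos hε hR) hεR
    rw [Real.log_mul hε.ne' hR.ne'] at h2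
    linarith
  · intro n
    rw [exp_nat, Real.exp_log hε]
    exact h n

/-! ### Even and odd functions on discs -/

lemma even_odd_disc {T : ℂ → ℂ} {R : ℝ} (hR : 0 < R) (hT : DifferentiableOn ℂ T (Metric.ball 0 R)) {δ : ℕ} (hδ : δ ≤ 1)
    (hs : ∀ t, T (-t) = (-1) ^ δ * T t) :
    ∃ Ψ : ℂ → ℂ, DifferentiableOn ℂ Ψ (Metric.ball 0 (R ^ 2)) ∧ ∀ t : ℂ, ‖t‖ < R → T t = t ^ δ * Ψ (t ^ 2) := by
  have hsum : ∀ t : ℂ, ‖t‖ < R → HasSum (fun k => tc T 0 k * t ^ k) (T t) := by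
    intro t ht
    have := tc_hasSum (f := T) (a := 0) (R := R) hT (w := t) ht
    rwa [zero_add] at this
  obtain ⟨c, hc⟩ : ∃ c : ℕ → ℂ, c = tc T 0 := ⟨_, rfl⟩
  rw [← hc] at hsum
  have hev : ∀ᶠ t in 𝓝 (0 : ℂ), ‖t‖ < R := by
    filter_upwards [Metric.ball_mem_nhds (0 : ℂ) hR] with t ht
    simpa using ht
  have hpar : (fun k => c k * (-1) ^ k) = fun k => (-1) ^ δ * c k := by
    refine coeff_unique (H := fun t => T (-t)) ?_ ?_
    · filter_upwards [hev] with t ht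
      refine (hsum (-t) (by rwa [norm_neg])).congr_fun ?_ |> fun h => h
      intro k
      rw [neg_pow t k]
      ring
    · filter_upwards [hev] with t ht
      rw [hs t]
      refine ((hsum t ht).mul_left ((-1) ^ δ)).congr_fun ?_ |> fun h => h
      intro k
      ring
  have hzero : ∀ k, k % 2 ≠ δ → c k = 0 := by
    intro k hk
    have h1 := congrFun hpar k
    have hcase : δ = 0 ∨ δ = 1 := by omega
    rcases hcase with h | h
    · rw [h] at h1 hk
      have hodd : Odd k := Nat.odd_iff.2 (by omega)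
      rw [hodd.neg_one_pow, pow_zero, one_mul] at h1
      linear_combination (-1 / 2 : ℂ) * h1
    · rw [h] at h1 hk
      have heven : Even k := Nat.even_iff.2 (by omega)
      rw [heven.neg_one_pow, pow_one] at h1
      linear_combination (1 / 2 : ℂ) * h1
  have hinj : Function.Injective fun j : ℕ => 2 * j + δ := fun i j h => by simpa using h
  have hsum2 : ∀ t : ℂ, ‖t‖ < R → HasSum (fun j => c (2 * j + δ) * t ^ (2 * j + δ)) (T t) := by
    intro t ht
    refine (hinj.hasSum_iff (f := fun k => c k * t ^ k) ?_).2 (hsum t ht)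
    intro k hk
    rw [hzero k, zero_mul]
    intro h
    apply hk
    refine ⟨k / 2, ?_⟩
    simp only
    omega
  have hr : ∀ r : ℝ, 0 ≤ r → r < R → Summable fun j => ‖c (2 * j + δ)‖ * (r ^ 2) ^ j := by
    intro r hr0 hr
    obtain ⟨ρ, hρ1, hρ2⟩ := exists_between hr
    have hρ0 : 0 < ρ := hr0.trans_lt hρ1
    have h1 := (hsum2 (ρ : ℂ) (by rwa [Complex.norm_real, Real.norm_eq_abs, abs_of_pos hρ0])).summable.norm
    have h2 := h1.mul_left (ρ ^ δ)⁻¹
    refine Summable.of_nonneg_of_le (fun j => by positivity) (fun j => ?_) h2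
    rw [norm_mul, norm_pow, Complex.norm_real, Real.norm_eq_abs, abs_of_pos hρ0, pow_add, ← pow_mul]
    have h3 : r ^ (2 * j) ≤ ρ ^ (2 * j) := pow_le_pow_left₀ hr0 hρ1.le _
    have h4 : (ρ ^ δ)⁻¹ * (‖c (2 * j + δ)‖ * (ρ ^ (2 * j) * ρ ^ δ)) = ‖c (2 * j + δ)‖ * ρ ^ (2 * j) := by
      field_simp
    rw [h4]
    exact mul_le_mul_of_nonneg_left h3 (norm_nonneg _)
  refine ⟨fun u => ∑' j, c (2 * j + δ) * u ^ j, fun u hu => ?_, fun t ht => ?_⟩
  · rw [Metric.mem_ball, dist_zero_right] at hu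
    have h1 : Real.sqrt ‖u‖ < R := by
      rw [Real.sqrt_lt' hR]
      exact hu
    obtain ⟨r, hr1, hr2⟩ := exists_between h1
    have hr0 : 0 ≤ r := (Real.sqrt_nonneg _).trans hr1.le
    have h2 := sum_diff (hr r hr0 hr2)
    have h3 : ‖u‖ < r ^ 2 := by
      rw [← Real.sqrt_lt_sqrt_iff (norm_nonneg u), Real.sqrt_sq hr0]
      exact hr1
    exact (h2.differentiableAt (Metric.isOpen_ball.mem_nhds (by simpa using h3))).differentiableWithinAt
  · rw [← tsum_mul_left, ← (hsum2 t ht).tsum_eq]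
    refine tsum_congr fun j => ?_
    rw [← pow_mul, pow_add]
    ring

/-- clearing poles by a polynomial in `w ^ 2` -/
lemma exists_poly_sq {K : Set ℂ} (hK : IsCompact K) {G : ℂ → ℂ} (hG : ∀ z ∈ K, MeromorphicAt G z) :
    ∃ q : Polynomial ℝ, q ≠ 0 ∧ ∀ z ∈ K, AnalyticAt ℂ (fun w => ev q (w ^ 2) * G w) z := by
  have hsq : ∀ (q : Polynomial ℝ) (z : ℂ), AnalyticAt ℂ (fun w : ℂ => ev q (w ^ 2)) z := fun q z =>
    AnalyticAt.fun_comp (g := ev q) (f := fun w : ℂ => w ^ 2) (ev_analytic q _) (analyticAt_id.pow 2)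
  refine hK.induction_on (p := fun S => ∃ q : Polynomial ℝ, q ≠ 0 ∧ ∀ z ∈ S, AnalyticAt ℂ (fun w => ev q (w ^ 2) * G w) z)
    ?_ ?_ ?_ ?_
  · exact ⟨1, one_ne_zero, fun z hz => absurd hz (by simp)⟩
  · rintro s t hst ⟨q, hq, h⟩
    exact ⟨q, hq, fun z hz => h z (hst hz)⟩
  · rintro s t ⟨q, hq, h⟩ ⟨q', hq', h'⟩
    refine ⟨q * q', mul_ne_zero hq hq', fun z hz => ?_⟩
    rcases hz with hz | hz
    · have := (hsq q' z).mul (h z hz)
      refine this.congr (Eventually.of_forall fun w => ?_)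
      simp only [Pi.mul_apply, ev_mul]
      ring
    · have := (hsq q z).mul (h' z hz)
      refine this.congr (Eventually.of_forall fun w => ?_)
      simp only [Pi.mul_apply, ev_mul]
      ring
  · intro x hx
    obtain ⟨n, hn⟩ := hG x hx
    refine ⟨{w | AnalyticAt ℂ (fun z => (z - x) ^ n • G z) w}, ?_, quad (x ^ 2) ^ n, ?_, ?_⟩
    · exact mem_nhdsWithin_of_mem_nhds ((isOpen_analyticAt ℂ _).mem_nhds hn)
    · exact pow_ne_zero _ (quad_monic (x ^ 2)).ne_zero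
    · intro z hz
      have h1 : AnalyticAt ℂ (fun w : ℂ => ((w + x) * (w ^ 2 - (starRingEnd ℂ) (x ^ 2))) ^ n) z := by fun_prop
      refine (h1.mul hz).congr (Eventually.of_forall fun w => ?_)
      have h2 : ev (quad (x ^ 2) ^ n) (w ^ 2) = ((w ^ 2 - x ^ 2) * (w ^ 2 - (starRingEnd ℂ) (x ^ 2))) ^ n := by
        rw [← ev_quad]
        unfold ev
        rw [map_pow]
      simp only [Pi.mul_apply, smul_eq_mul]
      rw [h2]
      have h3 : (w ^ 2 - x ^ 2) * (w ^ 2 - (starRingEnd ℂ) (x ^ 2)) =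
          ((w + x) * (w ^ 2 - (starRingEnd ℂ) (x ^ 2))) * (w - x) := by ring
      rw [h3, mul_pow _ (w - x)]
      ring

lemma sq_analytic' {t : ℂ} (ht : 0 < t.re) : AnalyticAt ℂ sq (t ^ 2) := by
  unfold sq
  refine analyticAt_id.cpow analyticAt_const ?_
  rw [id, Complex.mem_slitPlane_iff]
  by_cases him : t.im = 0
  · left
    rw [pow_two, Complex.mul_re, him]
    nlinarith
  · right
    rw [pow_two, Complex.mul_im]
    have : t.re * t.im + t.im * t.re = 2 * (t.re * t.im) := by ring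
    rw [this]
    exact mul_ne_zero two_ne_zero (mul_ne_zero ht.ne' him)

section
variable {Λ : ℂ → ℂ} {m h : ℝ}

/-- `Λ` has a meromorphic extension with the functional equation `Λ (2 m - s) = (-1)^δ Λ s` -/
def MEnt (Λ : ℂ → ℂ) (m h : ℝ) (δ : ℕ) : Prop :=
  ∃ G : ℂ → ℂ, MeromorphicOn G Set.univ ∧ (∀ s : ℂ, m + h < s.re → G s = Λ s) ∧
    ∀ s : ℂ, G (2 * m - s) = (-1) ^ δ * G s

/-- from the extension to the combinations -/
lemma ment_low (hh : 0 ≤ h) (hΛ : DifferentiableOn ℂ Λ (HP (m + h)))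
    (hreal : ∀ s : ℂ, m + h < s.re → Λ ((starRingEnd ℂ) s) = (starRingEnd ℂ) (Λ s)) {δ : ℕ} (hδ : δ ≤ 1) {u₀ : ℝ}
    (hu : h ^ 2 < u₀) (hE : MEnt Λ m h δ) : SMerLow (BB Λ m δ u₀) := by
  obtain ⟨G, hG, hGΛ, hFE⟩ := hE
  intro ε hε
  have hu0 : 0 < u₀ := lt_of_le_of_lt (sq_nonneg h) hu
  obtain ⟨R, hR0, hR⟩ : ∃ R : ℝ, 0 < R ∧ u₀ + 1 / ε < R ^ 2 := by
    have h1 : 0 < 1 / ε := by positivity
    refine ⟨u₀ + 1 / ε + 1, by positivity, ?_⟩
    nlinarith
  obtain ⟨T, hTd⟩ : ∃ T : ℂ → ℂ, T = fun t => G (m + t) := ⟨_, rfl⟩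
  have hTm : ∀ t, MeromorphicAt T t := by
    intro t
    rw [hTd]
    exact MeromorphicAt.comp_analyticAt (f := G) (g := fun t : ℂ => (m : ℂ) + t) (hG _ (Set.mem_univ _))
      (analyticAt_const.add analyticAt_id)
  obtain ⟨q, hq, hqT⟩ := exists_poly_sq (isCompact_closedBall (0 : ℂ) R) (G := T) (fun z _ => hTm z)
  obtain ⟨Ψ, hΨ, hΨT⟩ := even_odd_disc hR0 (T := fun t => ev q (t ^ 2) * T t)
    (fun t ht => (hqT t (Metric.ball_subset_closedBall ht)).differentiableAt.differentiableWithinAt) hδ (fun t => by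
      rw [hTd]
      simp only
      have := hFE (m + t)
      have e1 : 2 * (m : ℂ) - (m + t) = m + -t := by ring
      rw [e1] at this
      rw [this, neg_sq]
      ring)
  -- the translated polynomial
  obtain ⟨q', hq'⟩ : ∃ q' : Polynomial ℝ, q' = q.comp (Polynomial.X + Polynomial.C u₀) := ⟨_, rfl⟩
  have hq'0 : q' ≠ 0 := by
    rw [hq']
    intro h0
    rcases Polynomial.comp_eq_zero_iff.1 h0 with h1 | h1
    · exact hq h1
    · have h2 := congrArg (fun r => Polynomial.coeff r 1) h1.2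
      simp at h2
  have hev : ∀ z : ℂ, ev q' z = ev q (u₀ + z) := by
    intro z
    rw [hq']
    unfold ev
    rw [Polynomial.aeval_comp, map_add, Polynomial.aeval_X, Polynomial.aeval_C, add_comm]
    rfl
  refine ⟨q', hq'0, ?_⟩
  have h1 : ∀ᶠ z in 𝓝 (0 : ℂ), HasSum (fun n => (conv q' (BB Λ m δ u₀) n : ℂ) * z ^ n) (Ψ (u₀ + z)) := by
    have hre : ∀ᶠ z in 𝓝 (0 : ℂ), h ^ 2 < ((u₀ : ℂ) + z).re := by
      have hc : Continuous fun z : ℂ => ((u₀ : ℂ) + z).re := by fun_prop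
      have h2 := hc.tendsto 0
      rw [add_zero, Complex.ofReal_re] at h2
      exact h2.eventually_const_lt hu
    have hnorm : ∀ᶠ z in 𝓝 (0 : ℂ), ‖(u₀ : ℂ) + z‖ < R ^ 2 := by
      have hc : Continuous fun z : ℂ => ‖(u₀ : ℂ) + z‖ := by fun_prop
      have h2 := hc.tendsto 0
      rw [add_zero, Complex.norm_real, Real.norm_eq_abs, abs_of_pos hu0] at h2
      refine h2.eventually_lt_const ?_
      have : 0 < 1 / ε := by positivity
      linarith
    filter_upwards [near_sum hh hΛ hreal δ hu, hre, hnorm] with z hz hz2 hz3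
    have h3 : h < (sq ((u₀ : ℂ) + z)).re := sq_re hh hz2
    have h4 : ‖sq ((u₀ : ℂ) + z)‖ < R := by
      have h5 : ‖sq ((u₀ : ℂ) + z)‖ ^ 2 < R ^ 2 := by rwa [← norm_pow, sq_sq]
      exact lt_of_pow_lt_pow_left₀ 2 hR0.le h5
    have h5 := hΨT _ h4
    rw [sq_sq, hTd] at h5
    simp only at h5
    rw [hGΛ _ (by rw [Complex.add_re, Complex.ofReal_re]; linarith)] at h5
    have h6 : sq ((u₀ : ℂ) + z) ^ δ ≠ 0 := by
      refine pow_ne_zero _ fun h0 => ?_
      rw [h0] at h3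
      simp at h3
      linarith
    have h7 : Ψ (u₀ + z) = ev q' z * Ph Λ m δ (u₀ + z) := by
      rw [hev]
      unfold Ph
      rw [← mul_div_assoc, h5, mul_div_cancel_left₀ _ h6]
    rw [h7]
    exact conv_hasSum q' hz
  have h2 := coef_summable (G := fun z => Ψ (u₀ + z)) (R := R ^ 2 - u₀) (by
    intro z hz
    rw [Metric.mem_ball, dist_zero_right] at hz
    have h3 : (u₀ : ℂ) + z ∈ Metric.ball (0 : ℂ) (R ^ 2) := by
      rw [Metric.mem_ball, dist_zero_right]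
      have h4 := norm_add_le (u₀ : ℂ) z
      rw [Complex.norm_real, Real.norm_eq_abs, abs_of_pos hu0] at h4
      linarith
    have h4 := hΨ.differentiableAt (Metric.isOpen_ball.mem_nhds h3)
    exact (DifferentiableAt.fun_comp' z h4 (by fun_prop)).differentiableWithinAt) h1 (r := 1 / ε) (by positivity) (by linarith)
  refine ⟨∑' n, |conv q' (BB Λ m δ u₀) n| * (1 / ε) ^ n, fun n => ?_⟩
  have h4 : Summable fun n => |conv q' (BB Λ m δ u₀) n| * (1 / ε) ^ n := by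
    refine h2.congr fun n => ?_
    rw [Complex.norm_real, Real.norm_eq_abs]
  have h5 := h4.le_tsum n (fun m _ => by positivity)
  have h6 : (1 / ε) ^ n * ε ^ n = 1 := by
    rw [← mul_pow, one_div, inv_mul_cancel₀ hε.ne', one_pow]
  have h7 : |conv q' (BB Λ m δ u₀) n| ≤ (∑' n, |conv q' (BB Λ m δ u₀) n| * (1 / ε) ^ n) * ε ^ n := by
    calc |conv q' (BB Λ m δ u₀) n| = (|conv q' (BB Λ m δ u₀) n| * (1 / ε) ^ n) * ε ^ n := by rw [mul_assoc, h6, mul_one]
      _ ≤ _ := mul_le_mul_of_nonneg_right h5 (by positivity)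
  exact (abs_le.1 h7).1

/-- from the combinations to the extension -/
lemma low_ment (hh : 0 ≤ h) (hΛ : DifferentiableOn ℂ Λ (HP (m + h)))
    (hreal : ∀ s : ℂ, m + h < s.re → Λ ((starRingEnd ℂ) s) = (starRingEnd ℂ) (Λ s)) {δ : ℕ} {u₀ : ℝ}
    (hu : h ^ 2 < u₀) (hL : SMerLow (BB Λ m δ u₀)) : MEnt Λ m h δ := by
  have hu0 : 0 < u₀ := lt_of_le_of_lt (sq_nonneg h) hu
  have hF : ∀ x : ℝ, 0 ≤ x → AnalyticAt ℂ (fun z => Ph Λ m δ (u₀ + z)) (x : ℂ) := by
    intro x hx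
    have h1 : (u₀ : ℂ) + x ∈ HP (h ^ 2) := by
      show h ^ 2 < ((u₀ : ℂ) + x).re
      rw [Complex.add_re, Complex.ofReal_re, Complex.ofReal_re]
      linarith
    exact AnalyticAt.fun_comp (g := Ph Λ m δ) (f := fun z => (u₀ : ℂ) + z)
      ((Ph_diff hh hΛ δ).analyticOnNhd (HP_open _) _ h1) (analyticAt_const.add analyticAt_id)
  have h0 := near_sum hh hΛ hreal δ hu
  obtain ⟨F, hFd⟩ : ∃ F : ℂ → ℂ, F = fun z => Ph Λ m δ (u₀ + z) := ⟨_, rfl⟩
  have hpos : ∀ k : ℕ, (0 : ℝ) < 1 / (2 * ((k : ℝ) + 1)) := fun k => by positivity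
  choose p hp C hC using fun k : ℕ => hL (1 / (2 * ((k : ℝ) + 1))) (hpos k)
  have hs : ∀ k, Summable fun n => |conv (p k) (BB Λ m δ u₀) n| * ((k : ℝ) + 1) ^ n := by
    intro k
    refine one_eps (F := fun z => ev (p k) z * Ph Λ m δ (u₀ + z)) (fun x hx => (ev_analytic _ _).mul (hF x hx)) ?_
      (hpos k) (by positivity) ?_ (hC k)
    · filter_upwards [h0] with z hz
      exact conv_hasSum (p k) hz
    · have : (0 : ℝ) < (k : ℝ) + 1 := by positivity
      rw [one_div, mul_inv, mul_assoc, inv_mul_cancel₀ this.ne']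
      norm_num
  have hs' : ∀ k, Summable fun n => ‖(conv (p k) (BB Λ m δ u₀) n : ℂ)‖ * ((k : ℝ) + 1) ^ n := by
    intro k
    refine (hs k).congr fun n => ?_
    rw [Complex.norm_real, Real.norm_eq_abs]
  obtain ⟨P, hP⟩ : ∃ P : ℕ → ℂ → ℂ, P = fun k z => ∑' n, (conv (p k) (BB Λ m δ u₀) n : ℂ) * z ^ n := ⟨_, rfl⟩
  have hPd : ∀ k, DifferentiableOn ℂ (P k) (Metric.ball 0 ((k : ℝ) + 1)) := by
    intro k
    rw [hP]
    exact sum_diff (hs' k)
  have hpunct : ∀ k, (fun z => P k z / ev (p k) z) =ᶠ[𝓝[≠] 0] F := by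
    intro k
    have h1 := h0.filter_mono (nhdsWithin_le_nhds (s := {(0 : ℂ)}ᶜ))
    filter_upwards [h1, ev_ne (hp k) 0] with z hz1 hz2
    rw [hP, hFd]
    simp only
    rw [(conv_hasSum (p k) hz1).tsum_eq, mul_div_cancel_left₀ _ hz2]
  obtain ⟨G, hG⟩ := mer_glue (D := fun k : ℕ => Metric.ball (0 : ℂ) ((k : ℝ) + 1)) (a := 0)
    (g := fun k z => P k z / ev (p k) z) (F := F)
    (fun k => Metric.isOpen_ball) (fun k => (convex_ball (0 : ℂ) _).isPreconnected)
    (fun k => Metric.mem_ball_self (by positivity))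
    (Or.inl fun i j hij => Metric.ball_subset_ball (by
      have : (i : ℝ) ≤ j := by exact_mod_cast hij
      linarith))
    (fun k s hs => by
      have h1 : AnalyticAt ℂ (P k) s := (hPd k).analyticOnNhd Metric.isOpen_ball s hs
      exact h1.meromorphicAt.div (ev_analytic (p k) s).meromorphicAt)
    hpunct
  have hNF : ∀ z : ℂ, MeromorphicNFAt G z := by
    intro z
    obtain ⟨k, hk⟩ := exists_nat_gt ‖z‖
    exact (hG k z (by
      show z ∈ Metric.ball (0 : ℂ) ((k : ℝ) + 1)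
      rw [Metric.mem_ball, dist_zero_right]
      linarith)).1
  have hG0 : G =ᶠ[𝓝[≠] 0] F := by
    have h1 := (hG 0 0 (Metric.mem_ball_self (by positivity))).2
    exact h1.trans (hpunct 0)
  -- `F` is analytic at the points `t ^ 2 - u₀`
  have hFt : ∀ t : ℂ, h < t.re → AnalyticAt ℂ F (t ^ 2 - u₀) := by
    intro t ht
    have ht0 : 0 < t.re := lt_of_le_of_lt hh ht
    have e1 : (u₀ : ℂ) + (t ^ 2 - u₀) = t ^ 2 := by ring
    have h1 : AnalyticAt ℂ (Ph Λ m δ) (t ^ 2) := by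
      have h2 : (m : ℂ) + sq (t ^ 2) ∈ HP (m + h) := by
        rw [sq_of_sq ht0]
        show m + h < ((m : ℂ) + t).re
        rw [Complex.add_re, Complex.ofReal_re]
        linarith
      have h3 : AnalyticAt ℂ (fun u => Λ (m + sq u)) (t ^ 2) :=
        AnalyticAt.fun_comp (g := Λ) (f := fun u => (m : ℂ) + sq u) (hΛ.analyticOnNhd (HP_open _) _ h2)
          (analyticAt_const.add (sq_analytic' ht0))
      refine h3.div ((sq_analytic' ht0).pow δ) (pow_ne_zero _ ?_)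
      rw [sq_of_sq ht0]
      intro h4
      rw [h4] at ht0
      simp at ht0
    rw [hFd]
    refine AnalyticAt.fun_comp (g := Ph Λ m δ) (f := fun z => (u₀ : ℂ) + z) ?_ (analyticAt_const.add analyticAt_id)
    rw [e1]
    exact h1
  refine ⟨fun s => (s - m) ^ δ * G ((s - m) ^ 2 - u₀), fun s _ => ?_, fun s hs => ?_, fun s => ?_⟩
  · refine MeromorphicAt.mul ?_ ?_
    · exact AnalyticAt.meromorphicAt (by fun_prop)
    · exact MeromorphicAt.comp_analyticAt (f := G) (g := fun s : ℂ => (s - m) ^ 2 - u₀) (hNF _).meromorphicAt (by fun_prop)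
  · -- agreement with `Λ`
    have ht : h < (s - m).re := by
      rw [Complex.sub_re, Complex.ofReal_re]
      linarith
    have ht0 : 0 < (s - m).re := lt_of_le_of_lt hh ht
    obtain ⟨U, hU⟩ : ∃ U : Set ℂ, U = (fun t : ℂ => t ^ 2 - (u₀ : ℂ)) '' HP h := ⟨_, rfl⟩
    have hUc : IsConnected U := by
      rw [hU]
      refine ⟨⟨_, ⟨((h + 1 : ℝ) : ℂ), ?_, rfl⟩⟩, (HP_pre h).image _ (by fun_prop)⟩
      show h < ((h + 1 : ℝ) : ℂ).re
      rw [Complex.ofReal_re]
      linarith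
    have h0U : (0 : ℂ) ∈ U := by
      rw [hU]
      refine ⟨((Real.sqrt u₀ : ℝ) : ℂ), ?_, ?_⟩
      · show h < ((Real.sqrt u₀ : ℝ) : ℂ).re
        rw [Complex.ofReal_re]
        exact (Real.lt_sqrt hh).2 hu
      · have : ((Real.sqrt u₀ : ℝ) : ℂ) ^ 2 = (u₀ : ℂ) := by exact_mod_cast Real.sq_sqrt hu0.le
        simp only
        rw [this, sub_self]
    have hsU : (s - m) ^ 2 - (u₀ : ℂ) ∈ U := by
      rw [hU]
      exact ⟨s - m, ht, rfl⟩
    have h1 : G =ᶠ[𝓝[≠] ((s - m) ^ 2 - (u₀ : ℂ))] F := by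
      refine mer_ident hUc (fun z _ => (hNF z).meromorphicAt) ?_ h0U hG0 hsU
      rw [hU]
      rintro _ ⟨t, ht, rfl⟩
      exact (hFt t ht).meromorphicAt
    have h2 := (MeromorphicNFAt.eventuallyEq_nhdsNE_iff_eventuallyEq_nhds (hNF _) (hFt _ ht).meromorphicNFAt).1 h1
    have h3 := h2.eq_of_nhds
    simp only
    rw [h3, hFd]
    simp only
    have e1 : (u₀ : ℂ) + ((s - m) ^ 2 - u₀) = (s - m) ^ 2 := by ring
    rw [e1]
    unfold Ph
    rw [sq_of_sq ht0, add_sub_cancel, mul_div_cancel₀]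
    refine pow_ne_zero _ fun h4 => ?_
    rw [h4] at ht0
    simp at ht0
  · simp only
    have e1 : (2 * (m : ℂ) - s - m) = -(s - m) := by ring
    rw [e1, neg_sq, neg_pow]
    ring

end

end Pool.Agent.U156.OS
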