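import Pool.Agent.U156.OS.Lag

/-!
# Criteria on half-planes
-/

set_option autoImplicit false

open Complex Filter Topology Finset

namespace Pool.Agent.U156.OS

/-- the Taylor coefficients of `f` at `a` -/
noncomputable def tc (f : ℂ → ℂ) (a : ℂ) (k : ℕ) : ℂ := ((k.factorial : ℂ))⁻¹ * iteratedDeriv k f a

/-- the half-plane `Re s > c` -/
def HP (c : ℝ) : Set ℂ := {s | c < s.re}

lemma HP_open (c : ℝ) : IsOpen (HP c) := isOpen_lt continuous_const Complex.continuous_re

lemma HP_conv (c : ℝ) : Convex ℝ (HP c) := convex_halfSpace_re_gt c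

lemma HP_pre (c : ℝ) : IsPreconnected (HP c) := (HP_conv c).isPreconnected

lemma tc_hasSum {f : ℂ → ℂ} {a : ℂ} {R : ℝ} (hf : DifferentiableOn ℂ f (Metric.ball a R)) {w : ℂ} (hw : ‖w‖ < R) :
    HasSum (fun k => tc f a k * w ^ k) (f (a + w)) := by
  have h1 := Complex.hasSum_taylorSeries_on_ball hf (z := a + w) (by simpa [Metric.mem_ball, dist_eq_norm] using hw)
  refine h1.congr_fun ?_ |> fun h => h
  intro k
  unfold tc
  simp only [smul_eq_mul, add_sub_cancel_left]
  ring

lemma ball_sub {e a : ℝ} : Metric.ball (a : ℂ) (a - e) ⊆ HP e := by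
  intro s hs
  rw [Metric.mem_ball, dist_eq_norm] at hs
  have h1 := Complex.abs_re_le_norm (s - a)
  have h2 : (s - a : ℂ).re = s.re - a := by simp
  rw [h2] at h1
  have h3 := (abs_lt.1 (h1.trans_lt hs)).1
  show e < s.re
  linarith

/-- the coordinate -/
noncomputable def sz (a c : ℝ) (z : ℂ) : ℂ := (a : ℂ) + ((2 * (a - c) : ℝ) : ℂ) * (z / (1 - z))

/-- its inverse -/
noncomputable def zs (a c : ℝ) (s : ℂ) : ℂ := (s - a) / (s - a + ((2 * (a - c) : ℝ) : ℂ))

section
variable {e c a : ℝ}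

lemma sz_zero : sz a c 0 = a := by simp [sz]

lemma den_ne (hca : c < a) {s : ℂ} (hs : s ∈ HP c) : s - a + ((2 * (a - c) : ℝ) : ℂ) ≠ 0 := by
  intro h
  have h1 := congrArg Complex.re h
  simp only [Complex.add_re, Complex.sub_re, Complex.ofReal_re, Complex.zero_re] at h1
  have h2 : c < s.re := hs
  linarith

lemma zs_norm (hca : c < a) {s : ℂ} (hs : s ∈ HP c) : ‖zs a c s‖ < 1 := by
  unfold zs
  have hd := den_ne hca hs
  rw [norm_div, div_lt_one (norm_pos_iff.2 hd)]
  have h2 : c < s.re := hs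
  have h3 : Complex.normSq (s - a) < Complex.normSq (s - a + ((2 * (a - c) : ℝ) : ℂ)) := by
    rw [Complex.normSq_apply, Complex.normSq_apply]
    simp only [Complex.add_re, Complex.sub_re, Complex.ofReal_re, Complex.add_im, Complex.sub_im, Complex.ofReal_im]
    nlinarith [mul_pos (sub_pos.2 hca) (sub_pos.2 h2)]
  rw [Complex.normSq_eq_norm_sq, Complex.normSq_eq_norm_sq] at h3
  exact lt_of_pow_lt_pow_left₀ 2 (norm_nonneg _) h3

lemma sz_zs (hca : c < a) {s : ℂ} (hs : s ∈ HP c) : sz a c (zs a c s) = s := by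
  have hd := den_ne hca hs
  unfold sz zs
  have hb : ((2 * (a - c) : ℝ) : ℂ) ≠ 0 := by
    rw [Ne, Complex.ofReal_eq_zero]
    have := sub_pos.2 hca
    positivity
  obtain ⟨β, hβ⟩ : ∃ β : ℂ, β = ((2 * (a - c) : ℝ) : ℂ) := ⟨_, rfl⟩
  rw [← hβ] at hd hb ⊢
  have h1 : (1 : ℂ) - (s - a) / (s - a + β) = β / (s - a + β) := by
    field_simp
    ring
  rw [h1]
  field_simp
  ring

lemma sz_re (hca : c < a) {z : ℂ} (hz : ‖z‖ < 1) : sz a c z ∈ HP c := by
  have h1 : (1 : ℂ) - z ≠ 0 := by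
    intro h
    rw [sub_eq_zero] at h
    rw [← h] at hz
    simp at hz
  have h2 : (0 : ℝ) < Complex.normSq (1 - z) := Complex.normSq_pos.2 h1
  have h3 : Complex.normSq z < 1 := by
    rw [Complex.normSq_eq_norm_sq]
    have := norm_nonneg z
    nlinarith
  show c < (sz a c z).re
  unfold sz
  rw [Complex.add_re, Complex.ofReal_re, Complex.re_ofReal_mul, Complex.div_re]
  have h4 : z.re * (1 - z).re / Complex.normSq (1 - z) + z.im * (1 - z).im / Complex.normSq (1 - z) =
      (1 / 2) * ((1 - Complex.normSq z) / Complex.normSq (1 - z)) - 1 / 2 := by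
    have h5 : Complex.normSq (1 - z) = (1 - z.re) ^ 2 + z.im ^ 2 := by
      rw [Complex.normSq_apply]
      simp only [Complex.sub_re, Complex.one_re, Complex.sub_im, Complex.one_im]
      ring
    have h6 : Complex.normSq z = z.re ^ 2 + z.im ^ 2 := by
      rw [Complex.normSq_apply]
      ring
    simp only [Complex.sub_re, Complex.one_re, Complex.sub_im, Complex.one_im]
    rw [h5] at h2
    rw [h5, h6]
    field_simp
    ring
  rw [h4]
  have h7 : 0 < (1 - Complex.normSq z) / Complex.normSq (1 - z) := div_pos (by linarith) h2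
  have h8 := mul_pos (sub_pos.2 hca) h7
  nlinarith

lemma zs_sz (hca : c < a) {z : ℂ} (hz : ‖z‖ < 1) : zs a c (sz a c z) = z := by
  have h1 : (1 : ℂ) - z ≠ 0 := by
    intro h
    rw [sub_eq_zero] at h
    rw [← h] at hz
    simp at hz
  have hb : ((2 * (a - c) : ℝ) : ℂ) ≠ 0 := by
    rw [Ne, Complex.ofReal_eq_zero]
    have := sub_pos.2 hca
    positivity
  unfold sz zs
  obtain ⟨β, hβ⟩ : ∃ β : ℂ, β = ((2 * (a - c) : ℝ) : ℂ) := ⟨_, rfl⟩
  rw [← hβ] at hb ⊢
  have h2 : (a : ℂ) + β * (z / (1 - z)) - a = β * z / (1 - z) := by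
    rw [add_sub_cancel_left, mul_div_assoc]
  have h3 : (a : ℂ) + β * (z / (1 - z)) - a + β = β / (1 - z) := by
    rw [h2]
    field_simp
    ring
  rw [h3, h2]
  field_simp

lemma sz_analytic {z : ℂ} (hz : z ≠ 1) : AnalyticAt ℂ (sz a c) z := by
  unfold sz
  refine analyticAt_const.add (analyticAt_const.mul (analyticAt_id.div (analyticAt_const.sub analyticAt_id) ?_))
  exact sub_ne_zero.2 (Ne.symm hz)

lemma zs_analytic (hca : c < a) {s : ℂ} (hs : s ∈ HP c) : AnalyticAt ℂ (zs a c) s := by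
  unfold zs
  exact (analyticAt_id.sub analyticAt_const).div
    ((analyticAt_id.sub analyticAt_const).add analyticAt_const) (den_ne hca hs)

lemma zs_a : zs a c a = 0 := by simp [zs]

lemma ne_one_of_norm {z : ℂ} (hz : ‖z‖ < 1) : z ≠ 1 := by
  rintro rfl
  simp at hz

/-- the function in the coordinate `z` -/
noncomputable def FF (f : ℂ → ℂ) (a c : ℝ) (z : ℂ) : ℂ := f (sz a c z)

lemma FF_analytic {f : ℂ → ℂ} (hf : DifferentiableOn ℂ f (HP e)) {z : ℂ} (hz : z ≠ 1) (h : sz a c z ∈ HP e) :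
    AnalyticAt ℂ (FF f a c) z :=
  AnalyticAt.comp (hf.analyticOnNhd (HP_open e) _ h) (sz_analytic hz)

lemma FF_real {f : ℂ → ℂ} (hf : DifferentiableOn ℂ f (HP e)) (hea : e < a) (hca : c < a) :
    ∀ x ∈ Set.Ico (0 : ℝ) 1, AnalyticAt ℂ (FF f a c) (x : ℂ) := by
  intro x hx
  have h1 : (x : ℂ) ≠ 1 := by
    intro h
    have : x = 1 := by exact_mod_cast h
    linarith [hx.2]
  refine FF_analytic hf h1 ?_
  show e < (sz a c x).re
  have h2 : sz a c x = ((a + 2 * (a - c) * (x / (1 - x)) : ℝ) : ℂ) := by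
    unfold sz
    push_cast
    ring
  rw [h2, Complex.ofReal_re]
  have h3 : 0 ≤ x / (1 - x) := div_nonneg hx.1 (by linarith [hx.2])
  have h4 : 0 ≤ 2 * (a - c) * (x / (1 - x)) := mul_nonneg (by linarith) h3
  linarith

/-- the expansion near `0` -/
lemma FF_hasSum {f : ℂ → ℂ} (hf : DifferentiableOn ℂ f (HP e)) (hea : e < a) (hca : c < a) :
    ∀ᶠ z in 𝓝 (0 : ℂ), HasSum (fun n => compC (tc f a) (2 * (a - c)) n * z ^ n) (FF f a c z) := by
  have hball : DifferentiableOn ℂ f (Metric.ball (a : ℂ) (a - e)) := hf.mono ball_sub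
  obtain ⟨ρ, hρ0, hρ⟩ : ∃ ρ : ℝ, 0 < ρ ∧ ρ < a - e := ⟨(a - e) / 2, by linarith, by linarith⟩
  have hβ : 0 ≤ 2 * (a - c) := by linarith
  have hsum : Summable fun k => ‖tc f a k‖ * ρ ^ k := by
    have h1 := (tc_hasSum hball (w := (ρ : ℂ))
      (by rw [Complex.norm_real, Real.norm_eq_abs, abs_of_pos hρ0]; exact hρ)).summable.norm
    refine h1.congr fun k => ?_
    rw [norm_mul, norm_pow, Complex.norm_real, Real.norm_eq_abs, abs_of_pos hρ0]
  have hev1 : ∀ᶠ z in 𝓝 (0 : ℂ), ‖z‖ < 1 := by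
    filter_upwards [Metric.ball_mem_nhds (0 : ℂ) one_pos] with z hz
    simpa using hz
  have hev2 : ∀ᶠ z in 𝓝 (0 : ℂ), 2 * (a - c) * (‖z‖ / (1 - ‖z‖)) < ρ := by
    have hc : ContinuousAt (fun z : ℂ => 2 * (a - c) * (‖z‖ / (1 - ‖z‖))) 0 := by
      refine continuousAt_const.mul (ContinuousAt.div continuous_norm.continuousAt
        (continuousAt_const.sub continuous_norm.continuousAt) ?_)
      simp
    have h2 := hc.tendsto
    simp only [norm_zero, zero_div, mul_zero] at h2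
    exact h2.eventually_lt_const hρ0
  filter_upwards [hev1, hev2] with z hz1 hz2
  have h3 := comp_hasSum hβ hsum hz1 hz2.le
  have hw : ‖((2 * (a - c) : ℝ) : ℂ) * (z / (1 - z))‖ < a - e := by
    rw [norm_mul, Complex.norm_real, Real.norm_eq_abs, abs_of_nonneg hβ, norm_div]
    refine lt_of_le_of_lt (mul_le_mul_of_nonneg_left ?_ hβ) (hz2.trans hρ)
    have h4 : 1 - ‖z‖ ≤ ‖1 - z‖ := by
      have := norm_sub_norm_le (1 : ℂ) z
      rwa [norm_one] at this
    exact div_le_div_of_nonneg_left (norm_nonneg _) (by linarith) h4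
  rw [(tc_hasSum hball hw).tsum_eq] at h3
  exact h3

/-! ### Transfer of extensions -/

/-- `f` extends from `Re s > e` to a holomorphic function on `Re s > c` -/
def HolH (f : ℂ → ℂ) (e c : ℝ) : Prop :=
  ∃ g : ℂ → ℂ, DifferentiableOn ℂ g (HP c) ∧ ∀ s : ℂ, e < s.re → g s = f s

/-- `f` extends from `Re s > e` to a meromorphic function on `Re s > c` -/
def MerH (f : ℂ → ℂ) (e c : ℝ) : Prop :=
  ∃ g : ℂ → ℂ, MeromorphicOn g (HP c) ∧ ∀ s : ℂ, e < s.re → g s = f s

lemma near_a (hea : e < a) : ∀ᶠ z in 𝓝 (0 : ℂ), sz a c z ∈ HP e := by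
  have h1 : ContinuousAt (sz a c) 0 := (sz_analytic (a := a) (c := c) (z := 0) zero_ne_one).continuousAt
  have h2 := h1.tendsto
  rw [sz_zero] at h2
  exact h2.eventually ((HP_open e).mem_nhds (show e < (a : ℂ).re by simpa using hea))

lemma HolH.holExt {f : ℂ → ℂ} (hea : e < a) (hca : c < a) (h : HolH f e c) : HolExt (FF f a c) := by
  obtain ⟨g, hg, hgf⟩ := h
  refine ⟨fun z => g (sz a c z), ?_, ?_⟩
  · intro z hz
    rw [Metric.mem_ball, dist_zero_right] at hz
    have h1 := (hg.analyticOnNhd (HP_open c) _ (sz_re hca hz)).comp (sz_analytic (ne_one_of_norm hz))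
    exact h1.differentiableAt.differentiableWithinAt
  · filter_upwards [near_a (c := c) hea] with z hz
    exact hgf _ hz

lemma near_zs (hca : c < a) : Tendsto (zs a c) (𝓝 (a : ℂ)) (𝓝 0) := by
  have h1 := (zs_analytic hca (s := (a : ℂ)) (show c < (a : ℂ).re by simpa using hca)).continuousAt.tendsto
  rwa [zs_a] at h1

lemma HolExt.holH {f : ℂ → ℂ} (hf : DifferentiableOn ℂ f (HP e)) (hce : c < e) (hea : e < a)
    (h : HolExt (FF f a c)) : HolH f e c := by
  obtain ⟨G, hG, hGF⟩ := h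
  have hca : c < a := hce.trans hea
  have hd : ∀ s ∈ HP c, AnalyticAt ℂ (fun s => G (zs a c s)) s := by
    intro s hs
    have h1 : AnalyticAt ℂ G (zs a c s) := hG.analyticOnNhd Metric.isOpen_ball _ (by simpa using zs_norm hca hs)
    exact h1.comp (zs_analytic hca hs)
  refine ⟨fun s => G (zs a c s), fun s hs => (hd s hs).differentiableAt.differentiableWithinAt, ?_⟩
  intro s hs
  have hsub : HP e ⊆ HP c := fun s hs => lt_trans hce hs
  have haE : (a : ℂ) ∈ HP e := show e < (a : ℂ).re by simpa using hea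
  refine AnalyticOnNhd.eqOn_of_preconnected_of_eventuallyEq (fun s hs => hd s (hsub hs))
    (hf.analyticOnNhd (HP_open e)) (HP_pre e) haE ?_ hs
  filter_upwards [(near_zs hca).eventually hGF, (HP_open e).mem_nhds haE] with s h1 h2
  rw [h1]
  unfold FF
  rw [sz_zs hca (hsub h2)]

lemma MerExt.merH {f : ℂ → ℂ} (hf : DifferentiableOn ℂ f (HP e)) (hce : c < e) (hea : e < a)
    (h : MerExt (FF f a c)) : MerH f e c := by
  obtain ⟨G, hG, hGF⟩ := h
  have hca : c < a := hce.trans hea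
  have hsub : HP e ⊆ HP c := fun s hs => lt_trans hce hs
  have haE : (a : ℂ) ∈ HP e := show e < (a : ℂ).re by simpa using hea
  refine ⟨fun s => G (zs a c s), fun s hs => ?_, ?_⟩
  · have h1 : MeromorphicAt G (zs a c s) := (hG _ (by simpa using zs_norm hca hs)).meromorphicAt
    exact h1.comp_analyticAt (zs_analytic hca hs)
  · intro s hs
    have hsE : s ∈ HP e := hs
    -- the image of the half-plane `Re s > e`
    have hU : IsConnected (zs a c '' HP e) :=
      ⟨⟨_, ⟨a, haE, rfl⟩⟩, (HP_pre e).image _ fun s hs => (zs_analytic hca (hsub hs)).continuousAt.continuousWithinAt⟩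
    have hGm : MeromorphicOn G (zs a c '' HP e) := by
      rintro _ ⟨t, ht, rfl⟩
      exact (hG _ (by simpa using zs_norm hca (hsub ht))).meromorphicAt
    have hFa : ∀ t ∈ HP e, AnalyticAt ℂ (FF f a c) (zs a c t) := by
      intro t ht
      refine FF_analytic hf (ne_one_of_norm (zs_norm hca (hsub ht))) ?_
      rw [sz_zs hca (hsub ht)]
      exact ht
    have hFm : MeromorphicOn (FF f a c) (zs a c '' HP e) := by
      rintro _ ⟨t, ht, rfl⟩
      exact (hFa t ht).meromorphicAt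
    have h0 : (0 : ℂ) ∈ zs a c '' HP e := ⟨a, haE, zs_a⟩
    have h1 : G =ᶠ[𝓝[≠] (zs a c s)] FF f a c :=
      mer_ident hU hGm hFm h0 (hGF.filter_mono nhdsWithin_le_nhds) ⟨s, hsE, rfl⟩
    have h2 := (MeromorphicNFAt.eventuallyEq_nhdsNE_iff_eventuallyEq_nhds
      (hG _ (by simpa using zs_norm hca (hsub hsE))) (hFa s hsE).meromorphicNFAt).1 h1
    have h3 := h2.eq_of_nhds
    simp only
    rw [h3]
    unfold FF
    rw [sz_zs hca (hsub hsE)]

/-! ### Real coefficients -/

lemma tc_real {f : ℂ → ℂ} (hf : DifferentiableOn ℂ f (HP e)) (hea : e < a)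
    (hreal : ∀ s : ℂ, e < s.re → f ((starRingEnd ℂ) s) = (starRingEnd ℂ) (f s)) (k : ℕ) :
    (((tc f a k).re : ℝ) : ℂ) = tc f a k := by
  have hball : DifferentiableOn ℂ f (Metric.ball (a : ℂ) (a - e)) := hf.mono ball_sub
  have hev : ∀ᶠ w in 𝓝 (0 : ℂ), ‖w‖ < a - e := by
    filter_upwards [Metric.ball_mem_nhds (0 : ℂ) (sub_pos.2 hea)] with z hz
    simpa using hz
  have h1 : (fun k => (starRingEnd ℂ) (tc f a k)) = tc f a := by
    refine coeff_unique (H := fun w => f ((a : ℂ) + w)) ?_ ?_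
    · filter_upwards [hev] with w hw
      have h2 := tc_hasSum hball (w := (starRingEnd ℂ) w) (by rwa [RCLike.norm_conj])
      have h3 := Complex.hasSum_conj'.2 h2
      have h4 : (a : ℂ) + (starRingEnd ℂ) w = (starRingEnd ℂ) ((a : ℂ) + w) := by
        rw [map_add, Complex.conj_ofReal]
      have h5 : e < ((a : ℂ) + w).re := ball_sub (e := e) (a := a) (by simpa [Metric.mem_ball, dist_eq_norm] using hw)
      rw [h4, hreal _ h5] at h3
      simpa using h3
    · filter_upwards [hev] with w hw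
      exact tc_hasSum hball hw
  exact Complex.conj_eq_iff_re.1 (congrFun h1 k)

/-- the coefficients for a function with real values on the real line -/
noncomputable def AR (f : ℂ → ℂ) (a c : ℝ) (n : ℕ) : ℝ := compR (fun k => (tc f a k).re) (2 * (a - c)) n

lemma AR_hasSum {f : ℂ → ℂ} (hf : DifferentiableOn ℂ f (HP e)) (hea : e < a) (hca : c < a)
    (hreal : ∀ s : ℂ, e < s.re → f ((starRingEnd ℂ) s) = (starRingEnd ℂ) (f s)) :
    ∀ᶠ z in 𝓝 (0 : ℂ), HasSum (fun n => (AR f a c n : ℂ) * z ^ n) (FF f a c z) := by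
  filter_upwards [FF_hasSum hf hea hca] with z hz
  refine hz.congr_fun ?_ |> fun h => h
  intro n
  unfold AR
  rw [compR_cast]
  have : (fun k => (((tc f a k).re : ℝ) : ℂ)) = tc f a := funext fun k => tc_real hf hea hreal k
  rw [this]

/-- **Holomorphic continuation to a half-plane** -/
theorem hol_half {f : ℂ → ℂ} (hf : DifferentiableOn ℂ f (HP e)) (hce : c < e) (hea : e < a)
    (hreal : ∀ s : ℂ, e < s.re → f ((starRingEnd ℂ) s) = (starRingEnd ℂ) (f s)) :
    (HolH f e c ↔ Low (AR f a c)) ∧ (HolH f e c ↔ Upp (AR f a c)) ∧ (HolH f e c ↔ Bdd (AR f a c)) := by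
  have hca : c < a := hce.trans hea
  have h0 := AR_hasSum hf hea hca hreal
  have hF := FF_real hf hea hca
  have h1 : HolH f e c → Bdd (AR f a c) := fun h => (h.holExt hea hca).bdd h0
  have h2 : Bdd (AR f a c) → HolH f e c := fun h => (h.holExt h0).holH hf hce hea
  exact ⟨⟨fun h => (h1 h).low, fun h => h2 (h.bdd hF h0)⟩, ⟨fun h => (h1 h).upp, fun h => h2 (h.bdd hF h0)⟩, ⟨h1, h2⟩⟩

/-- **Meromorphic continuation to a half-plane** -/
theorem mer_half {f : ℂ → ℂ} (hf : DifferentiableOn ℂ f (HP e)) (hce : c < e) (hea : e < a)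
    (hreal : ∀ s : ℂ, e < s.re → f ((starRingEnd ℂ) s) = (starRingEnd ℂ) (f s)) :
    (MerH f e c ↔ MerLow (AR f a c)) ∧ (MerH f e c ↔ MerBdd (AR f a c)) := by
  have hca : c < a := hce.trans hea
  have h0 := AR_hasSum hf hea hca hreal
  have hF := FF_real hf hea hca
  have h1 : MerH f e c → MerBdd (AR f a c) := by
    rintro ⟨g, hg, hgf⟩
    refine MerExt.merBdd (G := fun z => g (sz a c z)) h0 (fun z hz => ?_) ?_
    · rw [Metric.mem_ball, dist_zero_right] at hz
      exact (hg _ (sz_re hca hz)).comp_analyticAt (sz_analytic (ne_one_of_norm hz))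
    · filter_upwards [near_a (c := c) hea] with z hz
      exact hgf _ hz
  have h2 : MerLow (AR f a c) → MerH f e c := fun h => (h.merExt hF h0).merH hf hce hea
  exact ⟨⟨fun h => (h1 h).low, h2⟩, ⟨h1, fun h => h2 h.low⟩⟩

end

end Pool.Agent.U156.OS
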