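import Pool.Agent.U156.OS.Mer

/-!
# The conformal coordinate `w = β z / (1 - z)`
-/

set_option autoImplicit false

open Complex Filter Topology Finset

namespace Pool.Agent.U156.OS

/-- the coefficients of `∑ c_k (β z / (1 - z))^k` as a power series in `z` -/
noncomputable def compC (c : ℕ → ℂ) (β : ℝ) (n : ℕ) : ℂ :=
  if n = 0 then c 0 else ∑ k ∈ range n, ((n - 1).choose k : ℂ) * (β : ℂ) ^ (k + 1) * c (k + 1)

/-- the same for real coefficients -/
noncomputable def compR (c : ℕ → ℝ) (β : ℝ) (n : ℕ) : ℝ :=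
  if n = 0 then c 0 else ∑ k ∈ range n, ((n - 1).choose k : ℝ) * β ^ (k + 1) * c (k + 1)

lemma compR_cast (c : ℕ → ℝ) (β : ℝ) (n : ℕ) : ((compR c β n : ℝ) : ℂ) = compC (fun k => (c k : ℂ)) β n := by
  unfold compR compC
  split_ifs
  · rfl
  · push_cast
    rfl

lemma compC_re (c : ℕ → ℂ) (β : ℝ) (n : ℕ) : (compC c β n).re = compR (fun k => (c k).re) β n := by
  unfold compR compC
  split_ifs
  · rfl
  · rw [Complex.re_sum]
    refine Finset.sum_congr rfl fun k _ => ?_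
    have : ((n - 1).choose k : ℂ) * (β : ℂ) ^ (k + 1) = (((n - 1).choose k : ℝ) * β ^ (k + 1) : ℝ) := by
      push_cast; rfl
    rw [this, Complex.re_ofReal_mul]

lemma compC_im (c : ℕ → ℂ) (β : ℝ) (n : ℕ) : (compC c β n).im = compR (fun k => (c k).im) β n := by
  unfold compR compC
  split_ifs
  · rfl
  · rw [Complex.im_sum]
    refine Finset.sum_congr rfl fun k _ => ?_
    have : ((n - 1).choose k : ℂ) * (β : ℂ) ^ (k + 1) = (((n - 1).choose k : ℝ) * β ^ (k + 1) : ℝ) := by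
      push_cast; rfl
    rw [this, Complex.im_ofReal_mul]

lemma compR_hasSum_param {ι : Type*} {c : ι → ℕ → ℝ} {C : ℕ → ℝ} (h : ∀ k, HasSum (fun i => c i k) (C k)) (β : ℝ) (n : ℕ) :
    HasSum (fun i => compR (c i) β n) (compR C β n) := by
  unfold compR
  split_ifs
  · exact h 0
  · exact hasSum_sum fun k _ => (h (k + 1)).mul_left _

/-- the expansion of a power of `z / (1 - z)` -/
lemma pow_hasSum (z : ℂ) (hz : ‖z‖ < 1) (k : ℕ) :
    HasSum (fun m : ℕ => ((m + k).choose k : ℂ) * z ^ (k + 1 + m)) ((z / (1 - z)) ^ (k + 1)) := by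
  have h1 := (hasSum_choose_mul_geometric_of_norm_lt_one k hz).mul_left (z ^ (k + 1))
  rw [mul_one_div, ← div_pow] at h1
  refine h1.congr_fun ?_ |> fun h => h
  intro m
  rw [pow_add z (k + 1) m]
  ring

lemma pow_hasSum_real (x : ℝ) (hx0 : 0 ≤ x) (hx : x < 1) (k : ℕ) :
    HasSum (fun m : ℕ => ((m + k).choose k : ℝ) * x ^ (k + 1 + m)) ((x / (1 - x)) ^ (k + 1)) := by
  have h1 := (hasSum_choose_mul_geometric_of_norm_lt_one k (r := x)
    (by rw [Real.norm_eq_abs, abs_of_nonneg hx0]; exact hx)).mul_left (x ^ (k + 1))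
  rw [mul_one_div, ← div_pow] at h1
  refine h1.congr_fun ?_ |> fun h => h
  intro m
  rw [pow_add x (k + 1) m]
  ring

theorem comp_hasSum {c : ℕ → ℂ} {β : ℝ} (hβ : 0 ≤ β) {ρ : ℝ} (hc : Summable fun k => ‖c k‖ * ρ ^ k) {z : ℂ}
    (hz : ‖z‖ < 1) (hzρ : β * (‖z‖ / (1 - ‖z‖)) ≤ ρ) :
    HasSum (fun n => compC c β n * z ^ n) (∑' k, c k * ((β : ℂ) * (z / (1 - z))) ^ k) := by
  have hx : 0 ≤ ‖z‖ / (1 - ‖z‖) := div_nonneg (norm_nonneg _) (by linarith)
  have hρ : 0 ≤ ρ := (mul_nonneg hβ hx).trans hzρ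
  -- the double family
  obtain ⟨u, hu⟩ : ∃ u : ℕ × ℕ → ℂ, u = fun q =>
      (c (q.1 + 1) * (β : ℂ) ^ (q.1 + 1)) * (((q.2 + q.1).choose q.1 : ℂ) * z ^ (q.1 + 1 + q.2)) := ⟨_, rfl⟩
  have hnorm : ∀ q, ‖u q‖ = (‖c (q.1 + 1)‖ * β ^ (q.1 + 1)) *
      (((q.2 + q.1).choose q.1 : ℝ) * ‖z‖ ^ (q.1 + 1 + q.2)) := by
    intro q
    rw [hu]
    simp only [norm_mul, norm_pow, Complex.norm_natCast, Complex.norm_real, Real.norm_eq_abs, abs_of_nonneg hβ]
  have hrow : ∀ k, HasSum (fun m => ‖u (k, m)‖) ((‖c (k + 1)‖ * β ^ (k + 1)) * (‖z‖ / (1 - ‖z‖)) ^ (k + 1)) := by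
    intro k
    have := (pow_hasSum_real ‖z‖ (norm_nonneg _) hz k).mul_left (‖c (k + 1)‖ * β ^ (k + 1))
    refine this.congr_fun ?_ |> fun h => h
    intro m
    rw [hnorm]
  have hs : Summable u := by
    refine Summable.of_norm ?_
    rw [summable_prod_of_nonneg (fun q => norm_nonneg _)]
    refine ⟨fun k => (hrow k).summable, ?_⟩
    have h1 : Summable fun k => ‖c (k + 1)‖ * ρ ^ (k + 1) := (summable_nat_add_iff 1).2 hc
    refine Summable.of_nonneg_of_le (fun k => tsum_nonneg fun m => norm_nonneg _) (fun k => ?_) h1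
    rw [(hrow k).tsum_eq, mul_assoc, ← mul_pow]
    refine mul_le_mul_of_nonneg_left (pow_le_pow_left₀ (mul_nonneg hβ hx) hzρ _) (norm_nonneg _)
  -- summation by rows
  have hrow' : ∀ k, HasSum (fun m => u (k, m)) (c (k + 1) * ((β : ℂ) * (z / (1 - z))) ^ (k + 1)) := by
    intro k
    have := (pow_hasSum z hz k).mul_left (c (k + 1) * (β : ℂ) ^ (k + 1))
    rw [mul_pow, ← mul_assoc]
    refine this.congr_fun ?_ |> fun h => h
    intro m
    rw [hu]
  have h2 : HasSum (fun k => c (k + 1) * ((β : ℂ) * (z / (1 - z))) ^ (k + 1)) (∑' q, u q) :=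
    hs.hasSum.prod_fiberwise hrow'
  -- summation by antidiagonals
  have h3 : HasSum (fun n : ℕ => ∑ q ∈ antidiagonal n, u q) (∑' q, u q) := by
    have e1 := (HasAntidiagonal.sigmaAntidiagonalEquivProd (A := ℕ)).hasSum_iff.2 hs.hasSum
    refine e1.sigma fun n => ?_
    have e2 := hasSum_fintype (fun q : antidiagonal n => u q)
    rw [Finset.sum_coe_sort (antidiagonal n) u] at e2
    exact e2
  have h4 : HasSum (fun n : ℕ => compC c β (n + 1) * z ^ (n + 1)) (∑' q, u q) := by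
    refine h3.congr_fun ?_ |> fun h => h
    intro n
    unfold compC
    rw [if_neg (Nat.succ_ne_zero n), Finset.sum_mul,
      Finset.Nat.sum_antidiagonal_eq_sum_range_succ_mk]
    refine Finset.sum_congr rfl fun k hk => ?_
    rw [Finset.mem_range] at hk
    rw [hu]
    simp only
    have e3 : n - k + k = n := by omega
    have e4 : k + 1 + (n - k) = n + 1 := by omega
    rw [e3, e4, Nat.add_sub_cancel]
    ring
  have h5 : HasSum (fun n => compC c β n * z ^ n) ((∑' q, u q) + c 0) := by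
    have := (hasSum_nat_add_iff (f := fun n => compC c β n * z ^ n) 1).1 h4
    simpa [compC] using this
  have h6 : HasSum (fun k => c k * ((β : ℂ) * (z / (1 - z))) ^ k) ((∑' q, u q) + c 0) := by
    have := (hasSum_nat_add_iff (f := fun k => c k * ((β : ℂ) * (z / (1 - z))) ^ k) 1).1 h2
    simpa using this
  rw [h6.tsum_eq]
  exact h5

end Pool.Agent.U156.OS
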