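import Pool.Agent.U156.OS.Trace
import Pool.Agent.W715.VC.TrPow

/-!
# Euler products given by matrices
-/

set_option autoImplicit false

open Complex Filter Topology Finset

namespace Pool.Agent.U156.OS

lemma exists_fin {D : ℕ} (S : Multiset ℂ) (h : Multiset.card S = D) :
    ∃ α : Fin D → ℂ, S = Finset.univ.val.map α := by
  induction S using Quotient.inductionOn with
  | h l =>
    have h' : l.length = D := h
    subst h'
    refine ⟨fun i => l.get i, ?_⟩
    rw [Fin.univ_val_map, List.ofFn_get]
    rfl

/-- the eigenvalues of a matrix -/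
lemma eigs {D : ℕ} (F : Matrix (Fin D) (Fin D) ℂ) :
    ∃ α : Fin D → ℂ, (∀ j, F.charpoly.IsRoot (α j)) ∧ (∀ k : ℕ, (F ^ (k + 1)).trace = ∑ j, α j ^ (k + 1)) ∧
      ∀ x : ℂ, x ≠ 0 → (1 - x • F).det = ∏ j, (1 - α j * x) := by
  have hne : F.charpoly ≠ 0 := (Matrix.charpoly_monic F).ne_zero
  have hcard : Multiset.card F.charpoly.roots = D := by
    rw [← (IsAlgClosed.splits F.charpoly).natDegree_eq_card_roots, Matrix.charpoly_natDegree_eq_dim]
    simp
  obtain ⟨α, hα⟩ := exists_fin F.charpoly.roots hcard
  refine ⟨α, fun j => ?_, fun k => ?_, fun x hx => ?_⟩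
  · have h1 : α j ∈ F.charpoly.roots := by
      rw [hα]
      exact Multiset.mem_map_of_mem α (Finset.mem_univ_val j)
    exact (Polynomial.mem_roots hne).1 h1
  · rw [Pool.Agent.W715.VC.trace_pow F (Nat.succ_ne_zero k), hα, Multiset.map_map]
    rfl
  · have h1 : F.charpoly = (F.charpoly.roots.map fun a => Polynomial.X - Polynomial.C a).prod := by
      have := (IsAlgClosed.splits F.charpoly).eq_prod_roots
      rwa [(Matrix.charpoly_monic F).leadingCoeff, Polynomial.C_1, one_mul] at this
    have h2 : F.charpoly.eval x⁻¹ = ∏ j, (x⁻¹ - α j) := by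
      rw [h1, Polynomial.eval_multiset_prod, Multiset.map_map, hα, Multiset.map_map]
      show (Finset.univ.val.map _).prod = _
      refine congrArg Multiset.prod (Multiset.map_congr rfl fun j _ => ?_)
      simp
    rw [Matrix.eval_charpoly] at h2
    have h3 : 1 - x • F = x • (Matrix.scalar (Fin D) x⁻¹ - F) := by
      rw [smul_sub]
      congr 1
      rw [Matrix.scalar_apply]
      ext i j
      rw [Matrix.smul_apply, Matrix.diagonal_apply, Matrix.one_apply]
      split_ifs
      · simp [hx]
      · simp
    have h4 : x ^ D = ∏ _j : Fin D, x := by simp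
    rw [h3, Matrix.det_smul, h2, Fintype.card_fin, h4, ← Finset.prod_mul_distrib]
    refine Finset.prod_congr rfl fun j _ => ?_
    rw [mul_sub, mul_inv_cancel₀ hx]
    ring

end Pool.Agent.U156.OS
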