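import Pool.Agent.U156.OS.Disc

/-!
# Criteria on the unit disc: meromorphic continuation
-/

set_option autoImplicit false

open Complex Filter Topology Finset

namespace Pool.Agent.U156.OS

/-! ### Identity theorem and gluing for meromorphic functions -/

lemma mer_ident {U : Set ℂ} (hU : IsConnected U) {f g : ℂ → ℂ} (hf : MeromorphicOn f U)
    (hg : MeromorphicOn g U) {a : ℂ} (ha : a ∈ U) (h : f =ᶠ[𝓝[≠] a] g) {s : ℂ} (hs : s ∈ U) :
    f =ᶠ[𝓝[≠] s] g := by
  have h1 : MeromorphicOn (f - g) U := hf.sub hg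
  have h2 := h1.exists_meromorphicOrderAt_ne_top_iff_forall hU
  have h3 : meromorphicOrderAt (f - g) a = ⊤ := by
    rw [meromorphicOrderAt_eq_top_iff]
    filter_upwards [h] with z hz
    simp [hz]
  have h4 : meromorphicOrderAt (f - g) s = ⊤ := by
    by_contra hne
    exact (h2.1 ⟨⟨s, hs⟩, hne⟩) ⟨a, ha⟩ h3
  rw [meromorphicOrderAt_eq_top_iff] at h4
  filter_upwards [h4] with z hz
  simpa [sub_eq_zero] using hz

/-- gluing of meromorphic functions on increasing discs -/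
lemma mer_glue {D : ℕ → Set ℂ} (hDo : ∀ k, IsOpen (D k)) (hDc : ∀ k, IsPreconnected (D k)) {a : ℂ}
    (ha : ∀ k, a ∈ D k) (hm : Monotone D ∨ Antitone D ∨ ∀ i j, D i ⊆ D j ∨ D j ⊆ D i)
    {g : ℕ → ℂ → ℂ} (hg : ∀ k, MeromorphicOn (g k) (D k))
    {F : ℂ → ℂ} (hF : ∀ k, g k =ᶠ[𝓝[≠] a] F) :
    ∃ G : ℂ → ℂ, (∀ k, ∀ s ∈ D k, MeromorphicNFAt G s ∧ G =ᶠ[𝓝[≠] s] g k) := by
  classical
  have hm' : ∀ i j, D i ⊆ D j ∨ D j ⊆ D i := by
    rcases hm with h | h | h
    · intro i j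
      rcases le_total i j with h1 | h1
      · exact Or.inl (h h1)
      · exact Or.inr (h h1)
    · intro i j
      rcases le_total i j with h1 | h1
      · exact Or.inr (h h1)
      · exact Or.inl (h h1)
    · exact h
  -- any two of the functions agree on the common domain
  have hag : ∀ i j, ∀ s ∈ D i, s ∈ D j → g i =ᶠ[𝓝[≠] s] g j := by
    have hw : ∀ i j, D i ⊆ D j → ∀ s ∈ D i, g i =ᶠ[𝓝[≠] s] g j := by
      intro i j hij s hs
      exact mer_ident ⟨⟨a, ha i⟩, hDc i⟩ (hg i) (fun z hz => hg j z (hij hz)) (ha i)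
        ((hF i).trans (hF j).symm) hs
    intro i j s hi hj
    rcases hm' i j with h | h
    · exact hw i j h s hi
    · exact (hw j i h s hj).symm
  have hval : ∀ i j, ∀ s ∈ D i, s ∈ D j → toMeromorphicNFAt (g i) s s = toMeromorphicNFAt (g j) s s := by
    intro i j s hi hj
    have h1 : toMeromorphicNFAt (g i) s =ᶠ[𝓝[≠] s] toMeromorphicNFAt (g j) s := by
      have e1 := (hg i s hi).eq_nhdsNE_toMeromorphicNFAt
      have e2 := (hg j s hj).eq_nhdsNE_toMeromorphicNFAt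
      exact (e1.symm.trans (hag i j s hi hj)).trans e2
    have h2 := (MeromorphicNFAt.eventuallyEq_nhdsNE_iff_eventuallyEq_nhds
      meromorphicNFAt_toMeromorphicNFAt meromorphicNFAt_toMeromorphicNFAt).1 h1
    exact h2.eq_of_nhds
  obtain ⟨G, hG⟩ : ∃ G : ℂ → ℂ, ∀ k, ∀ s ∈ D k, G s = toMeromorphicNFAt (g k) s s := by
    refine ⟨fun s => if h : ∃ k, s ∈ D k then toMeromorphicNFAt (g h.choose) s s else 0, ?_⟩
    intro k s hs
    have h : ∃ k, s ∈ D k := ⟨k, hs⟩
    simp only [h, dif_pos]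
    exact hval _ _ s h.choose_spec hs
  refine ⟨G, fun k s hs => ?_⟩
  have hev : G =ᶠ[𝓝 s] toMeromorphicNFOn (g k) (D k) := by
    filter_upwards [(hDo k).mem_nhds hs] with z hz
    rw [hG k z hz, toMeromorphicNFOn_eq_toMeromorphicNFAt (hg k) hz]
  refine ⟨?_, ?_⟩
  · rw [meromorphicNFAt_congr hev]
    exact meromorphicNFOn_toMeromorphicNFOn (g k) (D k) hs
  · have h1 := hev.filter_mono (nhdsWithin_le_nhds (s := {s}ᶜ))
    refine h1.trans ?_
    exact MeromorphicOn.toMeromorphicNFOn_eq_self_on_nhdsNE (hg k) hs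

/-! ### Clearing the poles on a compact set by a real polynomial -/

/-- the value of a real polynomial -/
noncomputable def ev (q : Polynomial ℝ) (z : ℂ) : ℂ := Polynomial.aeval z q

lemma ev_analytic (q : Polynomial ℝ) (z : ℂ) : AnalyticAt ℂ (ev q) z := by
  unfold ev
  have h : (fun w : ℂ => Polynomial.aeval w q) = fun w => (q.map (algebraMap ℝ ℂ)).eval w := by
    funext w
    rw [Polynomial.eval_map, Polynomial.aeval_def]
  rw [h]
  exact (Polynomial.differentiable _).analyticAt z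

lemma ev_mul (p q : Polynomial ℝ) (z : ℂ) : ev (p * q) z = ev p z * ev q z := by
  unfold ev
  rw [map_mul]

/-- a nonzero polynomial has no zeros in a punctured neighbourhood -/
lemma ev_ne {q : Polynomial ℝ} (hq : q ≠ 0) (s : ℂ) : ∀ᶠ z in 𝓝[≠] s, ev q z ≠ 0 := by
  have h1 : (q.map (algebraMap ℝ ℂ)) ≠ 0 := (Polynomial.map_ne_zero_iff (algebraMap ℝ ℂ).injective).2 hq
  have h2 : {z : ℂ | ev q z = 0}.Finite := by
    refine ((q.map (algebraMap ℝ ℂ)).rootSet_finite ℂ).subset fun z hz => ?_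
    rw [Polynomial.mem_rootSet]
    refine ⟨h1, ?_⟩
    unfold ev at hz
    rw [Set.mem_ofPred_eq, Polynomial.aeval_def] at hz
    rw [Polynomial.coe_aeval_eq_eval, Polynomial.eval_map]
    exact hz
  have h3 : ({z : ℂ | ev q z = 0} \ {s})ᶜ ∈ 𝓝 s :=
    (h2.subset Set.sdiff_subset).isClosed.isOpen_compl.mem_nhds (by simp)
  rw [eventually_nhdsWithin_iff]
  filter_upwards [h3] with z hz hzs h0
  exact hz ⟨h0, hzs⟩

/-- the real polynomial with the zeros `u`, `conj u` -/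
noncomputable def quad (u : ℂ) : Polynomial ℝ :=
  Polynomial.X ^ 2 - Polynomial.C (2 * u.re) * Polynomial.X + Polynomial.C (Complex.normSq u)

lemma quad_monic (u : ℂ) : (quad u).Monic := by
  unfold quad
  monicity!

lemma ev_quad (u z : ℂ) : ev (quad u) z = (z - u) * (z - (starRingEnd ℂ) u) := by
  unfold ev quad
  simp only [map_add, map_sub, map_mul, map_pow, Polynomial.aeval_X, Polynomial.aeval_C]
  have h1 : (algebraMap ℝ ℂ) (2 * u.re) = u + (starRingEnd ℂ) u := by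
    rw [Complex.add_conj]
    rfl
  have h2 : (algebraMap ℝ ℂ) (Complex.normSq u) = u * (starRingEnd ℂ) u := by
    rw [Complex.mul_conj]
    rfl
  rw [map_mul] at h1
  rw [h1, h2]
  ring

lemma exists_poly {K : Set ℂ} (hK : IsCompact K) {G : ℂ → ℂ} (hG : ∀ z ∈ K, MeromorphicAt G z) :
    ∃ q : Polynomial ℝ, q ≠ 0 ∧ ∀ z ∈ K, AnalyticAt ℂ (fun w => ev q w * G w) z := by
  refine hK.induction_on (p := fun S => ∃ q : Polynomial ℝ, q ≠ 0 ∧ ∀ z ∈ S, AnalyticAt ℂ (fun w => ev q w * G w) z)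
    ?_ ?_ ?_ ?_
  · exact ⟨1, one_ne_zero, fun z hz => absurd hz (by simp)⟩
  · rintro s t hst ⟨q, hq, h⟩
    exact ⟨q, hq, fun z hz => h z (hst hz)⟩
  · rintro s t ⟨q, hq, h⟩ ⟨q', hq', h'⟩
    refine ⟨q * q', mul_ne_zero hq hq', fun z hz => ?_⟩
    rcases hz with hz | hz
    · have := (ev_analytic q' z).mul (h z hz)
      refine this.congr (Eventually.of_forall fun w => ?_)
      simp only [Pi.mul_apply, ev_mul]
      ring
    · have := (ev_analytic q z).mul (h' z hz)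
      refine this.congr (Eventually.of_forall fun w => ?_)
      simp only [Pi.mul_apply, ev_mul]
      ring
  · intro x hx
    obtain ⟨n, hn⟩ := hG x hx
    refine ⟨{w | AnalyticAt ℂ (fun z => (z - x) ^ n • G z) w}, ?_, quad x ^ n, ?_, ?_⟩
    · exact mem_nhdsWithin_of_mem_nhds ((isOpen_analyticAt ℂ _).mem_nhds hn)
    · exact pow_ne_zero _ (quad_monic x).ne_zero
    · intro z hz
      have h1 : AnalyticAt ℂ (fun w : ℂ => (w - (starRingEnd ℂ) x) ^ n) z := by fun_prop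
      refine (h1.mul hz).congr (Eventually.of_forall fun w => ?_)
      have h2 : ev (quad x ^ n) w = ((w - x) * (w - (starRingEnd ℂ) x)) ^ n := by
        rw [← ev_quad]
        unfold ev
        rw [map_pow]
      simp only [Pi.mul_apply, smul_eq_mul]
      rw [h2, mul_pow]
      ring

/-! ### Multiplication by a polynomial -/

/-- the combination `∑ p_j A_{n-j}` -/
def conv (p : Polynomial ℝ) (A : ℕ → ℝ) (n : ℕ) : ℝ := ∑ q ∈ antidiagonal n, p.coeff q.1 * A q.2

lemma ev_hasSum (p : Polynomial ℝ) (z : ℂ) : HasSum (fun n => (p.coeff n : ℂ) * z ^ n) (ev p z) := by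
  have h : ev p z = ∑ n ∈ Finset.range (p.natDegree + 1), (p.coeff n : ℂ) * z ^ n := by
    unfold ev
    rw [Polynomial.aeval_eq_sum_range]
    refine Finset.sum_congr rfl fun n _ => ?_
    rw [Complex.real_smul]
  rw [h]
  refine hasSum_sum_of_ne_finset_zero fun n hn => ?_
  rw [Finset.mem_range, not_lt] at hn
  rw [Polynomial.coeff_eq_zero_of_natDegree_lt (by omega)]
  simp

lemma conv_hasSum (p : Polynomial ℝ) {A : ℕ → ℝ} {z w : ℂ} (h : HasSum (fun n => (A n : ℂ) * z ^ n) w) :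
    HasSum (fun n => (conv p A n : ℂ) * z ^ n) (ev p z * w) := by
  have h1 : Summable fun n => ‖(p.coeff n : ℂ) * z ^ n‖ := (ev_hasSum p z).summable.norm
  have h2 : Summable fun n => ‖(A n : ℂ) * z ^ n‖ := h.summable.norm
  have h3 := tsum_mul_tsum_eq_tsum_sum_antidiagonal_of_summable_norm h1 h2
  have h4 := (summable_norm_sum_mul_antidiagonal_of_summable_norm h1 h2).of_norm
  rw [(ev_hasSum p z).tsum_eq, h.tsum_eq] at h3
  rw [h3]
  refine h4.hasSum.congr_fun ?_ |> fun h => h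
  intro n
  unfold conv
  push_cast
  rw [Finset.sum_mul]
  refine Finset.sum_congr rfl fun q hq => ?_
  rw [← HasAntidiagonal.mem_antidiagonal.1 hq, pow_add]
  ring

/-! ### The criterion -/

/-- for each `ε > 0` some nonzero real combination of finitely many consecutive coefficients is at
least `- C exp (ε n)` -/
def MerLow (A : ℕ → ℝ) : Prop :=
  ∀ ε : ℝ, 0 < ε → ∃ p : Polynomial ℝ, p ≠ 0 ∧ ∃ C : ℝ, ∀ n : ℕ, -(C * Real.exp (ε * n)) ≤ conv p A n

/-- the two-sided form -/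
def MerBdd (A : ℕ → ℝ) : Prop :=
  ∀ ε : ℝ, 0 < ε → ∃ p : Polynomial ℝ, p ≠ 0 ∧ ∃ C : ℝ, ∀ n : ℕ, |conv p A n| ≤ C * Real.exp (ε * n)

/-- `F` extends from a neighbourhood of `0` to a meromorphic function on the unit disc (normal form) -/
def MerExt (F : ℂ → ℂ) : Prop :=
  ∃ G : ℂ → ℂ, (∀ s ∈ Metric.ball (0 : ℂ) 1, MeromorphicNFAt G s) ∧ G =ᶠ[𝓝 0] F

theorem MerLow.merExt {A : ℕ → ℝ} {F : ℂ → ℂ}
    (hF : ∀ x ∈ Set.Ico (0 : ℝ) 1, AnalyticAt ℂ F (x : ℂ))
    (h0 : ∀ᶠ z in 𝓝 (0 : ℂ), HasSum (fun n => (A n : ℂ) * z ^ n) (F z)) (h : MerLow A) : MerExt F := by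
  have hpos : ∀ k : ℕ, (0 : ℝ) < 1 / ((k : ℝ) + 1) := fun k => by positivity
  choose p hp C hC using fun k : ℕ => h (1 / ((k : ℝ) + 1)) (hpos k)
  -- the radii
  obtain ⟨ρ, hρ⟩ : ∃ ρ : ℕ → ℝ, ρ = fun k : ℕ => Real.exp (-(2 * (1 / ((k : ℝ) + 1)))) := ⟨_, rfl⟩
  have hρpos : ∀ k, 0 < ρ k := fun k => by rw [hρ]; exact Real.exp_pos _
  have hs : ∀ k, Summable fun n => |conv (p k) A n| * ρ k ^ n := by
    intro k
    rw [hρ]
    refine one_sided (δ := 1 / ((k : ℝ) + 1)) (F := fun z => ev (p k) z * F z) (by linarith [hpos k]) ?_ ?_ (hC k)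
    · intro x hx
      refine (ev_analytic _ _).mul (hF x ⟨hx.1, hx.2.trans_le ?_⟩)
      rw [Real.exp_le_one_iff]
      linarith [hpos k]
    · filter_upwards [h0] with z hz
      exact conv_hasSum (p k) hz
  have hs' : ∀ k, Summable fun n => ‖(conv (p k) A n : ℂ)‖ * ρ k ^ n := by
    intro k
    refine (hs k).congr fun n => ?_
    rw [Complex.norm_real, Real.norm_eq_abs]
  obtain ⟨P, hP⟩ : ∃ P : ℕ → ℂ → ℂ, P = fun k z => ∑' n, (conv (p k) A n : ℂ) * z ^ n := ⟨_, rfl⟩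
  have hPd : ∀ k, DifferentiableOn ℂ (P k) (Metric.ball 0 (ρ k)) := by
    intro k
    rw [hP]
    exact sum_diff (hs' k)
  obtain ⟨G, hG⟩ := mer_glue (D := fun k => Metric.ball (0 : ℂ) (ρ k)) (a := 0)
    (g := fun k z => P k z / ev (p k) z) (F := F)
    (fun k => Metric.isOpen_ball) (fun k => (convex_ball (0 : ℂ) (ρ k)).isPreconnected)
    (fun k => Metric.mem_ball_self (hρpos k))
    (Or.inr (Or.inr fun i j => by
      rcases le_total (ρ i) (ρ j) with h1 | h1
      · exact Or.inl (Metric.ball_subset_ball h1)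
      · exact Or.inr (Metric.ball_subset_ball h1)))
    (fun k s hs => by
      have h1 : AnalyticAt ℂ (P k) s := (hPd k).analyticOnNhd Metric.isOpen_ball s hs
      exact h1.meromorphicAt.div (ev_analytic (p k) s).meromorphicAt)
    (fun k => by
      have h1 : ∀ᶠ z in 𝓝[≠] (0 : ℂ), HasSum (fun n => (A n : ℂ) * z ^ n) (F z) :=
        h0.filter_mono nhdsWithin_le_nhds
      filter_upwards [h1, ev_ne (hp k) 0] with z hz1 hz2
      rw [hP]
      simp only
      rw [(conv_hasSum (p k) hz1).tsum_eq, mul_div_cancel_left₀ _ hz2])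
  refine ⟨G, fun s hs => ?_, ?_⟩
  · -- `s` lies in one of the discs
    rw [Metric.mem_ball, dist_zero_right] at hs
    have hlim : Tendsto ρ atTop (𝓝 1) := by
      rw [hρ]
      have h1 : Tendsto (fun k : ℕ => 1 / ((k : ℝ) + 1)) atTop (𝓝 0) := tendsto_one_div_add_atTop_nhds_zero_nat
      have h2 : Tendsto (fun k : ℕ => -(2 * (1 / ((k : ℝ) + 1)))) atTop (𝓝 (-(2 * 0))) := (h1.const_mul 2).neg
      have h3 := (Real.continuous_exp.tendsto _).comp h2
      simpa [Function.comp_def] using h3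
    obtain ⟨k, hk⟩ := (hlim.eventually (lt_mem_nhds hs)).exists
    exact (hG k s (by simpa using hk)).1
  · have h1 := hG 0 0 (Metric.mem_ball_self (hρpos 0))
    have h2 : G =ᶠ[𝓝[≠] 0] F := by
      refine h1.2.trans ?_
      have h3 : ∀ᶠ z in 𝓝[≠] (0 : ℂ), HasSum (fun n => (A n : ℂ) * z ^ n) (F z) :=
        h0.filter_mono nhdsWithin_le_nhds
      filter_upwards [h3, ev_ne (hp 0) 0] with z hz1 hz2
      rw [hP]
      simp only
      rw [(conv_hasSum (p 0) hz1).tsum_eq, mul_div_cancel_left₀ _ hz2]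
    have h4 : AnalyticAt ℂ F 0 := by
      have := hF 0 ⟨le_rfl, one_pos⟩
      simpa using this
    exact (MeromorphicNFAt.eventuallyEq_nhdsNE_iff_eventuallyEq_nhds h1.1 h4.meromorphicNFAt).1 h2

theorem MerExt.merBdd {A : ℕ → ℝ} {F G : ℂ → ℂ}
    (h0 : ∀ᶠ z in 𝓝 (0 : ℂ), HasSum (fun n => (A n : ℂ) * z ^ n) (F z))
    (hG : ∀ s ∈ Metric.ball (0 : ℂ) 1, MeromorphicAt G s) (hGF : G =ᶠ[𝓝 0] F) : MerBdd A := by
  intro ε hε
  have hr1 : Real.exp (-(ε / 2)) < 1 := by rw [Real.exp_lt_one_iff]; linarith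
  obtain ⟨q, hq, hqG⟩ := exists_poly (isCompact_closedBall (0 : ℂ) (Real.exp (-(ε / 2)))) (G := G)
    (fun z hz => hG z (Metric.closedBall_subset_ball hr1 hz))
  refine ⟨q, hq, ?_⟩
  have h1 : DifferentiableOn ℂ (fun w => ev q w * G w) (Metric.ball 0 (Real.exp (-(ε / 2)))) :=
    fun z hz => (hqG z (Metric.ball_subset_closedBall hz)).differentiableAt.differentiableWithinAt
  have h2 : ∀ᶠ z in 𝓝 (0 : ℂ), HasSum (fun n => (conv q A n : ℂ) * z ^ n) (ev q z * G z) := by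
    filter_upwards [h0, hGF] with z hz1 hz2
    rw [hz2]
    exact conv_hasSum q hz1
  have h3 := coef_summable h1 h2 (r := Real.exp (-ε)) (Real.exp_pos _).le
    (by rw [Real.exp_lt_exp]; linarith)
  refine ⟨∑' n, |conv q A n| * Real.exp (-ε) ^ n, fun n => ?_⟩
  have h4 : Summable fun n => |conv q A n| * Real.exp (-ε) ^ n := by
    refine h3.congr fun n => ?_
    rw [Complex.norm_real, Real.norm_eq_abs]
  have h5 := h4.le_tsum n (fun m _ => by positivity)
  have h6 : Real.exp (-ε) ^ n * Real.exp (ε * n) = 1 := by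
    rw [exp_nat, ← mul_pow, ← Real.exp_add]
    simp
  calc |conv q A n| = (|conv q A n| * Real.exp (-ε) ^ n) * Real.exp (ε * n) := by rw [mul_assoc, h6, mul_one]
    _ ≤ _ := mul_le_mul_of_nonneg_right h5 (by positivity)

lemma MerBdd.low {A : ℕ → ℝ} (h : MerBdd A) : MerLow A := by
  intro ε hε
  obtain ⟨p, hp, C, hC⟩ := h ε hε
  exact ⟨p, hp, C, fun n => (abs_le.1 (hC n)).1⟩

end Pool.Agent.U156.OS
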