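import Pool.Agent.U156.OS.MatE
import Pool.Agent.U156.OS.EKRes

/-!
# The criteria for Euler products given by matrices
-/

set_option autoImplicit false

open Complex Filter Topology Finset

namespace Pool.Agent.U156.OS

section
variable {D : ℕ} {B : ℝ}

/-- the Euler product -/
noncomputable def ML (F : Nat.Primes → Matrix (Fin D) (Fin D) ℂ) (s : ℂ) : ℂ :=
  ∏' p : Nat.Primes, ((1 - ((p : ℕ) : ℂ) ^ (-s) • F p).det)⁻¹

/-- the logarithmic coefficients -/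
noncomputable def ell (F : Nat.Primes → Matrix (Fin D) (Fin D) ℂ) (a c : ℝ) (n : ℕ) (x : Nat.Primes × ℕ) : ℂ :=
  ((F x.1 ^ (x.2 + 1)).trace / ((x.2 : ℂ) + 1)) *
    (((((x.1 : ℕ) : ℝ) ^ (-(((x.2 : ℝ) + 1) * a)) * lag n (2 * (a - c) * (((x.2 : ℝ) + 1) * Real.log (x.1 : ℕ))) : ℝ)) : ℂ)

lemma lagC (n : ℕ) (l β : ℝ) : compC (fun k => (-(l : ℂ)) ^ k / (k.factorial : ℂ)) β n = (lag n (β * l) : ℂ) := by
  rw [← lag_eq, compR_cast]
  congr 1
  funext k
  push_cast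
  rfl

theorem ML_facts {F : Nat.Primes → Matrix (Fin D) (Fin D) ℂ}
    (hF : ∀ (p : Nat.Primes) (μ : ℂ), (F p).charpoly.IsRoot μ → ‖μ‖ ≤ ((p : ℕ) : ℝ) ^ B) :
    DifferentiableOn ℂ (ML F) (HP (B + 1)) ∧
    (∀ s ∈ HP (B + 1), HasProd (fun p : Nat.Primes => ((1 - ((p : ℕ) : ℂ) ^ (-s) • F p).det)⁻¹) (ML F s) ∧ ML F s ≠ 0) ∧
    ∀ a c : ℝ, B + 1 < a → c < a →
      (∀ n, Summable (ell F a c n)) ∧
      ∀ n : ℕ, ((n : ℂ) + 1) * compC (tc (ML F) a) (2 * (a - c)) (n + 1) =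
        ∑ q ∈ antidiagonal n, (((q.1 : ℂ) + 1) * ∑' x, ell F a c (q.1 + 1) x) * compC (tc (ML F) a) (2 * (a - c)) q.2 := by
  choose α hα1 hα2 hα3 using fun p : Nat.Primes => eigs (F p)
  have hα : ∀ p j, ‖α p j‖ ≤ ((p : ℕ) : ℝ) ^ B := fun p j => hF p _ (hα1 p j)
  have hfac : ∀ (p : Nat.Primes) (s : ℂ), (1 - ((p : ℕ) : ℂ) ^ (-s) • F p).det = eden α p s := by
    intro p s
    rw [hα3 p _ (by
      rw [Ne, Complex.cpow_eq_zero_iff]
      have := prime_ne p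
      tauto)]
    rfl
  have hML : ML F = EP α := by
    funext s
    exact tprod_congr fun p => by rw [hfac]
  obtain ⟨h1, h2⟩ := EP_facts hα
  obtain ⟨h3, h4, h5⟩ := logL_facts hα
  rw [hML]
  refine ⟨h1, fun s hs => ?_, fun a c ha hca => ?_⟩
  · simp only [hfac]
    exact h2 s hs
  · -- the coefficients of the logarithm
    have hsum : ∀ n, HasSum (ell F a c n) (compC (tc (logL α) a) (2 * (a - c)) n) := by
      intro n
      have hs : ∀ σ : ℝ, B + 1 < σ → Summable fun x : Nat.Primes × ℕ =>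
          ‖tr α x.1 (x.2 + 1) / ((x.2 : ℂ) + 1)‖ * Real.exp (-(σ * (((x.2 : ℝ) + 1) * Real.log (x.1 : ℕ)))) := by
        intro σ hσ
        have h6 := (h5 (σ : ℂ) (show B + 1 < ((σ : ℝ) : ℂ).re by simpa using hσ)).summable.norm
        refine h6.congr fun x => ?_
        rw [norm_mul, Complex.norm_exp]
        congr 2
        rw [Complex.neg_re, ← Complex.ofReal_mul, Complex.ofReal_re]
      have h6 := fun k => tc_dirC (x := fun x : Nat.Primes × ℕ => tr α x.1 (x.2 + 1) / ((x.2 : ℂ) + 1))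
        (l := fun x : Nat.Primes × ℕ => ((x.2 : ℝ) + 1) * Real.log (x.1 : ℕ))
        (fun x => mul_nonneg (by positivity) (Real.log_nonneg (by exact_mod_cast x.1.2.one_lt.le))) hs
        (fun s hs => h5 s hs) h3 ha k
      have h7 := compC_hasSum_param h6 (2 * (a - c)) n
      refine h7.congr_fun ?_ |> fun h => h
      intro x
      rw [compC_smul, lagC]
      unfold ell
      have hp : (0 : ℝ) < ((x.1 : ℕ) : ℝ) := by exact_mod_cast x.1.2.pos
      rw [hα2 x.1 x.2]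
      have h8 : Complex.exp (-((a : ℂ) * ((((x.2 : ℝ) + 1) * Real.log (x.1 : ℕ) : ℝ) : ℂ))) =
          (((((x.1 : ℕ) : ℝ) ^ (-(((x.2 : ℝ) + 1) * a)) : ℝ)) : ℂ) := by
        rw [Real.rpow_def_of_pos hp, ← Complex.ofReal_mul, ← Complex.ofReal_neg, ← Complex.ofReal_exp]
        congr 2
        ring
      rw [h8]
      push_cast
      unfold tr
      ring
    refine ⟨fun n => (hsum n).summable, fun n => ?_⟩
    rw [A_rec h1 h3 ha hca h4 n]
    refine Finset.sum_congr rfl fun q _ => ?_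
    rw [(hsum _).tsum_eq]

end

/-! ### The whole plane, complex coefficients -/

theorem all_cplx {f : ℂ → ℂ} {e a : ℝ} (hf : DifferentiableOn ℂ f (HP e)) (hea : e < a) {c : ℕ → ℝ} (hce : ∀ k, c k < e)
    (hc : ∀ x : ℝ, ∃ k, c k < x) :
    ((∃ g : ℂ → ℂ, Differentiable ℂ g ∧ ∀ s : ℂ, e < s.re → g s = f s) ↔
      ∀ k, (Low (Are f a (c k)) ∨ Upp (Are f a (c k))) ∧ (Low (Aim f a (c k)) ∨ Upp (Aim f a (c k)))) ∧
    ((∃ g : ℂ → ℂ, MeromorphicOn g Set.univ ∧ ∀ s : ℂ, e < s.re → g s = f s) ↔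
      ∀ k, MerLow (Are f a (c k)) ∧ MerLow (Aim f a (c k))) := by
  constructor
  · rw [hol_all hf hce hc]
    exact forall_congr' fun k => (hol_cplx hf (hce k) hea).1
  · rw [mer_all hf hce hc]
    exact forall_congr' fun k => (mer_cplx hf (hce k) hea).1

end Pool.Agent.U156.OS
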