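import Mathlib

/-!
# Pringsheim's theorem in the form needed for continuation: a one-sided bound for the Taylor coefficients
-/

set_option autoImplicit false

open Complex Filter Topology Finset

namespace Pool.Agent.U156.OS

/-! ### Re-expansion of a power series with nonnegative coefficients -/

/-- the double series -/
def dbl (b : ℕ → ℝ) (x y : ℝ) (q : ℕ × ℕ) : ℝ :=
  ((q.1 + q.2).choose q.1 : ℝ) * b (q.1 + q.2) * x ^ q.2 * y ^ q.1

lemma dbl_nonneg {b : ℕ → ℝ} (hb : ∀ n, 0 ≤ b n) {x y : ℝ} (hx : 0 ≤ x) (hy : 0 ≤ y) (q : ℕ × ℕ) :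
    0 ≤ dbl b x y q := by
  unfold dbl
  have := hb (q.1 + q.2)
  positivity

lemma sum_anti (b : ℂ) (x y : ℂ) (n : ℕ) :
    ∑ q ∈ antidiagonal n, ((q.1 + q.2).choose q.1 : ℂ) * b * x ^ q.2 * y ^ q.1 = b * (x + y) ^ n := by
  rw [add_comm x y, (Commute.all y x).add_pow', Finset.mul_sum]
  refine Finset.sum_congr rfl fun q hq => ?_
  rw [HasAntidiagonal.mem_antidiagonal.1 hq, nsmul_eq_mul]
  ring

lemma sum_anti_real (b : ℝ) (x y : ℝ) (n : ℕ) :
    ∑ q ∈ antidiagonal n, ((q.1 + q.2).choose q.1 : ℝ) * b * x ^ q.2 * y ^ q.1 = b * (x + y) ^ n := by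
  rw [add_comm x y, (Commute.all y x).add_pow', Finset.mul_sum]
  refine Finset.sum_congr rfl fun q hq => ?_
  rw [HasAntidiagonal.mem_antidiagonal.1 hq, nsmul_eq_mul]
  ring

lemma dbl_anti (b : ℕ → ℝ) (x y : ℝ) (n : ℕ) :
    ∑ q ∈ antidiagonal n, dbl b x y q = b n * (x + y) ^ n := by
  rw [← sum_anti_real]
  refine Finset.sum_congr rfl fun q hq => ?_
  unfold dbl
  rw [HasAntidiagonal.mem_antidiagonal.1 hq]

lemma summable_dbl {b : ℕ → ℝ} (hb : ∀ n, 0 ≤ b n) {x y : ℝ} (hx : 0 ≤ x) (hy : 0 ≤ y) :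
    Summable (dbl b x y) ↔ Summable (fun n => b n * (x + y) ^ n) := by
  rw [← (HasAntidiagonal.sigmaAntidiagonalEquivProd (A := ℕ)).summable_iff]
  rw [summable_sigma_of_nonneg (f := dbl b x y ∘ ⇑(HasAntidiagonal.sigmaAntidiagonalEquivProd (A := ℕ)))
    (fun q => dbl_nonneg hb hx hy _)]
  have h : ∀ n : ℕ, ∑' q : antidiagonal n, (dbl b x y ∘ ⇑(HasAntidiagonal.sigmaAntidiagonalEquivProd (A := ℕ))) ⟨n, q⟩ =
      b n * (x + y) ^ n := by
    intro n
    rw [tsum_fintype, ← dbl_anti, ← Finset.sum_coe_sort (antidiagonal n) (dbl b x y)]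
    rfl
  constructor
  · intro h1
    refine h1.2.congr fun n => ?_
    rw [← h n]
  · intro h1
    refine ⟨fun n => (hasSum_fintype _).summable, h1.congr fun n => ?_⟩
    rw [← h n]

/-- the coefficients at `x` -/
noncomputable def cc (b : ℕ → ℝ) (x : ℝ) (k : ℕ) : ℝ := ∑' j : ℕ, ((k + j).choose k : ℝ) * b (k + j) * x ^ j

lemma cc_summable {b : ℕ → ℝ} (hb : ∀ n, 0 ≤ b n) {x R : ℝ} (hx : 0 ≤ x) (hxR : x < R)
    (hR : Summable fun n => b n * R ^ n) (k : ℕ) :
    Summable fun j : ℕ => ((k + j).choose k : ℝ) * b (k + j) * x ^ j := by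
  have h1 : Summable (dbl b x (R - x)) := by
    rw [summable_dbl hb hx (by linarith)]
    simpa using hR
  have h2 := h1.prod_factor k
  have hne : (R - x) ^ k ≠ 0 := pow_ne_zero _ (by linarith)
  refine (h2.mul_right ((R - x) ^ k)⁻¹).congr fun j => ?_
  unfold dbl
  simp only
  field_simp

/-- if the expansion at `x` converges at the distance `y`, then the series converges at `x + y` -/
lemma back {b : ℕ → ℝ} (hb : ∀ n, 0 ≤ b n) {x R y : ℝ} (hx : 0 ≤ x) (hxR : x < R) (hy : 0 ≤ y)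
    (hR : Summable fun n => b n * R ^ n) (h : Summable fun k => cc b x k * y ^ k) :
    Summable fun n => b n * (x + y) ^ n := by
  rw [← summable_dbl hb hx hy, summable_prod_of_nonneg (fun q => dbl_nonneg hb hx hy q)]
  refine ⟨fun k => ?_, ?_⟩
  · exact (cc_summable hb hx hxR hR k).mul_right (y ^ k)
  · refine h.congr fun k => ?_
    unfold cc dbl
    simp only
    rw [tsum_mul_right]

/-- the expansion at `x` -/
lemma expand {b : ℕ → ℝ} (hb : ∀ n, 0 ≤ b n) {x R : ℝ} (hx : 0 ≤ x) (hxR : x < R)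
    (hR : Summable fun n => b n * R ^ n) {y : ℂ} (hy : x + ‖y‖ ≤ R) :
    HasSum (fun k => (cc b x k : ℂ) * y ^ k) (∑' n, (b n : ℂ) * ((x : ℂ) + y) ^ n) := by
  have h1 : Summable (dbl b x ‖y‖) := by
    rw [summable_dbl hb hx (norm_nonneg _)]
    refine Summable.of_nonneg_of_le (fun n => by have := hb n; positivity) (fun n => ?_) hR
    exact mul_le_mul_of_nonneg_left (pow_le_pow_left₀ (by positivity) hy n) (hb n)
  obtain ⟨f, hf⟩ : ∃ f : ℕ × ℕ → ℂ, f = fun q =>
      ((q.1 + q.2).choose q.1 : ℂ) * (b (q.1 + q.2) : ℂ) * (x : ℂ) ^ q.2 * y ^ q.1 := ⟨_, rfl⟩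
  have hn : ∀ q, ‖f q‖ = dbl b x ‖y‖ q := by
    intro q
    rw [hf]
    unfold dbl
    simp only [norm_mul, norm_pow, Complex.norm_natCast, Complex.norm_real, Real.norm_eq_abs, abs_of_nonneg hx,
      abs_of_nonneg (hb _)]
  have hs : Summable f := by
    refine Summable.of_norm ?_
    simp only [hn]
    exact h1
  have h2 : ∑' q, f q = ∑' n, (b n : ℂ) * ((x : ℂ) + y) ^ n := by
    rw [← (HasAntidiagonal.sigmaAntidiagonalEquivProd (A := ℕ)).tsum_eq, Summable.tsum_sigma']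
    · refine tsum_congr fun n => ?_
      rw [tsum_fintype, ← sum_anti (b n : ℂ) x y n, ← Finset.sum_coe_sort (antidiagonal n)]
      refine Finset.sum_congr rfl fun q _ => ?_
      rw [hf]
      have hq := HasAntidiagonal.mem_antidiagonal.1 q.2
      simp only [HasAntidiagonal.sigmaAntidiagonalEquivProd_apply]
      rw [hq]
    · intro n
      exact (hasSum_fintype _).summable
    · exact (HasAntidiagonal.sigmaAntidiagonalEquivProd (A := ℕ)).summable_iff.2 hs
  have h3 := hs.hasSum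
  rw [h2] at h3
  refine h3.prod_fiberwise fun k => ?_
  have h4 := (Complex.hasSum_ofReal.2 (cc_summable hb hx hxR hR k).hasSum).mul_right (y ^ k)
  have e : (fun j => f (k, j)) = fun j : ℕ =>
      ((((k + j).choose k : ℝ) * b (k + j) * x ^ j : ℝ) : ℂ) * y ^ k := by
    funext j
    rw [hf]
    push_cast
    rfl
  rw [e]
  exact h4

/-! ### Uniqueness of the coefficients -/

lemma coeff_unique {c g : ℕ → ℂ} {H : ℂ → ℂ}
    (h1 : ∀ᶠ y in 𝓝 (0 : ℂ), HasSum (fun k => c k * y ^ k) (H y))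
    (h2 : ∀ᶠ y in 𝓝 (0 : ℂ), HasSum (fun k => g k * y ^ k) (H y)) : c = g := by
  have key : ∀ c : ℕ → ℂ, (∀ᶠ y in 𝓝 (0 : ℂ), HasSum (fun k => c k * y ^ k) (H y)) →
      HasFPowerSeriesAt H (FormalMultilinearSeries.ofScalars ℂ c) 0 := by
    intro c hc
    rw [hasFPowerSeriesAt_iff]
    filter_upwards [hc] with y hy
    rw [zero_add]
    refine hy.congr_fun ?_ |> fun h => h
    intro k
    rw [FormalMultilinearSeries.coeff_ofScalars, smul_eq_mul, mul_comm]
  have h3 := (key c h1).eq_formalMultilinearSeries (key g h2)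
  funext k
  have := congrArg (fun p => FormalMultilinearSeries.coeff p k) h3
  simpa [FormalMultilinearSeries.coeff_ofScalars] using this

end Pool.Agent.U156.OS
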