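import Pool.Agent.U156.OS.Pring

/-!
# Pringsheim's theorem, and one-sided bounds for Taylor coefficients
-/

set_option autoImplicit false

open Complex Filter Topology Finset

namespace Pool.Agent.U156.OS

/-- one step of the continuation along the segment `[0, ρ]` -/
lemma step {b : ℕ → ℝ} (hb : ∀ n, 0 ≤ b n) {H : ℂ → ℂ} {ρ δ : ℝ} (hδ : 0 < δ)
    (hH : ∀ z ∈ Metric.thickening δ ((fun x : ℝ => (x : ℂ)) '' Set.Icc 0 ρ), AnalyticAt ℂ H z)
    (h0 : ∀ᶠ z in 𝓝 (0 : ℂ), HasSum (fun n => (b n : ℂ) * z ^ n) (H z))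
    {R : ℝ} (hR0 : 0 < R) (hRρ : R ≤ ρ) (hR : Summable fun n => b n * R ^ n) :
    ∃ R', R + δ / 4 ≤ R' ∧ Summable fun n => b n * R' ^ n := by
  set K : Set ℂ := (fun x : ℝ => (x : ℂ)) '' Set.Icc 0 ρ with hK
  have hρ : 0 ≤ ρ := hR0.le.trans hRρ
  have hKc : Convex ℝ K := (convex_Icc (0 : ℝ) ρ).linear_image Complex.ofRealLI.toLinearMap
  set W : Set ℂ := Metric.ball 0 R ∩ Metric.thickening δ K with hW
  have hWc : IsPreconnected W := ((convex_ball (0 : ℂ) R).inter (hKc.thickening δ)).isPreconnected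
  have hWo : IsOpen W := Metric.isOpen_ball.inter Metric.isOpen_thickening
  have h0K : (0 : ℂ) ∈ K := ⟨0, ⟨le_rfl, hρ⟩, by simp⟩
  have h0W : (0 : ℂ) ∈ W := ⟨Metric.mem_ball_self hR0, Metric.self_subset_thickening hδ K h0K⟩
  -- the sum of the series on the ball
  have hG : AnalyticOnNhd ℂ (fun z : ℂ => ∑' n, (b n : ℂ) * z ^ n) (Metric.ball 0 R) := by
    refine DifferentiableOn.analyticOnNhd ?_ Metric.isOpen_ball
    refine differentiableOn_tsum_of_summable_norm hR ?_ Metric.isOpen_ball ?_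
    · intro i
      exact (differentiableOn_const _).mul (differentiableOn_pow i)
    · intro i w hw
      rw [Metric.mem_ball, dist_zero_right] at hw
      rw [norm_mul, norm_pow, Complex.norm_real, Real.norm_eq_abs, abs_of_nonneg (hb i)]
      exact mul_le_mul_of_nonneg_left (pow_le_pow_left₀ (norm_nonneg _) hw.le i) (hb i)
  have heq : Set.EqOn H (fun z : ℂ => ∑' n, (b n : ℂ) * z ^ n) W := by
    refine AnalyticOnNhd.eqOn_of_preconnected_of_eventuallyEq (fun z hz => hH z hz.2)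
      (fun z hz => hG z hz.1) hWc h0W ?_
    filter_upwards [h0] with z hz
    exact hz.tsum_eq.symm
  -- the point `x`
  obtain ⟨x, hx0, hxR, hxδ⟩ : ∃ x : ℝ, 0 ≤ x ∧ x < R ∧ R - δ / 4 ≤ x := by
    refine ⟨max 0 (R - δ / 4), le_max_left _ _, ?_, le_max_right _ _⟩
    exact max_lt hR0 (by linarith)
  have hxK : (x : ℂ) ∈ K := ⟨x, ⟨hx0, hxR.le.trans hRρ⟩, rfl⟩
  have hsub : Metric.ball (x : ℂ) δ ⊆ Metric.thickening δ K := Metric.ball_subset_thickening hxK δ
  have hdiff : DifferentiableOn ℂ H (Metric.ball (x : ℂ) δ) :=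
    fun z hz => (hH z (hsub hz)).differentiableAt.differentiableWithinAt
  -- Taylor coefficients at `x`
  set g : ℕ → ℂ := fun k => ((k.factorial : ℂ))⁻¹ * iteratedDeriv k H x with hg
  have hT : ∀ y : ℂ, ‖y‖ < δ → HasSum (fun k => g k * y ^ k) (H ((x : ℂ) + y)) := by
    intro y hy
    have h1 := Complex.hasSum_taylorSeries_on_ball hdiff
      (z := (x : ℂ) + y) (by simpa [Metric.mem_ball, dist_eq_norm] using hy)
    refine h1.congr_fun ?_ |> fun h => h
    intro k
    simp only [hg, smul_eq_mul, add_sub_cancel_left]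
    ring
  have hcc : (fun k => (cc b x k : ℂ)) = g := by
    refine coeff_unique (H := fun y => H ((x : ℂ) + y)) ?_ ?_
    · have hev : ∀ᶠ y in 𝓝 (0 : ℂ), ‖y‖ < min δ (R - x) := by
        have := Metric.ball_mem_nhds (0 : ℂ) (lt_min hδ (sub_pos.2 hxR))
        filter_upwards [this] with y hy
        simpa using hy
      filter_upwards [hev] with y hy
      have hy1 : ‖y‖ < δ := hy.trans_le (min_le_left _ _)
      have hy2 : ‖y‖ < R - x := hy.trans_le (min_le_right _ _)
      have h2 := expand hb hx0 hxR hR (y := y) (by linarith)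
      have h3 : (x : ℂ) + y ∈ W := by
        refine ⟨?_, hsub ?_⟩
        · rw [Metric.mem_ball, dist_zero_right]
          calc ‖(x : ℂ) + y‖ ≤ ‖(x : ℂ)‖ + ‖y‖ := norm_add_le _ _
            _ = x + ‖y‖ := by rw [Complex.norm_real, Real.norm_eq_abs, abs_of_nonneg hx0]
            _ < R := by linarith
        · simpa [Metric.mem_ball, dist_eq_norm] using hy1
      have h4 := heq h3
      simp only at h4
      rw [← h4] at h2
      exact h2
    · have hev : ∀ᶠ y in 𝓝 (0 : ℂ), ‖y‖ < δ := by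
        filter_upwards [Metric.ball_mem_nhds (0 : ℂ) hδ] with y hy
        simpa using hy
      filter_upwards [hev] with y hy
      exact hT y hy
  have hs : Summable fun k => cc b x k * (δ / 2) ^ k := by
    have h5 := (hT ((δ / 2 : ℝ) : ℂ) (by
      rw [Complex.norm_real, Real.norm_eq_abs, abs_of_pos (by positivity)]
      linarith)).summable
    rw [← hcc] at h5
    rw [← Complex.summable_ofReal]
    refine h5.congr fun k => ?_
    push_cast
    rfl
  refine ⟨x + δ / 2, by linarith, back hb hx0 hxR (by positivity) hR hs⟩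

/-- **Pringsheim's theorem.** -/
theorem pringsheim {b : ℕ → ℝ} (hb : ∀ n, 0 ≤ b n) {H : ℂ → ℂ} {ρ : ℝ}
    (hH : ∀ x ∈ Set.Icc (0 : ℝ) ρ, AnalyticAt ℂ H (x : ℂ))
    (h0 : ∀ᶠ z in 𝓝 (0 : ℂ), HasSum (fun n => (b n : ℂ) * z ^ n) (H z)) :
    ∃ R, ρ < R ∧ 0 < R ∧ Summable fun n => b n * R ^ n := by
  -- initial radius
  obtain ⟨R0, hR0, hs0⟩ : ∃ R0 : ℝ, 0 < R0 ∧ Summable fun n => b n * R0 ^ n := by
    obtain ⟨ε, hε, h1⟩ := Metric.eventually_nhds_iff.1 h0
    have h2 := (h1 (y := ((ε / 2 : ℝ) : ℂ)) (by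
      rw [dist_zero_right, Complex.norm_real, Real.norm_eq_abs, abs_of_pos (by positivity)]
      linarith)).summable
    refine ⟨ε / 2, by positivity, ?_⟩
    rw [← Complex.summable_ofReal]
    refine h2.congr fun k => ?_
    push_cast
    rfl
  by_cases hρ : ρ < R0
  · exact ⟨R0, hρ, hR0, hs0⟩
  push Not at hρ
  set K : Set ℂ := (fun x : ℝ => (x : ℂ)) '' Set.Icc 0 ρ with hK
  have hKk : IsCompact K := isCompact_Icc.image Complex.continuous_ofReal
  have hKs : K ⊆ {z | AnalyticAt ℂ H z} := by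
    rintro _ ⟨x, hx, rfl⟩
    exact hH x hx
  obtain ⟨δ, hδ, hsub⟩ := hKk.exists_thickening_subset_open (isOpen_analyticAt ℂ H) hKs
  have key : ∀ m : ℕ, ∃ R, 0 < R ∧ (Summable fun n => b n * R ^ n) ∧ (ρ < R ∨ R0 + m * (δ / 4) ≤ R) := by
    intro m
    induction m with
    | zero => exact ⟨R0, hR0, hs0, Or.inr (by simp)⟩
    | succ m ih =>
      obtain ⟨R, hR, hs, h⟩ := ih
      by_cases hRρ : ρ < R
      · exact ⟨R, hR, hs, Or.inl hRρ⟩
      push Not at hRρ
      have h' : R0 + m * (δ / 4) ≤ R := by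
        rcases h with h | h
        · exact absurd h (not_lt.2 hRρ)
        · exact h
      obtain ⟨R', hR', hs'⟩ := step hb hδ (fun z hz => hsub hz) h0 hR hRρ hs
      refine ⟨R', by linarith, hs', Or.inr ?_⟩
      push_cast
      linarith
  obtain ⟨m, hm⟩ := exists_nat_gt (ρ / (δ / 4))
  obtain ⟨R, hR, hs, h⟩ := key m
  refine ⟨R, ?_, hR, hs⟩
  rcases h with h | h
  · exact h
  · rw [div_lt_iff₀ (by positivity)] at hm
    linarith

/-- a one-sided exponential bound for the Taylor coefficients gives a two-sided one if the function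
is analytic on the real segment -/
theorem one_sided {A : ℕ → ℝ} {F : ℂ → ℂ} {δ ε C : ℝ} (hδε : δ < ε)
    (hF : ∀ x ∈ Set.Ico (0 : ℝ) (Real.exp (-δ)), AnalyticAt ℂ F (x : ℂ))
    (h0 : ∀ᶠ z in 𝓝 (0 : ℂ), HasSum (fun n => (A n : ℂ) * z ^ n) (F z))
    (hA : ∀ n : ℕ, -(C * Real.exp (δ * n)) ≤ A n) :
    Summable fun n => |A n| * Real.exp (-ε) ^ n := by
  have hC : 0 ≤ |C| := abs_nonneg C
  have hexp : ∀ n : ℕ, Real.exp (δ * n) = Real.exp δ ^ n := by
    intro n
    rw [← Real.exp_nat_mul, mul_comm]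
  obtain ⟨b, hb⟩ : ∃ b : ℕ → ℝ, b = fun n => A n + |C| * Real.exp δ ^ n := ⟨_, rfl⟩
  have hb0 : ∀ n, 0 ≤ b n := by
    intro n
    rw [hb]
    simp only
    have h1 := hA n
    rw [hexp] at h1
    have h2 : C * Real.exp δ ^ n ≤ |C| * Real.exp δ ^ n :=
      mul_le_mul_of_nonneg_right (le_abs_self C) (by positivity)
    linarith
  have hH : ∀ x ∈ Set.Icc (0 : ℝ) (Real.exp (-ε)),
      AnalyticAt ℂ (fun z => F z + |C| * (1 - Real.exp δ * z)⁻¹) (x : ℂ) := by
    intro x hx
    have hx1 : x < Real.exp (-δ) := hx.2.trans_lt (Real.exp_lt_exp.2 (by linarith))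
    refine (hF x ⟨hx.1, hx1⟩).add (analyticAt_const.mul (AnalyticAt.inv ?_ ?_))
    · fun_prop
    · have h1 : Real.exp δ * x < 1 := by
        calc Real.exp δ * x < Real.exp δ * Real.exp (-δ) :=
              mul_lt_mul_of_pos_left hx1 (Real.exp_pos _)
          _ = 1 := by rw [← Real.exp_add]; simp
      intro h2
      have h3 : ((1 - Real.exp δ * x : ℝ) : ℂ) = 0 := by
        push_cast
        exact_mod_cast h2
      rw [Complex.ofReal_eq_zero] at h3
      linarith
  have h0' : ∀ᶠ z in 𝓝 (0 : ℂ), HasSum (fun n => (b n : ℂ) * z ^ n)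
      (F z + |C| * (1 - Real.exp δ * z)⁻¹) := by
    have hev : ∀ᶠ z in 𝓝 (0 : ℂ), ‖(Real.exp δ : ℂ) * z‖ < 1 := by
      have hc : Continuous fun z : ℂ => ‖(Real.exp δ : ℂ) * z‖ := by fun_prop
      have := hc.tendsto 0
      simp only [mul_zero, norm_zero] at this
      exact this.eventually_lt_const one_pos
    filter_upwards [h0, hev] with z hz hz1
    have h2 := (hasSum_geometric_of_norm_lt_one hz1).mul_left ((|C| : ℝ) : ℂ)
    refine (hz.add h2).congr_fun ?_ |> fun h => h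
    intro n
    rw [hb]
    push_cast
    rw [mul_pow]
    ring
  obtain ⟨R, hR, hRpos, hs⟩ := pringsheim hb0 hH h0'
  have h3 : Summable fun n => b n * Real.exp (-ε) ^ n := by
    refine Summable.of_nonneg_of_le (fun n => mul_nonneg (hb0 n) (by positivity)) (fun n => ?_) hs
    exact mul_le_mul_of_nonneg_left (pow_le_pow_left₀ (Real.exp_pos _).le hR.le n) (hb0 n)
  have h4 : Summable fun n : ℕ => |C| * (Real.exp δ * Real.exp (-ε)) ^ n := by
    refine (summable_geometric_of_lt_one (by positivity) ?_).mul_left _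
    rw [← Real.exp_add, Real.exp_lt_one_iff]
    linarith
  refine Summable.of_nonneg_of_le (fun n => by positivity) (fun n => ?_) (h3.add h4)
  have h5 : |A n| ≤ b n + |C| * Real.exp δ ^ n := by
    have : A n = b n - |C| * Real.exp δ ^ n := by rw [hb]; ring
    rw [this]
    refine (abs_sub _ _).trans ?_
    rw [abs_of_nonneg (hb0 n), abs_of_nonneg (show (0 : ℝ) ≤ |C| * Real.exp δ ^ n by positivity)]
  calc |A n| * Real.exp (-ε) ^ n ≤ (b n + |C| * Real.exp δ ^ n) * Real.exp (-ε) ^ n :=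
        mul_le_mul_of_nonneg_right h5 (by positivity)
    _ = b n * Real.exp (-ε) ^ n + |C| * (Real.exp δ * Real.exp (-ε)) ^ n := by rw [mul_pow]; ring

end Pool.Agent.U156.OS
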