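import Pool.Agent.U156.OS.Eul

/-!
# The coefficients in terms of traces
-/

set_option autoImplicit false

open Complex Filter Topology Finset

namespace Pool.Agent.U156.OS

/-- the Taylor coefficients of `∑ x_i exp (- l_i s)`, complex `x_i` -/
lemma tc_dirC {ι : Type*} {x : ι → ℂ} {l : ι → ℝ} (hl : ∀ i, 0 ≤ l i) {f : ℂ → ℂ} {e a : ℝ}
    (hs : ∀ σ : ℝ, e < σ → Summable fun i => ‖x i‖ * Real.exp (-(σ * l i)))
    (hf : ∀ s : ℂ, e < s.re → HasSum (fun i => x i * Complex.exp (-(s * l i))) (f s))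
    (hd : DifferentiableOn ℂ f (HP e)) (hea : e < a) (k : ℕ) :
    HasSum (fun i => x i * Complex.exp (-(a * l i)) * ((-(l i : ℂ)) ^ k / (k.factorial : ℂ))) (tc f a k) := by
  have hfam : ∀ w : ℂ, ‖w‖ < a - e → Summable fun q : ι × ℕ =>
      (x q.1 * Complex.exp (-(a * l q.1))) * ((-(w * l q.1)) ^ q.2 / (q.2.factorial : ℂ)) := by
    intro w hw
    refine Summable.of_norm ?_
    rw [summable_prod_of_nonneg (fun q => norm_nonneg _)]
    have hrow : ∀ i, HasSum (fun k : ℕ => ‖(x i * Complex.exp (-(a * l i))) * ((-(w * l i)) ^ k / (k.factorial : ℂ))‖)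
        (‖x i‖ * Real.exp (-((a - ‖w‖) * l i))) := by
      intro i
      have h1 : HasSum (fun k : ℕ => (‖w‖ * l i) ^ k / (k.factorial : ℝ)) (Real.exp (‖w‖ * l i)) := by
        rw [Real.exp_eq_exp_ℝ]
        exact NormedSpace.expSeries_div_hasSum_exp (𝔸 := ℝ) (‖w‖ * l i)
      have h2 := h1.mul_left (‖x i‖ * Real.exp (-(a * l i)))
      have e1 : ‖x i‖ * Real.exp (-(a * l i)) * Real.exp (‖w‖ * l i) = ‖x i‖ * Real.exp (-((a - ‖w‖) * l i)) := by
        rw [mul_assoc, ← Real.exp_add]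
        congr 2
        ring
      rw [e1] at h2
      refine h2.congr_fun ?_ |> fun h => h
      intro k
      have e2 : Complex.exp (-(a * l i)) = ((Real.exp (-(a * l i)) : ℝ) : ℂ) := by
        push_cast
        rfl
      rw [e2, norm_mul, norm_mul, Complex.norm_real, Real.norm_eq_abs, abs_of_pos (Real.exp_pos _), norm_div, norm_pow,
        norm_neg, norm_mul, Complex.norm_real, Real.norm_eq_abs, abs_of_nonneg (hl i), Complex.norm_natCast]
    refine ⟨fun i => (hrow i).summable, ?_⟩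
    refine (hs (a - ‖w‖) (by linarith)).congr fun i => ?_
    rw [(hrow i).tsum_eq]
  have hexp : ∀ (w : ℂ) (i : ι), HasSum (fun k : ℕ => (x i * Complex.exp (-(a * l i))) *
      ((-(w * l i)) ^ k / (k.factorial : ℂ))) (x i * Complex.exp (-((a + w) * l i))) := by
    intro w i
    have h1 : HasSum (fun k : ℕ => (-(w * l i)) ^ k / (k.factorial : ℂ)) (Complex.exp (-(w * l i))) := by
      rw [Complex.exp_eq_exp_ℂ]
      exact NormedSpace.expSeries_div_hasSum_exp (𝔸 := ℂ) (-(w * l i))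
    have h2 := h1.mul_left (x i * Complex.exp (-(a * l i)))
    have e1 : x i * Complex.exp (-(a * l i)) * Complex.exp (-(w * l i)) =
        x i * Complex.exp (-((a + w) * l i)) := by
      rw [mul_assoc, ← Complex.exp_add]
      congr 2
      ring
    rwa [e1] at h2
  obtain ⟨w0, hw00, hw0⟩ : ∃ w0 : ℝ, 0 < w0 ∧ w0 < a - e := ⟨(a - e) / 2, by linarith, by linarith⟩
  have hcol : ∀ k : ℕ, Summable fun i => (x i * Complex.exp (-(a * l i))) * ((-(l i : ℂ)) ^ k / (k.factorial : ℂ)) := by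
    intro k
    have h1 := (hfam (w0 : ℂ) (by rwa [Complex.norm_real, Real.norm_eq_abs, abs_of_pos hw00])).prod_symm.prod_factor k
    have hne : (w0 : ℂ) ^ k ≠ 0 := pow_ne_zero _ (by exact_mod_cast hw00.ne')
    refine (h1.mul_left ((w0 : ℂ) ^ k)⁻¹).congr fun i => ?_
    simp only [Prod.swap_prod_mk]
    have e1 : (-((w0 : ℂ) * l i)) ^ k = (w0 : ℂ) ^ k * (-(l i : ℂ)) ^ k := by
      rw [← mul_pow]
      congr 1
      ring
    rw [e1]
    field_simp
  have hev : ∀ᶠ w in 𝓝 (0 : ℂ), ‖w‖ < a - e := by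
    filter_upwards [Metric.ball_mem_nhds (0 : ℂ) (sub_pos.2 hea)] with z hz
    simpa using hz
  have hkey : tc f a = fun k => ∑' i, (x i * Complex.exp (-(a * l i))) * ((-(l i : ℂ)) ^ k / (k.factorial : ℂ)) := by
    refine coeff_unique (H := fun w => f ((a : ℂ) + w)) ?_ ?_
    · filter_upwards [hev] with w hw
      exact tc_hasSum (hd.mono ball_sub) hw
    · filter_upwards [hev] with w hw
      have h1 := hfam w hw
      have h2 : ∑' q : ι × ℕ, (x q.1 * Complex.exp (-(a * l q.1))) * ((-(w * l q.1)) ^ q.2 / (q.2.factorial : ℂ)) =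
          f ((a : ℂ) + w) := by
        have h3 := h1.hasSum.prod_fiberwise (fun i => hexp w i)
        have h4 := hf ((a : ℂ) + w) (ball_sub (e := e) (a := a) (by simpa [Metric.mem_ball, dist_eq_norm] using hw))
        exact h3.unique h4
      have h5 := h1.prod_symm.hasSum
      have h6 : ∑' q : ℕ × ι, (x q.swap.1 * Complex.exp (-(a * l q.swap.1))) *
          ((-(w * l q.swap.1)) ^ q.swap.2 / (q.swap.2.factorial : ℂ)) = f ((a : ℂ) + w) := by
        rw [← h2]
        exact (Equiv.prodComm ℕ ι).tsum_eq (fun q : ι × ℕ => (x q.1 * Complex.exp (-(a * l q.1))) *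
          ((-(w * l q.1)) ^ q.2 / (q.2.factorial : ℂ)))
      rw [h6] at h5
      refine h5.prod_fiberwise fun k => ?_
      have h7 := (hcol k).hasSum.mul_right (w ^ k)
      refine h7.congr_fun ?_ |> fun h => h
      intro i
      simp only [Prod.swap_prod_mk]
      have e1 : (-(w * l i)) ^ k = w ^ k * (-(l i : ℂ)) ^ k := by
        rw [← mul_pow]
        congr 1
        ring
      rw [e1]
      ring
  rw [congrFun hkey k]
  exact (hcol k).hasSum

lemma compC_hasSum_param {ι : Type*} {c : ι → ℕ → ℂ} {C : ℕ → ℂ} (h : ∀ k, HasSum (fun i => c i k) (C k)) (β : ℝ) (n : ℕ) :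
    HasSum (fun i => compC (c i) β n) (compC C β n) := by
  unfold compC
  split_ifs
  · exact h 0
  · exact hasSum_sum fun k _ => (h (k + 1)).mul_left _

lemma compC_smul (y : ℂ) (c : ℕ → ℂ) (β : ℝ) (n : ℕ) : compC (fun k => y * c k) β n = y * compC c β n := by
  unfold compC
  split_ifs
  · rfl
  · rw [Finset.mul_sum]
    refine Finset.sum_congr rfl fun k _ => ?_
    ring

/-! ### The exponential -/

/-- the derivative of a power series -/
lemma deriv_series {F : ℂ → ℂ} (hF : AnalyticAt ℂ F 0) :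
    ∀ᶠ z in 𝓝 (0 : ℂ), HasSum (fun n : ℕ => ((n : ℂ) + 1) * tc F 0 (n + 1) * z ^ n) (deriv F z) := by
  obtain ⟨r, hr, hb⟩ : ∃ r : ℝ, 0 < r ∧ DifferentiableOn ℂ F (Metric.ball 0 r) := by
    rw [Complex.analyticAt_iff_eventually_differentiableAt] at hF
    obtain ⟨r, hr, h⟩ := Metric.eventually_nhds_iff.1 hF
    exact ⟨r, hr, fun z hz => (h (by simpa using hz)).differentiableWithinAt⟩
  have hd : DifferentiableOn ℂ (deriv F) (Metric.ball 0 r) := hb.deriv Metric.isOpen_ball
  filter_upwards [Metric.ball_mem_nhds (0 : ℂ) hr] with z hz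
  have h1 := tc_hasSum (f := deriv F) (a := 0) (R := r) hd (w := z) (by simpa using hz)
  rw [zero_add] at h1
  refine h1.congr_fun ?_ |> fun h => h
  intro n
  unfold tc
  rw [iteratedDeriv_succ', Nat.factorial_succ]
  push_cast
  have h2 : (n.factorial : ℂ) ≠ 0 := Nat.cast_ne_zero.2 n.factorial_ne_zero
  have h3 : (n : ℂ) + 1 ≠ 0 := by exact_mod_cast Nat.succ_ne_zero n
  field_simp

/-- the recursion for the coefficients of an exponential -/
lemma exp_rec {F G : ℂ → ℂ} (hF : AnalyticAt ℂ F 0) (hG : AnalyticAt ℂ G 0) (h : F =ᶠ[𝓝 0] fun z => Complex.exp (G z)) (n : ℕ) :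
    ((n : ℂ) + 1) * tc F 0 (n + 1) = ∑ q ∈ antidiagonal n, (((q.1 : ℂ) + 1) * tc G 0 (q.1 + 1)) * tc F 0 q.2 := by
  have h1 := deriv_series hF
  have h2 := deriv_series hG
  have h3 : ∀ᶠ z in 𝓝 (0 : ℂ), HasSum (fun n => tc F 0 n * z ^ n) (F z) := by
    rw [Complex.analyticAt_iff_eventually_differentiableAt] at hF
    obtain ⟨r, hr, h⟩ := Metric.eventually_nhds_iff.1 hF
    have hb : DifferentiableOn ℂ F (Metric.ball 0 r) := fun z hz => (h (by simpa using hz)).differentiableWithinAt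
    filter_upwards [Metric.ball_mem_nhds (0 : ℂ) hr] with z hz
    have h1 := tc_hasSum (f := F) (a := 0) (R := r) hb (w := z) (by simpa using hz)
    rwa [zero_add] at h1
  have h4 : ∀ᶠ z in 𝓝 (0 : ℂ), deriv F z = deriv G z * F z := by
    have hG' := Complex.analyticAt_iff_eventually_differentiableAt.1 hG
    filter_upwards [h.deriv, h, hG'] with z hz1 hz2 hz3
    rw [hz1, hz2]
    rw [deriv_cexp hz3]
    ring
  have h5 : ∀ᶠ z in 𝓝 (0 : ℂ), HasSum (fun n : ℕ => (∑ q ∈ antidiagonal n,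
      (((q.1 : ℂ) + 1) * tc G 0 (q.1 + 1)) * tc F 0 q.2) * z ^ n) (deriv F z) := by
    filter_upwards [h2, h3, h4] with z hz1 hz2 hz3
    have h6 := tsum_mul_tsum_eq_tsum_sum_antidiagonal_of_summable_norm hz1.summable.norm hz2.summable.norm
    have h7 := (summable_norm_sum_mul_antidiagonal_of_summable_norm hz1.summable.norm hz2.summable.norm).of_norm
    rw [hz1.tsum_eq, hz2.tsum_eq] at h6
    rw [hz3, h6]
    refine h7.hasSum.congr_fun ?_ |> fun h => h
    intro n
    rw [Finset.sum_mul]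
    refine Finset.sum_congr rfl fun q hq => ?_
    rw [← HasAntidiagonal.mem_antidiagonal.1 hq, pow_add]
    ring
  exact congrFun (coeff_unique h1 h5) n

/-- `compC` gives the Taylor coefficients in the coordinate `z` -/
lemma compC_tc {f : ℂ → ℂ} {e a c : ℝ} (hf : DifferentiableOn ℂ f (HP e)) (hea : e < a) (hca : c < a) :
    compC (tc f a) (2 * (a - c)) = tc (FF f a c) 0 := by
  refine coeff_unique (H := FF f a c) (FF_hasSum hf hea hca) ?_
  have h0 : AnalyticAt ℂ (FF f a c) 0 := by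
    have := FF_real hf hea hca 0 ⟨le_rfl, one_pos⟩
    simpa using this
  rw [Complex.analyticAt_iff_eventually_differentiableAt] at h0
  obtain ⟨r, hr, h⟩ := Metric.eventually_nhds_iff.1 h0
  have hb : DifferentiableOn ℂ (FF f a c) (Metric.ball 0 r) := fun z hz => (h (by simpa using hz)).differentiableWithinAt
  filter_upwards [Metric.ball_mem_nhds (0 : ℂ) hr] with z hz
  have h1 := tc_hasSum (f := FF f a c) (a := 0) (R := r) hb (w := z) (by simpa using hz)
  rwa [zero_add] at h1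

/-- the recursion for the numbers `A_n` -/
lemma A_rec {f g : ℂ → ℂ} {e a c : ℝ} (hf : DifferentiableOn ℂ f (HP e)) (hg : DifferentiableOn ℂ g (HP e))
    (hea : e < a) (hca : c < a) (hfg : ∀ s ∈ HP e, f s = Complex.exp (g s)) (n : ℕ) :
    ((n : ℂ) + 1) * compC (tc f a) (2 * (a - c)) (n + 1) =
      ∑ q ∈ antidiagonal n, (((q.1 : ℂ) + 1) * compC (tc g a) (2 * (a - c)) (q.1 + 1)) *
        compC (tc f a) (2 * (a - c)) q.2 := by
  rw [compC_tc hf hea hca, compC_tc hg hea hca]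
  have hF0 : AnalyticAt ℂ (FF f a c) 0 := by
    have := FF_real hf hea hca 0 ⟨le_rfl, one_pos⟩
    simpa using this
  have hG0 : AnalyticAt ℂ (FF g a c) 0 := by
    have := FF_real hg hea hca 0 ⟨le_rfl, one_pos⟩
    simpa using this
  refine exp_rec hF0 hG0 ?_ n
  filter_upwards [near_a (c := c) hea] with z hz
  exact hfg _ hz

/-! ### The logarithm of the Euler product -/

section
variable {D : ℕ} {B : ℝ}

/-- the power sums (traces of powers of Frobenius) -/
noncomputable def tr (α : Nat.Primes → Fin D → ℂ) (p : Nat.Primes) (k : ℕ) : ℂ := ∑ j, α p j ^ k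

/-- `log L` -/
noncomputable def logL (α : Nat.Primes → Fin D → ℂ) (s : ℂ) : ℂ :=
  ∑' x : Nat.Primes × ℕ, (tr α x.1 (x.2 + 1) / ((x.2 : ℂ) + 1)) *
    Complex.exp (-(s * ((((x.2 : ℝ) + 1) * Real.log (x.1 : ℕ) : ℝ) : ℂ)))

lemma logL_bound {α : Nat.Primes → Fin D → ℂ} (hα : ∀ p j, ‖α p j‖ ≤ ((p : ℕ) : ℝ) ^ B) (x : Nat.Primes × ℕ) (s : ℂ) :
    ‖(tr α x.1 (x.2 + 1) / ((x.2 : ℂ) + 1)) * Complex.exp (-(s * ((((x.2 : ℝ) + 1) * Real.log (x.1 : ℕ) : ℝ) : ℂ)))‖ ≤
      D * ((((x.1 : ℕ) : ℝ) ^ (B - s.re)) ^ (x.2 + 1)) := by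
  obtain ⟨p, k⟩ := x
  have hp : (0 : ℝ) < ((p : ℕ) : ℝ) := by exact_mod_cast p.2.pos
  have h1 : ‖tr α p (k + 1)‖ ≤ D * ((((p : ℕ) : ℝ) ^ B) ^ (k + 1)) := by
    unfold tr
    refine (norm_sum_le _ _).trans ?_
    calc ∑ j : Fin D, ‖α p j ^ (k + 1)‖ ≤ ∑ _j : Fin D, (((p : ℕ) : ℝ) ^ B) ^ (k + 1) := by
          refine Finset.sum_le_sum fun j _ => ?_
          rw [norm_pow]
          exact pow_le_pow_left₀ (norm_nonneg _) (hα p j) _
      _ = _ := by simp
  have h2 : ‖(k : ℂ) + 1‖ = (k : ℝ) + 1 := by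
    have : ((k : ℂ) + 1) = (((k : ℝ) + 1 : ℝ) : ℂ) := by push_cast; rfl
    rw [this, Complex.norm_real, Real.norm_eq_abs, abs_of_nonneg (by positivity)]
  have h3 : ‖Complex.exp (-(s * ((((k : ℝ) + 1) * Real.log (p : ℕ) : ℝ) : ℂ)))‖ = ((((p : ℕ) : ℝ) ^ (-s.re)) ^ (k + 1)) := by
    rw [Complex.norm_exp, Complex.neg_re, Complex.re_mul_ofReal, ← Real.rpow_natCast, ← Real.rpow_mul hp.le,
      Real.rpow_def_of_pos hp]
    congr 1
    push_cast
    ring
  rw [norm_mul, norm_div, h2, h3, sub_eq_add_neg, Real.rpow_add hp, mul_pow, ← mul_assoc]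
  refine mul_le_mul_of_nonneg_right ?_ (by positivity)
  refine (div_le_self (norm_nonneg _) ?_).trans h1
  have : (0 : ℝ) ≤ k := Nat.cast_nonneg k
  linarith

lemma geom_summable {σ : ℝ} (hσ : B + 1 < σ) :
    Summable fun x : Nat.Primes × ℕ => (D : ℝ) * ((((x.1 : ℕ) : ℝ) ^ (B - σ)) ^ (x.2 + 1)) := by
  refine Summable.mul_left _ ?_
  rw [summable_prod_of_nonneg (fun x => by positivity)]
  have hlt : ∀ p : Nat.Primes, ((p : ℕ) : ℝ) ^ (B - σ) ≤ 1 / 2 := by
    intro p
    have hp2 : (2 : ℝ) ≤ ((p : ℕ) : ℝ) := by exact_mod_cast p.2.two_le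
    calc ((p : ℕ) : ℝ) ^ (B - σ) ≤ ((p : ℕ) : ℝ) ^ (-1 : ℝ) :=
          Real.rpow_le_rpow_of_exponent_le (by linarith) (by linarith)
      _ = (((p : ℕ) : ℝ))⁻¹ := Real.rpow_neg_one _
      _ ≤ 1 / 2 := by
          rw [one_div]
          exact inv_anti₀ (by norm_num) hp2
  have hrow : ∀ p : Nat.Primes, HasSum (fun k : ℕ => (((p : ℕ) : ℝ) ^ (B - σ)) ^ (k + 1))
      ((1 - ((p : ℕ) : ℝ) ^ (B - σ))⁻¹ * ((p : ℕ) : ℝ) ^ (B - σ)) := by
    intro p
    have hp : (0 : ℝ) < ((p : ℕ) : ℝ) := by exact_mod_cast p.2.pos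
    have := (hasSum_geometric_of_lt_one (r := ((p : ℕ) : ℝ) ^ (B - σ)) (by positivity)
      (by linarith [hlt p])).mul_right (((p : ℕ) : ℝ) ^ (B - σ))
    exact this
  refine ⟨fun p => (hrow p).summable, ?_⟩
  have h1 := primes_summable hσ 2
  refine Summable.of_nonneg_of_le (fun p => tsum_nonneg fun k => by positivity) (fun p => ?_) h1
  rw [(hrow p).tsum_eq]
  have hp : (0 : ℝ) < ((p : ℕ) : ℝ) := by exact_mod_cast p.2.pos
  refine mul_le_mul_of_nonneg_right ?_ (by positivity)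
  have h2 := hlt p
  rw [inv_le_comm₀ (by linarith) (by norm_num)]
  norm_num
  linarith

lemma logL_facts {α : Nat.Primes → Fin D → ℂ} (hα : ∀ p j, ‖α p j‖ ≤ ((p : ℕ) : ℝ) ^ B) :
    DifferentiableOn ℂ (logL α) (HP (B + 1)) ∧ (∀ s ∈ HP (B + 1), EP α s = Complex.exp (logL α s)) ∧
    ∀ s ∈ HP (B + 1), HasSum (fun x : Nat.Primes × ℕ => (tr α x.1 (x.2 + 1) / ((x.2 : ℂ) + 1)) *
      Complex.exp (-(s * ((((x.2 : ℝ) + 1) * Real.log (x.1 : ℕ) : ℝ) : ℂ)))) (logL α s) := by
  have hsum : ∀ s ∈ HP (B + 1), Summable (fun x : Nat.Primes × ℕ => (tr α x.1 (x.2 + 1) / ((x.2 : ℂ) + 1)) *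
      Complex.exp (-(s * ((((x.2 : ℝ) + 1) * Real.log (x.1 : ℕ) : ℝ) : ℂ)))) := by
    intro s hs
    exact Summable.of_norm (Summable.of_nonneg_of_le (fun x => norm_nonneg _) (fun x => logL_bound hα x s)
      (geom_summable (D := D) hs))
  refine ⟨?_, fun s hs => ?_, fun s hs => (hsum s hs).hasSum⟩
  · intro s hs
    have hs' : B + 1 < s.re := hs
    obtain ⟨σ, hσ1, hσ2⟩ := exists_between hs'
    have h1 : DifferentiableOn ℂ (logL α) (HP σ) := by
      unfold logL
      refine differentiableOn_tsum_of_summable_norm (geom_summable (D := D) hσ1) (fun x => ?_) (HP_open σ) (fun x z hz => ?_)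
      · refine Differentiable.differentiableOn ?_
        fun_prop
      · refine (logL_bound hα x z).trans ?_
        have hp1 : (1 : ℝ) < ((x.1 : ℕ) : ℝ) := by exact_mod_cast x.1.2.one_lt
        have hz' : σ < z.re := hz
        refine mul_le_mul_of_nonneg_left ?_ (Nat.cast_nonneg D)
        refine pow_le_pow_left₀ (by positivity) ?_ _
        exact Real.rpow_le_rpow_of_exponent_le hp1.le (by linarith)
    exact (h1.differentiableAt ((HP_open σ).mem_nhds hσ2)).differentiableWithinAt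
  · have hs' : B + 1 < s.re := hs
    -- the factors
    have hrow : ∀ p : Nat.Primes, ∃ g : ℂ, HasSum (fun k : ℕ => (tr α p (k + 1) / ((k : ℂ) + 1)) *
        Complex.exp (-(s * ((((k : ℝ) + 1) * Real.log (p : ℕ) : ℝ) : ℂ)))) g ∧ Complex.exp g = (eden α p s)⁻¹ := by
      intro p
      have hlt : ∀ j, ‖α p j * ((p : ℕ) : ℂ) ^ (-s)‖ < 1 := by
        intro j
        have hp1 : (1 : ℝ) < ((p : ℕ) : ℝ) := by exact_mod_cast p.2.one_lt
        exact (term_norm hα p j s).trans_lt (Real.rpow_lt_one_of_one_lt_of_neg hp1 (by linarith))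
      refine ⟨∑ j, -Complex.log (1 - α p j * ((p : ℕ) : ℂ) ^ (-s)), ?_, ?_⟩
      · have h1 : ∀ j, HasSum (fun k : ℕ => (α p j * ((p : ℕ) : ℂ) ^ (-s)) ^ (k + 1) / ((k : ℂ) + 1))
            (-Complex.log (1 - α p j * ((p : ℕ) : ℂ) ^ (-s))) := by
          intro j
          have h2 := Complex.hasSum_taylorSeries_neg_log (hlt j)
          have h3 := (hasSum_nat_add_iff' 1).2 h2
          simp only [Finset.sum_range_one, Nat.cast_zero, div_zero, sub_zero] at h3
          refine h3.congr_fun ?_ |> fun h => h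
          intro k
          push_cast
          rfl
        refine (hasSum_sum (s := Finset.univ) fun j _ => h1 j).congr_fun ?_ |> fun h => h
        intro k
        unfold tr
        rw [Finset.sum_div, Finset.sum_mul]
        refine Finset.sum_congr rfl fun j _ => ?_
        rw [mul_pow]
        have h4 : (((p : ℕ) : ℂ) ^ (-s)) ^ (k + 1) = Complex.exp (-(s * ((((k : ℝ) + 1) * Real.log (p : ℕ) : ℝ) : ℂ))) := by
          rw [Complex.cpow_def_of_ne_zero (prime_ne p), ← Complex.exp_nat_mul]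
          congr 1
          have h5 : Complex.log ((p : ℕ) : ℂ) = ((Real.log (p : ℕ) : ℝ) : ℂ) := by
            rw [Complex.ofReal_log (Nat.cast_nonneg _)]
            rfl
          rw [h5]
          push_cast
          ring
        rw [h4]
        ring
      · rw [Complex.exp_sum]
        unfold eden
        rw [← Finset.prod_inv_distrib]
        refine Finset.prod_congr rfl fun j _ => ?_
        rw [Complex.exp_neg, Complex.exp_log]
        intro h0
        have h5 : α p j * ((p : ℕ) : ℂ) ^ (-s) = 1 := (sub_eq_zero.1 h0).symm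
        have h6 := hlt j
        rw [h5, norm_one] at h6
        exact lt_irrefl _ h6
    choose g hg1 hg2 using hrow
    have h1 := ((hsum s hs).hasSum.prod_fiberwise hg1).cexp
    have h2 := ((EP_facts hα).2 s hs).1
    refine h2.unique (h1.congr_fun ?_ |> fun h => h)
    intro p
    simp only [Function.comp_apply]
    rw [hg2]

end

end Pool.Agent.U156.OS
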